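import Pool.Agent.H77.AF.PD
import Mathlib.RingTheory.FiniteType

/-! # AF.Pts : the point data of an affine variety `Spec R`, `R` a `K0`-algebra, over fields `K` containing `K0` (definition, no sorry)

The points over `F` are the `K0`-algebra homomorphisms `R → F`, for `F = K` and `F = Om K`. -/

namespace H77.AF

open H68.BB

/-- the points of `Spec R` over extensions of `K0` -/
noncomputable def pts (K0 K R : Type) [Field K0] [Field K] [Algebra K0 K] [CommRing R] [Algebra K0 R] : PD K where
  X := R →ₐ[K0] K
  Y := R →ₐ[K0] Om K
  act σ y :=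
    { (σ : Om K →+* Om K).comp (y : R →+* Om K) with
      commutes' := fun c => by
        change σ (y (algebraMap K0 R c)) = _
        rw [AlgHom.commutes, IsScalarTower.algebraMap_apply K0 (RatFunc K) (Om K), AlgEquiv.commutes] }
  sp π y x := ∀ r, Rd π.V π.φ (y r) (x r)
  off π y := ∃ r, y r ∉ π.V
  cst x := (IsScalarTower.toAlgHom K0 K (Om K)).comp x
  act_cst := fun σ x => by
    ext r
    change σ (algebraMap K (Om K) (x r)) = algebraMap K (Om K) (x r)
    rw [IsScalarTower.algebraMap_apply K (RatFunc K) (Om K), AlgEquiv.commutes]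
  sp_cst := fun π x r => π.const (x r)

end H77.AF
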