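import Pool.Agent.H77.AF.Surf
import Pool.Agent.H77.AF.Pts

/-! # AF.PushS (about 60 lines): a closed subvariety of `S`

`R` a `K0`-algebra with `φ1 : A → R`, `x1, y1 ∈ R` satisfying the equation; `R` is generated by `φ1 (A)`, `x1`, `y1` (every element is in the subring generated by them).  `onS y = (y ∘ φ1, y x1, y y1)`.  The homomorphism
`Finsupp.mapDomain (fun P i => onS (P i))` maps `RatEq (pts K0 K R) k` into `RatEq (surf K0 K A a b) k`: generators go to generators (`S.map (fun y i => onS (y i))`); `off` is preserved: if all `y (φ1 r)`, `y x1`, `y y1` are in `V` then `y r ∈ V` for all `r` in the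
closure (`Subring.closure_induction`, or the comap of `V` under `y` is a subring containing the generators).  Compare `H77.AF.push`. -/

namespace H77.AF

open H68.BB

variable {K0 A R : Type} [Field K0] [CommRing A] [Algebra K0 A] [CommRing R] [Algebra K0 R] {a b : A}

/-- the point of `S` given by a point of `Spec R` -/
def onS {F : Type} [Field F] [Algebra K0 F] (φ1 : A →ₐ[K0] R) {x1 y1 : R}
    (h : y1 ^ 2 = x1 ^ 3 - 3 * φ1 a * x1 - 2 * φ1 b) (y : R →ₐ[K0] F) : SP K0 A F a b where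
  φ := y.comp φ1
  x := y x1
  y := y y1
  eq := by
    rw [← map_pow, h]
    simp only [map_sub, map_mul, map_pow, map_ofNat, AlgHom.comp_apply]

private theorem off_onS {K : Type} [Field K] [Algebra K0 K] (φ1 : A →ₐ[K0] R) {x1 y1 : R}
    (h : y1 ^ 2 = x1 ^ 3 - 3 * φ1 a * x1 - 2 * φ1 b)
    (hgen : Subring.closure (Set.range φ1 ∪ {x1, y1}) = ⊤) (π : Place K (Om K)) (y : R →ₐ[K0] Om K)
    (hy : (pts K0 K R).off π y) : (surf K0 K A a b).off π (onS φ1 h y) := by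
  obtain ⟨r, hr⟩ := hy
  by_contra hcon
  have h1 : ¬ ((∃ r, y (φ1 r) ∉ π.V) ∨ y x1 ∉ π.V ∨ y y1 ∉ π.V) := hcon
  push Not at h1
  apply hr
  have h2 : Subring.closure (Set.range φ1 ∪ {x1, y1}) ≤ π.V.toSubring.comap (y : R →+* Om K) := by
    rw [Subring.closure_le]
    rintro u (⟨v, rfl⟩ | hu | hu)
    · exact h1.1 v
    · rw [hu]
      exact h1.2.1
    · rw [Set.mem_singleton_iff.1 hu]
      exact h1.2.2
  rw [hgen] at h2
  exact h2 (Subring.mem_top r)

private theorem fibre_onS {K : Type} [Field K] [Algebra K0 K] (φ1 : A →ₐ[K0] R) {x1 y1 : R}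
    (h : y1 ^ 2 = x1 ^ 3 - 3 * φ1 a * x1 - 2 * φ1 b)
    (hgen : Subring.closure (Set.range φ1 ∪ {x1, y1}) = ⊤) {k : ℕ} (π : Place K (Om K))
    (S : Multiset (Fin k → (pts K0 K R).Y)) (c : Multiset (Fin k → (pts K0 K R).X)) (hS : Fibre π S c) :
    Fibre (D := surf K0 K A a b) π (S.map (fun P i => onS φ1 h (P i))) (c.map (fun P i => onS φ1 h (P i))) := by
  obtain ⟨S1, S2, rfl, h1, h2⟩ := hS
  refine ⟨S1.map (fun P i => onS φ1 h (P i)), S2.map (fun P i => onS φ1 h (P i)), ?_, ?_, ?_⟩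
  · exact Multiset.map_add _ _ _
  · rw [Multiset.rel_map]
    refine Multiset.Rel.mono h1 fun P _ p _ hPp => ?_
    intro i
    exact ⟨fun r => hPp i (φ1 r), hPp i x1, hPp i y1⟩
  · intro P hP
    obtain ⟨Q, hQ, rfl⟩ := Multiset.mem_map.1 hP
    obtain ⟨i, hi⟩ := h2 Q hQ
    exact ⟨i, off_onS φ1 h hgen π (Q i) hi⟩

private theorem gal_onS {K : Type} [Field K] [Algebra K0 K] (φ1 : A →ₐ[K0] R) {x1 y1 : R}
    (h : y1 ^ 2 = x1 ^ 3 - 3 * φ1 a * x1 - 2 * φ1 b) {k : ℕ}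
    (S : Multiset (Fin k → (pts K0 K R).Y)) (hS : GalStable S) :
    GalStable (D := surf K0 K A a b) (S.map (fun P i => onS φ1 h (P i))) := by
  intro σ
  conv_rhs => rw [← hS σ]
  rw [Multiset.map_map, Multiset.map_map]
  rfl

private theorem cyc_onS {K : Type} [Field K] [Algebra K0 K] (φ1 : A →ₐ[K0] R) {x1 y1 : R}
    (h : y1 ^ 2 = x1 ^ 3 - 3 * φ1 a * x1 - 2 * φ1 b) {k : ℕ} (c : Multiset (Fin k → (pts K0 K R).X)) :
    (Finsupp.mapDomain (fun (P : Fin k → R →ₐ[K0] K) i => onS φ1 h (P i)) (cyc c) : Cyc (surf K0 K A a b) k) =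
      cyc (c.map (fun P i => onS φ1 h (P i))) := by
  unfold cyc
  have h1 := map_multiset_sum (Finsupp.mapDomain.addMonoidHom
    (fun (P : Fin k → R →ₐ[K0] K) i => (onS φ1 h (P i) : SP K0 A K a b)) :
      ((Fin k → R →ₐ[K0] K) →₀ ℤ) →+ _) (c.map (fun P => Finsupp.single P 1))
  refine Eq.trans h1 ?_
  rw [Multiset.map_map, Multiset.map_map]
  congr 1
  refine Multiset.map_congr rfl fun P _ => ?_
  exact Finsupp.mapDomain_single

private theorem ratEq_onS {K : Type} [Field K] [Algebra K0 K] (φ1 : A →ₐ[K0] R) {x1 y1 : R}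
    (h : y1 ^ 2 = x1 ^ 3 - 3 * φ1 a * x1 - 2 * φ1 b)
    (hgen : Subring.closure (Set.range φ1 ∪ {x1, y1}) = ⊤) {k : ℕ} {z : Cyc (pts K0 K R) k}
    (hz : z ∈ RatEq (pts K0 K R) k) :
    (Finsupp.mapDomain (fun (P : Fin k → R →ₐ[K0] K) i => onS φ1 h (P i)) z : Cyc (surf K0 K A a b) k) ∈
      RatEq (surf K0 K A a b) k := by
  unfold RatEq at hz
  induction hz using AddSubgroup.closure_induction with
  | mem z hz =>
    obtain ⟨S, π, π', c, c', hG, h1, h2, rfl⟩ := hz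
    refine AddSubgroup.subset_closure ⟨S.map (fun P i => onS φ1 h (P i)), π, π', _, _, gal_onS φ1 h S hG,
      fibre_onS φ1 h hgen π S c h1, fibre_onS φ1 h hgen π' S c' h2, ?_⟩
    rw [← cyc_onS, ← cyc_onS]
    exact map_sub (Finsupp.mapDomain.addMonoidHom
      (fun (P : Fin k → R →ₐ[K0] K) i => (onS φ1 h (P i) : SP K0 A K a b)) :
        ((Fin k → R →ₐ[K0] K) →₀ ℤ) →+ _) (cyc c) (cyc c')
  | zero =>
    have := AddSubgroup.zero_mem (RatEq (surf K0 K A a b) k)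
    exact this
  | add x y _ _ hx hy =>
    have h3 : (Finsupp.mapDomain (fun (P : Fin k → R →ₐ[K0] K) i => onS φ1 h (P i)) (x + y) :
        Cyc (surf K0 K A a b) k) = Finsupp.mapDomain (fun (P : Fin k → R →ₐ[K0] K) i => onS φ1 h (P i)) x +
          Finsupp.mapDomain (fun (P : Fin k → R →ₐ[K0] K) i => onS φ1 h (P i)) y := Finsupp.mapDomain_add
    rw [h3]
    exact AddSubgroup.add_mem _ hx hy
  | neg x _ hx =>
    have h3 : (Finsupp.mapDomain (fun (P : Fin k → R →ₐ[K0] K) i => onS φ1 h (P i)) (-x) :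
        Cyc (surf K0 K A a b) k) = -Finsupp.mapDomain (fun (P : Fin k → R →ₐ[K0] K) i => onS φ1 h (P i)) x :=
      map_neg (Finsupp.mapDomain.addMonoidHom
        (fun (P : Fin k → R →ₐ[K0] K) i => (onS φ1 h (P i) : SP K0 A K a b)) :
          ((Fin k → R →ₐ[K0] K) →₀ ℤ) →+ _) x
    rw [h3]
    exact AddSubgroup.neg_mem _ hx

theorem pushS {K : Type} [Field K] [Algebra K0 K] (φ1 : A →ₐ[K0] R) {x1 y1 : R}
    (h : y1 ^ 2 = x1 ^ 3 - 3 * φ1 a * x1 - 2 * φ1 b)
    (hgen : Subring.closure (Set.range φ1 ∪ {x1, y1}) = ⊤) {k : ℕ} {z : Cyc (pts K0 K R) k}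
    (hz : z ∈ tor (RatEq (pts K0 K R) k)) :
    (Finsupp.mapDomain (fun (P : Fin k → R →ₐ[K0] K) i => onS φ1 h (P i)) z : Cyc (surf K0 K A a b) k) ∈
      tor (RatEq (surf K0 K A a b) k) := by
  obtain ⟨N, hN, h1⟩ := hz
  refine ⟨N, hN, ?_⟩
  have h2 := ratEq_onS (a := a) (b := b) φ1 h hgen h1
  have h3 : (Finsupp.mapDomain (fun (P : Fin k → R →ₐ[K0] K) i => onS φ1 h (P i)) (N • z) :
      Cyc (surf K0 K A a b) k) = N • Finsupp.mapDomain (fun (P : Fin k → R →ₐ[K0] K) i => onS φ1 h (P i)) z :=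
    map_nsmul (Finsupp.mapDomain.addMonoidHom
      (fun (P : Fin k → R →ₐ[K0] K) i => (onS φ1 h (P i) : SP K0 A K a b)) :
        ((Fin k → R →ₐ[K0] K) →₀ ℤ) →+ _) N z
  rw [h3] at h2
  exact h2

end H77.AF
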