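import Mathlib

/-! # AF.RSd (MATHLIB only, about 150 lines): the ring of regular functions on the affine surface `y^2 = x^3 - 3 a x - 2 b`

`RS A a b = A[X][Y] / (Y^2 - (X^3 - 3 a X - 2 b))` (`A[X][X]`: inner variable `x`, outer variable `y`).
`rs_dom`: `f = wp a b` is monic of degree 2; let `L = FractionRing A[X]`; `f` mapped to `L` has no root: a root `r / s` gives `r^2 = (X^3 - 3 a X - 2 b) s^2` in `A[X]`, `natDegree`: `2 deg r = 3 + 2 deg s`, impossible.  So it is irreducible
over the field `L` (`Polynomial.Monic.irreducible_iff_roots_eq_zero_of_degree_le_three` or `Polynomial.irreducible_of_degree_le_three_of_not_isRoot`-type lemma), `AdjoinRoot (f.map _)` is a field, and `AdjoinRoot f → AdjoinRoot (f.map _)` is injective: an element `p + q Y` (representative of degree `< 2`: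
`AdjoinRoot.mk_surjective`, `Polynomial.modByMonic`) maps to a representative of degree `< 2`, zero iff `p = q = 0` (`AdjoinRoot.mk_eq_zero`, degrees).
`rs_ft`: `Algebra.FiniteType.polynomial`-instances and `Algebra.FiniteType.of_surjective`, `Algebra.FiniteType.trans`.
`rs_int`: `y` is integral over `A[X]` (`AdjoinRoot` of a monic polynomial is integral), every element of `A` is integral over `K0[T]`, so the elements of `RS` are integral over `K0[T, X]`: the integral elements form a subalgebra (`integralClosure`), which contains the images of `A`, `X` and `y`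
(map integrality over `adjoin K0 {T} ⊆ A` along `A → RS`). -/

namespace H77.AF

open Polynomial

/-- the Weierstrass polynomial -/
noncomputable def wp {A : Type} [CommRing A] (a b : A) : A[X][X] := X ^ 2 - C (X ^ 3 - C (3 * a) * X - C (2 * b))

/-- regular functions on `S` -/
abbrev RS (A : Type) [CommRing A] (a b : A) : Type := AdjoinRoot (wp a b)

theorem wp_monic {A : Type} [CommRing A] [Nontrivial A] (a b : A) : (wp a b).Monic :=
  monic_X_pow_sub_C _ two_ne_zero

private theorem rsd_wp_eq {A : Type} [CommRing A] (a b : A) :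
    wp a b = WeierstrassCurve.Affine.polynomial (⟨0, 0, 0, -(3 * a), -(2 * b)⟩ : WeierstrassCurve A) := by
  unfold wp WeierstrassCurve.Affine.polynomial
  simp only [map_zero, map_neg, zero_mul, add_zero]
  congr 2
  ring

theorem rs_dom {A : Type} [CommRing A] [IsDomain A] (a b : A) : IsDomain (RS A a b) := by
  have h : IsDomain (AdjoinRoot (WeierstrassCurve.Affine.polynomial
    (⟨0, 0, 0, -(3 * a), -(2 * b)⟩ : WeierstrassCurve A))) :=
    inferInstanceAs (IsDomain (WeierstrassCurve.Affine.CoordinateRing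
      (⟨0, 0, 0, -(3 * a), -(2 * b)⟩ : WeierstrassCurve A)))
  rw [← rsd_wp_eq] at h
  exact h

theorem rs_ft {K0 A : Type} [Field K0] [CommRing A] [Algebra K0 A] [Algebra.FiniteType K0 A] (a b : A) :
    Algebra.FiniteType K0 (RS A a b) := by
  have h1 : Algebra.FiniteType K0 A[X] := Algebra.FiniteType.trans (S := A) inferInstance inferInstance
  have h2 : Algebra.FiniteType A[X] (RS A a b) := inferInstance
  exact Algebra.FiniteType.trans h1 h2

/-- elements are `p + q y` -/
private theorem rsd_gen {A : Type} [CommRing A] [Nontrivial A] (a b : A) (r : RS A a b) :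
    ∃ p q : A[X], r = AdjoinRoot.of (wp a b) p + AdjoinRoot.of (wp a b) q * AdjoinRoot.root (wp a b) := by
  obtain ⟨g, rfl⟩ := AdjoinRoot.mk_surjective r
  have hm := wp_monic a b
  have hd : (wp a b).natDegree = 2 := natDegree_X_pow_sub_C
  have h1 : (g %ₘ wp a b).natDegree ≤ 1 := by
    have h2 := natDegree_modByMonic_lt g hm (by
      intro h3
      rw [h3, natDegree_one] at hd
      omega)
    omega
  obtain ⟨q, p, hqp⟩ := exists_eq_X_add_C_of_natDegree_le_one h1
  refine ⟨p, q, ?_⟩
  have h4 : AdjoinRoot.mk (wp a b) g = AdjoinRoot.mk (wp a b) (g %ₘ wp a b) := by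
    conv_lhs => rw [← modByMonic_add_div g (wp a b)]
    rw [map_add, map_mul, AdjoinRoot.mk_self, zero_mul, add_zero]
  rw [h4, hqp, map_add, map_mul, AdjoinRoot.mk_C, AdjoinRoot.mk_C, AdjoinRoot.mk_X, add_comm]

private theorem rsd_coe {K0 A : Type} [Field K0] [CommRing A] [Algebra K0 A] (a b : A) {T : A}
    (hT : ∀ r : A, IsIntegral (Algebra.adjoin K0 ({T} : Set A)) r) (c : A) :
    IsIntegral (Algebra.adjoin K0
      ({AdjoinRoot.of (wp a b) (C T), AdjoinRoot.of (wp a b) X} : Set (RS A a b))) (AdjoinRoot.of (wp a b) (C c)) := by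
  let ι : A →ₐ[K0] RS A a b :=
    { (AdjoinRoot.of (wp a b)).comp C with
      commutes' := fun r => rfl }
  set S := Algebra.adjoin K0 ({AdjoinRoot.of (wp a b) (C T), AdjoinRoot.of (wp a b) X} : Set (RS A a b)) with hS
  have hle : Algebra.adjoin K0 ({T} : Set A) ≤ S.comap ι := by
    refine Algebra.adjoin_le ?_
    rintro x rfl
    exact Algebra.subset_adjoin (Or.inl rfl)
  let φ : Algebra.adjoin K0 ({T} : Set A) →ₐ[K0] S :=
    (ι.comp (Subalgebra.val _)).codRestrict S (fun x => hle x.2)
  exact (hT c).map_of_comp_eq φ.toRingHom ι.toRingHom (RingHom.ext fun x => rfl)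

private theorem rsd_pol {K0 A : Type} [Field K0] [CommRing A] [Algebra K0 A] (a b : A) {T : A}
    (hT : ∀ r : A, IsIntegral (Algebra.adjoin K0 ({T} : Set A)) r) (p : A[X]) :
    IsIntegral (Algebra.adjoin K0
      ({AdjoinRoot.of (wp a b) (C T), AdjoinRoot.of (wp a b) X} : Set (RS A a b))) (AdjoinRoot.of (wp a b) p) := by
  set S := Algebra.adjoin K0 ({AdjoinRoot.of (wp a b) (C T), AdjoinRoot.of (wp a b) X} : Set (RS A a b)) with hS
  have hX : IsIntegral S (AdjoinRoot.of (wp a b) X) := by
    have h1 : AdjoinRoot.of (wp a b) X ∈ S := Algebra.subset_adjoin (Or.inr rfl)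
    exact isIntegral_algebraMap (A := RS A a b) (x := (⟨_, h1⟩ : S))
  induction p using Polynomial.induction_on' with
  | add p q hp hq =>
    rw [map_add]
    exact hp.add hq
  | monomial n c =>
    rw [← C_mul_X_pow_eq_monomial, map_mul, map_pow]
    exact (rsd_coe a b hT c).mul (hX.pow n)

theorem rs_int {K0 A : Type} [Field K0] [CommRing A] [Nontrivial A] [Algebra K0 A] (a b : A) {T : A}
    (hT : ∀ r : A, IsIntegral (Algebra.adjoin K0 ({T} : Set A)) r) (r : RS A a b) :
    IsIntegral (Algebra.adjoin K0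
      ({AdjoinRoot.of (wp a b) (C T), AdjoinRoot.of (wp a b) X} : Set (RS A a b))) r := by
  obtain ⟨p, q, rfl⟩ := rsd_gen a b r
  have hroot : IsIntegral (Algebra.adjoin K0
      ({AdjoinRoot.of (wp a b) (C T), AdjoinRoot.of (wp a b) X} : Set (RS A a b))) (AdjoinRoot.root (wp a b)) := by
    refine IsIntegral.of_pow (n := 2) two_pos ?_
    have key : ∀ g : A[X], wp a b = X ^ 2 - C g → AdjoinRoot.root (wp a b) ^ 2 = AdjoinRoot.of (wp a b) g := by
      intro g hg
      have h2 : AdjoinRoot.mk (wp a b) (X ^ 2 - C g) = 0 := by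
        rw [← hg]
        exact AdjoinRoot.mk_self
      rw [map_sub, map_pow, AdjoinRoot.mk_X, AdjoinRoot.mk_C] at h2
      exact sub_eq_zero.mp h2
    rw [key _ rfl]
    exact rsd_pol a b hT _
  exact (rsd_pol a b hT p).add ((rsd_pol a b hT q).mul hroot)

/-- elements are `p + q y` -/
theorem rs_gen {A : Type} [CommRing A] [Nontrivial A] (a b : A) (r : RS A a b) :
    ∃ p q : A[X], r = AdjoinRoot.of (wp a b) p + AdjoinRoot.of (wp a b) q * AdjoinRoot.root (wp a b) :=
  rsd_gen a b r

end H77.AF
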