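import Pool.Agent.H77.AF.Surf
import Pool.Agent.H67.KH.Roots

/-! # AF.SqS (about 130 lines): `2 (P, P)` is rationally equivalent to zero on `S × S`

`P = (φ, x0, y0)`, `A' = φ(a)`, `B' = φ(b)`, `f(X) = X^3 - 3 A' X - 2 B'`.  All points of the family lie over the constant point `φ` of the base.
Case `y0 = 0`: `ξ = x0 - 1 + tt⁻¹`, `η^2 = f(ξ)`; multiset of the two pairs `((ξ, η), (ξ, -η))`, `((ξ, -η), (ξ, η))`, Galois stable (`σ ξ = ξ`, `σ η = ± η`).  At `tt ↦ 1`: `ξ` reduces to `x0`, `η` to a square root of `f(x0) = 0`, i.e. `0`: both pairs specialise to `(P, P)`.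
At `tt ↦ 0`: `ξ ∉ V`, all tuples are off.  So `2 • single ![P, P] 1 ∈ RatEq`.
Case `y0 ≠ 0`: `m0 = (3 x0^2 - 3 A') / (2 y0)`, `x1 = m0^2 - 2 x0`, `y1 = m0 (x1 - x0) + y0` (third point of the tangent line): `f(X) - (m0 (X - x1) + y1)^2 = (X - x1)(X - x0)^2`, `y1^2 = f(x1)`.  `μ = m0 - 1 + tt⁻¹`, the line `y = μ (x - x1) + y1`:
`f(X) - (μ (X - x1) + y1)^2 = (X - x1) q(X)`, `q(X) = X^2 + (x1 - μ^2) X + (x1^2 - 3 A' + μ^2 x1 - 2 μ y1)`.  Let `x', x''` be the roots of `q` in `Om K` (`x'' = μ^2 - x1 - x'`), `y' = μ (x' - x1) + y1`, `y'' = μ (x'' - x1) + y1`, `P' = (φ, x', y')`, `P'' = (φ, x'', y'')` (points of `S`).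
Multiset of the pairs `(P', P'')`, `(P'', P')`, Galois stable (`σ μ = μ`, `σ` permutes `x', x''`).  At `tt ↦ 1`: `μ` reduces to `m0`, `q` to `(X - x0)^2`; `x', x''` are integral (roots of a monic integral polynomial, `H67.KH.mem_of_root`) and reduce to `x0`, and `y', y''` to `y0`.
At `tt ↦ 0`: `μ ∉ V`, so `x' + x'' = μ^2 - x1 ∉ V` and one of `x'`, `x''` is not in `V`: both pairs are off. -/

namespace H77.AF

open H68.BB

private theorem two_mem {K : Type} [Field K] {D : PD K} {P : D.X} {Q1 Q2 : D.Y}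
    (hG : ∀ σ : Om K ≃ₐ[RatFunc K] Om K, (D.act σ Q1 = Q1 ∧ D.act σ Q2 = Q2) ∨ (D.act σ Q1 = Q2 ∧ D.act σ Q2 = Q1))
    {π1 π0 : Place K (Om K)} (h1 : D.sp π1 Q1 P) (h2 : D.sp π1 Q2 P) (h0 : D.off π0 Q1 ∨ D.off π0 Q2) :
    2 • (Finsupp.single ![P, P] 1 : Cyc D 2) ∈ RatEq D 2 := by
  apply AddSubgroup.subset_closure
  refine ⟨{![Q1, Q2], ![Q2, Q1]}, π1, π0, {![P, P], ![P, P]}, 0, ?_, ?_, ?_, ?_⟩
  · intro σ
    have e : ∀ A B : D.Y, (fun i => D.act σ ((![A, B] : Fin 2 → D.Y) i)) = ![D.act σ A, D.act σ B] := by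
      intro A B
      funext i
      fin_cases i <;> rfl
    rw [Multiset.insert_eq_cons, Multiset.map_cons, Multiset.map_singleton, e, e]
    rcases hG σ with ⟨e1, e2⟩ | ⟨e1, e2⟩
    · rw [e1, e2]
    · rw [e1, e2]
      exact Multiset.cons_swap _ _ _
  · refine ⟨{![Q1, Q2], ![Q2, Q1]}, 0, (add_zero _).symm, ?_, fun P hP => absurd hP (Multiset.notMem_zero _)⟩
    rw [Multiset.insert_eq_cons, Multiset.insert_eq_cons]
    refine Multiset.Rel.cons ?_ (Multiset.Rel.cons ?_ Multiset.Rel.zero)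
    · intro i
      fin_cases i
      · exact h1
      · exact h2
    · intro i
      fin_cases i
      · exact h2
      · exact h1
  · refine ⟨0, {![Q1, Q2], ![Q2, Q1]}, (zero_add _).symm, Multiset.Rel.zero, ?_⟩
    intro R hR
    rw [Multiset.insert_eq_cons, Multiset.mem_cons, Multiset.mem_singleton] at hR
    rcases hR with rfl | rfl
    · rcases h0 with h | h
      · exact ⟨0, h⟩
      · exact ⟨1, h⟩
    · rcases h0 with h | h
      · exact ⟨1, h⟩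
      · exact ⟨0, h⟩
  · rw [cyc, cyc, Multiset.insert_eq_cons, Multiset.map_cons, Multiset.map_singleton, Multiset.sum_cons,
      Multiset.sum_singleton, Multiset.map_zero, Multiset.sum_zero, sub_zero, two_nsmul]

section

variable {K : Type} [Field K]

/-- a square root of an element which reduces to zero reduces to zero -/
private theorem sqrt_rd {π : Place K (Om K)} {d : Om K} (h : Rd π.V π.φ (d ^ 2) 0) : Rd π.V π.φ d 0 := by
  have hd : d ∈ π.V := by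
    rcases π.V.mem_or_inv_mem d with h1 | h1
    · exact h1
    · by_cases h0 : d = 0
      · rw [h0]; exact π.V.zero_mem
      · have : d = d ^ 2 * d⁻¹ := by field_simp
        rw [this]
        exact π.V.mul_mem _ _ h.mem h1
  have h1 := Rd.of_mem (φ := π.φ) hd
  have h2 := (h1.pow 2).unique h
  have h3 := pow_eq_zero_iff (two_ne_zero) |>.1 h2
  rw [h3] at h1
  exact h1

private theorem tt0 (K : Type) [Field K] : tt K ≠ 0 := by
  have h := tt_ne K 0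
  rw [cst, map_zero] at h
  exact h

private theorem rd_inv_tt {π : Place K (Om K)} (h : Rd π.V π.φ (tt K) 1) (c : K) :
    Rd π.V π.φ (algebraMap K (Om K) c - 1 + (tt K)⁻¹) c := by
  have := π.isLocal
  have h1 := h.inv one_ne_zero
  rw [inv_one] at h1
  have h2 := ((H67.KH.rd_cst π c).sub Rd.one).add h1
  rw [sub_add_cancel] at h2
  exact h2

private theorem not_mem_tt {π : Place K (Om K)} (h : Rd π.V π.φ (tt K) 0) (c : K) :
    algebraMap K (Om K) c - 1 + (tt K)⁻¹ ∉ π.V := by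
  intro h1
  have h2 : (tt K)⁻¹ ∈ π.V := by
    have h3 := sub_mem h1 (sub_mem (H67.KH.rd_cst π c).mem π.V.one_mem)
    rw [add_sub_cancel_left] at h3
    exact h3
  have h3 := h.mul (Rd.of_mem (φ := π.φ) h2)
  rw [mul_inv_cancel₀ (tt0 K), zero_mul] at h3
  exact one_ne_zero (Rd.one.unique h3)

private theorem sig_par (σ : Om K ≃ₐ[RatFunc K] Om K) (c : K) :
    σ (algebraMap K (Om K) c - 1 + (tt K)⁻¹) = algebraMap K (Om K) c - 1 + (tt K)⁻¹ := by
  rw [map_add, map_sub, map_inv₀, map_one, H67.KH.sigma_cst, H67.KH.sigma_tt]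

end

theorem sqS {K0 K A : Type} [Field K0] [Field K] [IsAlgClosed K] [CharZero K] [Algebra K0 K] [CommRing A]
    [Algebra K0 A] {a b : A} (P : SP K0 A K a b) :
    2 • (Finsupp.single ![P, P] 1 : Cyc (surf K0 K A a b) 2) ∈ RatEq (surf K0 K A a b) 2 := by
  obtain ⟨π1, hm1, hv1⟩ := place_exists K 1
  obtain ⟨π0, hm0, hv0⟩ := place_exists K 0
  have ht1 : Rd π1.V π1.φ (tt K) 1 := ⟨hm1, hv1⟩
  have ht0 : Rd π0.V π0.φ (tt K) 0 := ⟨hm0, hv0⟩
  have hC : CharZero (Om K) := charZero_of_injective_algebraMap (algebraMap K (Om K)).injective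
  -- points over the constant point of the base
  let Φ : A →ₐ[K0] Om K := (IsScalarTower.toAlgHom K0 K (Om K)).comp P.φ
  let c : K → Om K := fun z => algebraMap K (Om K) z
  have hΦ : ∀ r, Φ r = c (P.φ r) := fun r => rfl
  let mk : ∀ x y : Om K, y ^ 2 = x ^ 3 - 3 * c (P.φ a) * x - 2 * c (P.φ b) → SP K0 A (Om K) a b :=
    fun x y h => ⟨Φ, x, y, h⟩
  have hact : ∀ (σ : Om K ≃ₐ[RatFunc K] Om K) (x y x' y' : Om K) (h : y ^ 2 = x ^ 3 - 3 * c (P.φ a) * x - 2 * c (P.φ b))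
      (h' : y' ^ 2 = x' ^ 3 - 3 * c (P.φ a) * x' - 2 * c (P.φ b)), σ x = x' → σ y = y' →
      (surf K0 K A a b).act σ (mk x y h) = mk x' y' h' := by
    intro σ x y x' y' h h' hx hy
    refine SP.ext ?_ hx hy
    ext r
    exact H67.KH.sigma_cst σ (P.φ r)
  have hsp : ∀ (π : Place K (Om K)) (x y : Om K) (h : y ^ 2 = x ^ 3 - 3 * c (P.φ a) * x - 2 * c (P.φ b)),
      Rd π.V π.φ x P.x → Rd π.V π.φ y P.y → (surf K0 K A a b).sp π (mk x y h) P := by
    intro π x y h hx hy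
    exact ⟨fun r => π.const (P.φ r), hx, hy⟩
  have hoff : ∀ (π : Place K (Om K)) (x y : Om K) (h : y ^ 2 = x ^ 3 - 3 * c (P.φ a) * x - 2 * c (P.φ b)),
      x ∉ π.V → (surf K0 K A a b).off π (mk x y h) := by
    intro π x y h hx
    exact Or.inr (Or.inl hx)
  have heq := P.eq
  by_cases hy0 : P.y = 0
  · -- vertical family
    obtain ⟨ξ, hξ⟩ : ∃ ξ : Om K, ξ = algebraMap K (Om K) P.x - 1 + (tt K)⁻¹ := ⟨_, rfl⟩
    obtain ⟨η, hη⟩ := IsAlgClosed.exists_pow_nat_eq (ξ ^ 3 - 3 * c (P.φ a) * ξ - 2 * c (P.φ b)) (n := 2) two_pos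
    have hη' : (-η) ^ 2 = ξ ^ 3 - 3 * c (P.φ a) * ξ - 2 * c (P.φ b) := by rw [neg_sq, hη]
    have hξ1 : Rd π1.V π1.φ ξ P.x := by rw [hξ]; exact rd_inv_tt ht1 P.x
    have hη1 : Rd π1.V π1.φ η 0 := by
      apply sqrt_rd
      rw [hη]
      have h := ((hξ1.pow 3).sub ((Rd.three.mul (H67.KH.rd_cst π1 (P.φ a))).mul hξ1)).sub
        (Rd.two.mul (H67.KH.rd_cst π1 (P.φ b)))
      rw [← heq, hy0] at h
      simpa using h
    refine two_mem (Q1 := mk ξ η hη) (Q2 := mk ξ (-η) hη') (π1 := π1) (π0 := π0) ?_ ?_ ?_ ?_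
    · intro σ
      have hσξ : σ ξ = ξ := by rw [hξ]; exact sig_par σ P.x
      have hσc : ∀ z, σ (c z) = c z := fun z => H67.KH.sigma_cst σ z
      have h1 : (σ η) ^ 2 = η ^ 2 := by
        rw [← map_pow, hη]
        simp only [map_sub, map_mul, map_pow, map_ofNat, hσξ, hσc]
      rcases sq_eq_sq_iff_eq_or_eq_neg.1 h1 with h2 | h2
      · left
        exact ⟨hact σ _ _ _ _ hη hη hσξ h2, hact σ _ _ _ _ hη' hη' hσξ (by rw [map_neg, h2])⟩
      · right
        exact ⟨hact σ _ _ _ _ hη hη' hσξ h2, hact σ _ _ _ _ hη' hη hσξ (by rw [map_neg, h2, neg_neg])⟩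
    · exact hsp π1 _ _ hη hξ1 (by rw [hy0]; exact hη1)
    · exact hsp π1 _ _ hη' hξ1 (by
        rw [hy0]
        have := hη1.neg
        rw [neg_zero] at this
        exact this)
    · left
      exact hoff π0 _ _ hη (by rw [hξ]; exact not_mem_tt ht0 P.x)
  · -- the tangent line
    have h2 : (2 : K) ≠ 0 := two_ne_zero
    obtain ⟨m0, hm0'⟩ : ∃ m0 : K, 2 * P.y * m0 = 3 * P.x ^ 2 - 3 * P.φ a :=
      ⟨(3 * P.x ^ 2 - 3 * P.φ a) / (2 * P.y), mul_div_cancel₀ _ (mul_ne_zero h2 hy0)⟩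
    obtain ⟨x1, hx1⟩ : ∃ x1 : K, x1 = m0 ^ 2 - 2 * P.x := ⟨_, rfl⟩
    obtain ⟨y1, hy1⟩ : ∃ y1 : K, y1 = m0 * (x1 - P.x) + P.y := ⟨_, rfl⟩
    have hq1 : x1 ^ 2 - 3 * P.φ a + m0 ^ 2 * x1 - 2 * m0 * y1 = P.x ^ 2 := by
      rw [hy1, hx1]
      linear_combination -hm0'
    have he1 : y1 ^ 2 = x1 ^ 3 - 3 * P.φ a * x1 - 2 * P.φ b := by
      rw [hy1, hx1]
      linear_combination heq + (m0 ^ 2 - 3 * P.x) * hm0'
    have he1' : (c y1) ^ 2 = (c x1) ^ 3 - 3 * c (P.φ a) * c x1 - 2 * c (P.φ b) := by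
      change (algebraMap K (Om K) y1) ^ 2 = (algebraMap K (Om K) x1) ^ 3 - 3 * algebraMap K (Om K) (P.φ a) *
        algebraMap K (Om K) x1 - 2 * algebraMap K (Om K) (P.φ b)
      rw [← map_pow, he1]
      simp only [map_sub, map_mul, map_pow, map_ofNat]
    obtain ⟨μ, hμ⟩ : ∃ μ : Om K, μ = algebraMap K (Om K) m0 - 1 + (tt K)⁻¹ := ⟨_, rfl⟩
    obtain ⟨δ, hδ⟩ := IsAlgClosed.exists_pow_nat_eq ((c x1 - μ ^ 2) ^ 2 -
      4 * (c x1 ^ 2 - 3 * c (P.φ a) + μ ^ 2 * c x1 - 2 * μ * c y1)) (n := 2) two_pos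
    have h2' : (2 : Om K) ≠ 0 := two_ne_zero
    have key : ∀ ε : Om K, ε ^ 2 = δ ^ 2 →
        (μ * ((μ ^ 2 - c x1 + ε) / 2 - c x1) + c y1) ^ 2 = ((μ ^ 2 - c x1 + ε) / 2) ^ 3 -
          3 * c (P.φ a) * ((μ ^ 2 - c x1 + ε) / 2) - 2 * c (P.φ b) := by
      intro ε hε
      obtain ⟨z, hz⟩ : ∃ z : Om K, 2 * z = μ ^ 2 - c x1 + ε := ⟨(μ ^ 2 - c x1 + ε) / 2, mul_div_cancel₀ _ h2'⟩
      have hz' : (μ ^ 2 - c x1 + ε) / 2 = z := by rw [← hz, mul_div_cancel_left₀ _ h2']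
      rw [hz']
      have hqz : z ^ 2 + (c x1 - μ ^ 2) * z + (c x1 ^ 2 - 3 * c (P.φ a) + μ ^ 2 * c x1 - 2 * μ * c y1) = 0 := by
        have h4 : (4 : Om K) * (z ^ 2 + (c x1 - μ ^ 2) * z +
            (c x1 ^ 2 - 3 * c (P.φ a) + μ ^ 2 * c x1 - 2 * μ * c y1)) = 0 := by
          rw [hδ] at hε
          linear_combination (2 * z + (c x1 - μ ^ 2) + ε) * hz + hε
        exact (mul_eq_zero.1 h4).resolve_left (by norm_num)
      linear_combination -(z - c x1) * hqz + he1'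
    have hμ1 : Rd π1.V π1.φ μ m0 := by rw [hμ]; exact rd_inv_tt ht1 m0
    have hcx := H67.KH.rd_cst π1 x1
    have hδ1 : Rd π1.V π1.φ δ 0 := by
      apply sqrt_rd
      rw [hδ]
      have h4 : Rd π1.V π1.φ (4 : Om K) (4 : K) := by
        have := (Rd.two (V := π1.V) (φ := π1.φ)).add Rd.two
        norm_num at this
        exact this
      have h := ((hcx.sub (hμ1.pow 2)).pow 2).sub (h4.mul ((((hcx.pow 2).sub (Rd.three.mul
        (H67.KH.rd_cst π1 (P.φ a)))).add ((hμ1.pow 2).mul hcx)).sub ((Rd.two.mul hμ1).mul (H67.KH.rd_cst π1 y1))))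
      have e : (x1 - m0 ^ 2) ^ 2 - 4 * (x1 ^ 2 - 3 * P.φ a + m0 ^ 2 * x1 - 2 * m0 * y1) = 0 := by
        rw [hq1, hx1]
        ring
      rw [e] at h
      exact h
    have hxr : ∀ ε : Om K, Rd π1.V π1.φ ε 0 → Rd π1.V π1.φ ((μ ^ 2 - c x1 + ε) / 2) P.x := by
      intro ε hε
      have := π1.isLocal
      have h := (((hμ1.pow 2).sub hcx).add hε).div Rd.two h2
      have e : (m0 ^ 2 - x1 + 0) / 2 = P.x := by
        rw [hx1]
        field_simp
        ring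
      rw [e] at h
      exact h
    have hyr : ∀ ε : Om K, Rd π1.V π1.φ ε 0 → Rd π1.V π1.φ (μ * ((μ ^ 2 - c x1 + ε) / 2 - c x1) + c y1) P.y := by
      intro ε hε
      have h := (hμ1.mul ((hxr ε hε).sub hcx)).add (H67.KH.rd_cst π1 y1)
      have e : m0 * (P.x - x1) + y1 = P.y := by rw [hy1]; ring
      rw [e] at h
      exact h
    have k1 := key δ rfl
    have k2 := key (-δ) (neg_sq δ)
    have hδ1' : Rd π1.V π1.φ (-δ) 0 := by
      have := hδ1.neg
      rw [neg_zero] at this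
      exact this
    refine two_mem (Q1 := mk _ _ k1) (Q2 := mk _ _ k2) (π1 := π1) (π0 := π0) ?_
      (hsp π1 _ _ k1 (hxr δ hδ1) (hyr δ hδ1)) (hsp π1 _ _ k2 (hxr _ hδ1') (hyr _ hδ1')) ?_
    · intro σ
      have hσμ : σ μ = μ := by rw [hμ]; exact sig_par σ m0
      have hσc : ∀ z, σ (c z) = c z := fun z => H67.KH.sigma_cst σ z
      have h1 : (σ δ) ^ 2 = δ ^ 2 := by
        rw [← map_pow, hδ]
        simp only [map_sub, map_mul, map_pow, map_add, map_ofNat, hσμ, hσc]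
      have hx : ∀ ε ε' : Om K, σ ε = ε' → σ ((μ ^ 2 - c x1 + ε) / 2) = (μ ^ 2 - c x1 + ε') / 2 := by
        intro ε ε' h
        rw [map_div₀, map_add, map_sub, map_pow, hσμ, hσc, h, map_ofNat]
      have hy : ∀ ε ε' : Om K, σ ε = ε' → σ (μ * ((μ ^ 2 - c x1 + ε) / 2 - c x1) + c y1) =
          μ * ((μ ^ 2 - c x1 + ε') / 2 - c x1) + c y1 := by
        intro ε ε' h
        rw [map_add, map_mul, map_sub, hx ε ε' h, hσμ, hσc, hσc]
      rcases sq_eq_sq_iff_eq_or_eq_neg.1 h1 with h2 | h2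
      · left
        have h3 : σ (-δ) = -δ := by rw [map_neg, h2]
        exact ⟨hact σ _ _ _ _ k1 k1 (hx _ _ h2) (hy _ _ h2), hact σ _ _ _ _ k2 k2 (hx _ _ h3) (hy _ _ h3)⟩
      · right
        have h3 : σ (-δ) = δ := by rw [map_neg, h2, neg_neg]
        exact ⟨hact σ _ _ _ _ k1 k2 (hx _ _ h2) (hy _ _ h2), hact σ _ _ _ _ k2 k1 (hx _ _ h3) (hy _ _ h3)⟩
    · by_contra hno
      rw [not_or] at hno
      have n1 : (μ ^ 2 - c x1 + δ) / 2 ∈ π0.V := by
        by_contra h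
        exact hno.1 (hoff π0 _ _ k1 h)
      have n2 : (μ ^ 2 - c x1 + -δ) / 2 ∈ π0.V := by
        by_contra h
        exact hno.2 (hoff π0 _ _ k2 h)
      have n3 := add_mem (add_mem n1 n2) (H67.KH.rd_cst π0 x1).mem
      have e : (μ ^ 2 - c x1 + δ) / 2 + (μ ^ 2 - c x1 + -δ) / 2 + algebraMap K (Om K) x1 = μ ^ 2 := by
        change (μ ^ 2 - algebraMap K (Om K) x1 + δ) / 2 + (μ ^ 2 - algebraMap K (Om K) x1 + -δ) / 2 +
          algebraMap K (Om K) x1 = μ ^ 2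
        field_simp
        ring
      rw [e] at n3
      have n4 : μ ∈ π0.V := by
        rcases π0.V.mem_or_inv_mem μ with h | h
        · exact h
        · by_cases h0 : μ = 0
          · rw [h0]; exact π0.V.zero_mem
          · have : μ = μ ^ 2 * μ⁻¹ := by field_simp
            rw [this]
            exact π0.V.mul_mem _ _ n3 h
      rw [hμ] at n4
      exact not_mem_tt ht0 m0 n4

end H77.AF
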