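import Pool.Agent.H77.AF.FinA
import Pool.Agent.H77.AF.RSd
import Pool.Agent.H77.AF.SqS
import Pool.Agent.H77.AF.PushS

/-! # AF.FinS : zero-cycles supported on a curve of an affine elliptic surface -/

namespace H77.AF

open H77.SN H68.BB Polynomial

/-- the value of a polynomial `G(x, y)` with coefficients in `A` at a point of `S` -/
noncomputable def SP.val {K0 A F : Type} [Field K0] [CommRing A] [Algebra K0 A] [Field F] [Algebra K0 F] {a b : A}
    (P : SP K0 A F a b) (G : A[X][X]) : F := (G.map (mapRingHom (P.φ : A →+* F))).evalEval P.x P.y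

section
variable {K0 A F : Type} [Field K0] [CommRing A] [Algebra K0 A] [Field F] [Algebra K0 F] {a b : A}

private theorem val_eq (P : SP K0 A F a b) (G : A[X][X]) :
    P.val G = G.eval₂ (eval₂RingHom (P.φ : A →+* F) P.x) P.y := by
  unfold SP.val
  rw [← eval₂_evalRingHom, eval₂_map]
  congr 1
  ext r
  · simp
  · simp

private theorem wp_root (P : SP K0 A F a b) : (wp a b).eval₂ (eval₂RingHom (P.φ : A →+* F) P.x) P.y = 0 := by
  unfold wp
  simp only [eval₂_sub, eval₂_pow, eval₂_X, eval₂_C, coe_eval₂RingHom, eval₂_mul, map_mul, map_ofNat]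
  rw [P.eq]
  simp

/-- the homomorphism of the ring of functions given by a point -/
private noncomputable def toPt (P : SP K0 A F a b) : RS A a b →ₐ[K0] F :=
  { AdjoinRoot.lift (eval₂RingHom (P.φ : A →+* F) P.x) P.y (wp_root P) with
    commutes' := fun c => by
      change AdjoinRoot.lift (eval₂RingHom (P.φ : A →+* F) P.x) P.y (wp_root P)
        (AdjoinRoot.of (wp a b) (C (algebraMap K0 A c))) = _
      rw [AdjoinRoot.lift_of, coe_eval₂RingHom, eval₂_C]
      exact P.φ.commutes c }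

private theorem toPt_mk (P : SP K0 A F a b) (G : A[X][X]) : toPt P (AdjoinRoot.mk (wp a b) G) = P.val G := by
  rw [val_eq]
  exact AdjoinRoot.lift_mk (wp_root P) G

private theorem toPt_of (P : SP K0 A F a b) (p : A[X]) :
    toPt P (AdjoinRoot.of (wp a b) p) = p.eval₂ (P.φ : A →+* F) P.x :=
  AdjoinRoot.lift_of (wp_root P)

private theorem toPt_root (P : SP K0 A F a b) : toPt P (AdjoinRoot.root (wp a b)) = P.y :=
  AdjoinRoot.lift_root (wp_root P)

private theorem toPt_inj : Function.Injective (toPt : SP K0 A F a b → (RS A a b →ₐ[K0] F)) := by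
  intro P Q h
  refine SP.ext ?_ ?_ ?_
  · apply AlgHom.ext
    intro r
    have h1 := congrArg (fun f : RS A a b →ₐ[K0] F => f (AdjoinRoot.of (wp a b) (C r))) h
    simp only [toPt_of, eval₂_C] at h1
    exact h1
  · have h1 := congrArg (fun f : RS A a b →ₐ[K0] F => f (AdjoinRoot.of (wp a b) X)) h
    simp only [toPt_of, eval₂_X] at h1
    exact h1
  · have h1 := congrArg (fun f : RS A a b →ₐ[K0] F => f (AdjoinRoot.root (wp a b))) h
    simp only [toPt_root] at h1
    exact h1

end

/-- the algebra `RS / p` with its coordinates -/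
private noncomputable def cφ {K0 A : Type} [Field K0] [CommRing A] [Algebra K0 A] {a b : A} (p : Ideal (RS A a b)) :
    A →ₐ[K0] RS A a b ⧸ p :=
  { (Ideal.Quotient.mk p).comp ((AdjoinRoot.of (wp a b)).comp C) with
    commutes' := fun _ => rfl }

private theorem c_eq {K0 A : Type} [Field K0] [CommRing A] [Algebra K0 A] {a b : A} (p : Ideal (RS A a b)) :
    (Ideal.Quotient.mk p (AdjoinRoot.root (wp a b))) ^ 2 =
      (Ideal.Quotient.mk p (AdjoinRoot.of (wp a b) X)) ^ 3 -
        3 * (cφ (K0 := K0) p a) * (Ideal.Quotient.mk p (AdjoinRoot.of (wp a b) X)) - 2 * (cφ (K0 := K0) p b) := by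
  have h1 : AdjoinRoot.mk (wp a b) (X ^ 2 - C (X ^ 3 - C (3 * a) * X - C (2 * b))) = 0 := AdjoinRoot.mk_self
  have h2 : (AdjoinRoot.root (wp a b)) ^ 2 = (AdjoinRoot.of (wp a b) X) ^ 3 -
      3 * (AdjoinRoot.of (wp a b) (C a)) * (AdjoinRoot.of (wp a b) X) - 2 * AdjoinRoot.of (wp a b) (C b) := by
    rw [map_sub, map_pow, AdjoinRoot.mk_X, AdjoinRoot.mk_C, sub_eq_zero] at h1
    rw [h1]
    simp only [map_sub, map_pow, map_mul, map_ofNat]
  have h3 := congrArg (Ideal.Quotient.mk p) h2
  simp only [map_sub, map_pow, map_mul, map_ofNat] at h3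
  exact h3

private theorem c_gen {K0 A : Type} [Field K0] [CommRing A] [Nontrivial A] [Algebra K0 A] {a b : A}
    (p : Ideal (RS A a b)) :
    Subring.closure (Set.range (cφ (K0 := K0) p) ∪ {Ideal.Quotient.mk p (AdjoinRoot.of (wp a b) X),
      Ideal.Quotient.mk p (AdjoinRoot.root (wp a b))}) = ⊤ := by
  rw [eq_top_iff]
  intro r _
  obtain ⟨r, rfl⟩ := Ideal.Quotient.mk_surjective r
  obtain ⟨u, v, rfl⟩ := rs_gen a b r
  set H := Subring.closure (Set.range (cφ (K0 := K0) p) ∪ {Ideal.Quotient.mk p (AdjoinRoot.of (wp a b) X),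
      Ideal.Quotient.mk p (AdjoinRoot.root (wp a b))}) with hH
  have hX : Ideal.Quotient.mk p (AdjoinRoot.of (wp a b) X) ∈ H :=
    Subring.subset_closure (Or.inr (Or.inl rfl))
  have hY : Ideal.Quotient.mk p (AdjoinRoot.root (wp a b)) ∈ H :=
    Subring.subset_closure (Or.inr (Or.inr rfl))
  have hA : ∀ c : A, Ideal.Quotient.mk p (AdjoinRoot.of (wp a b) (C c)) ∈ H := fun c =>
    Subring.subset_closure (Or.inl ⟨c, rfl⟩)
  have hp : ∀ u : A[X], Ideal.Quotient.mk p (AdjoinRoot.of (wp a b) u) ∈ H := by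
    intro u
    induction u using Polynomial.induction_on' with
    | add u v hu hv => rw [map_add, map_add]; exact H.add_mem hu hv
    | monomial n c =>
      rw [← C_mul_X_pow_eq_monomial, map_mul, map_mul, map_pow, map_pow]
      exact H.mul_mem (hA c) (H.pow_mem hX n)
  rw [map_add, map_mul]
  exact H.add_mem (hp u) (H.mul_mem (hp v) hY)

private theorem map_up' {K : Type} [Field K] {D D' : PD K} (f : D'.X → D.X) {m c : ℕ} (P : Fin m → D'.X)
    (Q : Fin c → D'.X) :
    Finsupp.mapDomain (fun (P : Fin 1 → D'.X) i => f (P i))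
      (up ((∑ i, Finsupp.single (P i) 1) + ∑ l, Finsupp.single (Q l) 1)) =
    up ((∑ i, Finsupp.single (f (P i)) 1) + ∑ l, Finsupp.single (f (Q l)) 1) := by
  have hup : ∀ (E : PD K) (x : E.X), up (Finsupp.single x 1) = Finsupp.single (fun _ => x) 1 :=
    fun _ x => Finsupp.mapDomain_single
  have h1 : ∀ z : Cyc D' 1, Finsupp.mapDomain (fun (P : Fin 1 → D'.X) i => f (P i)) z =
      Finsupp.mapDomain.addMonoidHom (fun (P : Fin 1 → D'.X) i => f (P i)) z := fun _ => rfl
  rw [h1]
  simp only [map_add, map_sum, hup]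
  congr 1
  · exact Finset.sum_congr rfl fun i _ => Finsupp.mapDomain_single
  · exact Finset.sum_congr rfl fun i _ => Finsupp.mapDomain_single

/-- one component of the curve -/
private theorem comp_relS {K0 A : Type} [Field K0] [IsAlgClosed K0] [CharZero K0] [CommRing A] [IsDomain A]
    [Algebra K0 A] [Algebra.FiniteType K0 A] {a b : A} (p : Ideal (RS A a b)) [p.IsPrime]
    (hp : (∀ r : RS A a b ⧸ p, ∃ c : K0, r = algebraMap K0 (RS A a b ⧸ p) c) ∨
      ∃ U : RS A a b ⧸ p, Transcendental K0 U ∧ Alg1 K0 U) :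
    ∃ m : ℕ, ∀ (K : Type) [Field K] [IsAlgClosed K] [Algebra K0 K] (P : Fin m → SP K0 A K a b), Function.Injective P →
      (∀ i, ∀ r ∈ p, toPt (P i) r = 0) → ∃ (c : ℕ) (Q : Fin c → SP K0 A K a b), c < m ∧
        up (D := surf K0 K A a b) ((∑ i, Finsupp.single (P i) 1) + ∑ l, Finsupp.single (Q l) 1) ∈
          tor (RatEq (surf K0 K A a b) 1) := by
  have hft := rs_ft (K0 := K0) a b
  rcases hp with hp | ⟨U, hU, hA⟩
  · refine ⟨2, fun K _ _ _ P hP hPp => ?_⟩
    exfalso
    have h1 : toPt (P 0) = toPt (P 1) := by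
      apply AlgHom.ext
      intro r
      obtain ⟨c, hc⟩ := hp (Ideal.Quotient.mk p r)
      have h2 : r - algebraMap K0 (RS A a b) c ∈ p := by
        rw [← Ideal.Quotient.eq]
        exact hc
      have h3 : ∀ i, toPt (P i) r = algebraMap K0 K c := by
        intro i
        have h4 := hPp i _ h2
        rw [map_sub, AlgHom.commutes, sub_eq_zero] at h4
        exact h4
      rw [h3, h3]
    exact absurd (hP (toPt_inj h1)) (by decide)
  · have : Algebra.FiniteType K0 (RS A a b ⧸ p) :=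
      Algebra.FiniteType.of_surjective (Ideal.Quotient.mkₐ K0 p) (Ideal.Quotient.mkₐ_surjective K0 p)
    obtain ⟨C, hC⟩ := relA K0 (RS A a b ⧸ p) hU hA
    obtain ⟨m, hm, h⟩ := hC (C + 1)
    refine ⟨m, fun K _ _ _ P hP hPp => ?_⟩
    let P' : Fin m → RS A a b ⧸ p →ₐ[K0] K := fun i => Ideal.Quotient.liftₐ p (toPt (P i)) (hPp i)
    have hP'' : ∀ i, (P' i).comp (Ideal.Quotient.mkₐ K0 p) = toPt (P i) := fun i => by
      apply AlgHom.ext
      intro r
      rfl
    have hP' : ∀ i, onS (cφ (K0 := K0) p) (c_eq p) (P' i) = P i := by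
      intro i
      refine SP.ext ?_ ?_ ?_
      · apply AlgHom.ext
        intro r
        change toPt (P i) (AdjoinRoot.of (wp a b) (Polynomial.C r)) = _
        rw [toPt_of, eval₂_C]
        rfl
      · change toPt (P i) (AdjoinRoot.of (wp a b) X) = _
        rw [toPt_of, eval₂_X]
      · change toPt (P i) (AdjoinRoot.root (wp a b)) = _
        rw [toPt_root]
    obtain ⟨c, Q, hc, h1⟩ := h K P' (fun i j hij => hP (by rw [← hP' i, ← hP' j, hij]))
    refine ⟨c, fun l => onS (cφ (K0 := K0) p) (c_eq p) (Q l), by omega, ?_⟩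
    have h2 := pushS (cφ (K0 := K0) p) (c_eq p) (c_gen p) h1
    have h3 := map_up' (D := surf K0 K A a b) (D' := pts K0 K (RS A a b ⧸ p))
      (fun y : RS A a b ⧸ p →ₐ[K0] K => onS (cφ (K0 := K0) p) (c_eq p) y) P' Q
    have h4 : up (D := surf K0 K A a b) ((∑ i, Finsupp.single (onS (cφ (K0 := K0) p) (c_eq p) (P' i)) 1) +
        ∑ l, Finsupp.single (onS (cφ (K0 := K0) p) (c_eq p) (Q l)) 1) ∈ tor (RatEq (surf K0 K A a b) 1) :=
      Eq.mp (congrArg (fun w => w ∈ tor (RatEq (surf K0 K A a b) 1)) h3) h2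
    simp only [hP'] at h4
    exact h4

/-- `K0` algebraically closed of characteristic zero, `A` the ring of an affine curve over `K0` (a domain, integral over `K0[T]`), `S : y^2 = x^3 - 3 a x - 2 b` over `Spec A`.  If the antisymmetrised products of `k + 1`
points of `S` over `K` are torsion for all algebraically closed `K ⊇ K0`, then for every `G ∈ A[x, y]` which does not vanish on all of `S` there is `M` such that for all algebraically closed `K ⊇ K0` all products of `M` zero-cycles supported on `G = 0` are torsion. -/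
theorem finS {K0 A : Type} [Field K0] [IsAlgClosed K0] [CharZero K0] [CommRing A] [IsDomain A] [Algebra K0 A]
    [Algebra.FiniteType K0 A] {T : A} (hT : ∀ r : A, IsIntegral (Algebra.adjoin K0 ({T} : Set A)) r) {a b : A} {k : ℕ}
    (halt : ∀ (K : Type) [Field K] [IsAlgClosed K] [Algebra K0 K] (P : Fin (k + 1) → SP K0 A K a b),
      ∑ σ : Equiv.Perm (Fin (k + 1)), (Equiv.Perm.sign σ : ℤ) •
        (Finsupp.single (fun i => P (σ i)) 1 : Cyc (surf K0 K A a b) (k + 1)) ∈ tor (RatEq (surf K0 K A a b) (k + 1)))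
    {G : A[X][X]} (hG : ∃ P : SP K0 A K0 a b, P.val G ≠ 0) :
    ∃ M : ℕ, 0 < M ∧ ∀ (K : Type) [Field K] [IsAlgClosed K] [Algebra K0 K] (z : Fin M → Cyc1 (surf K0 K A a b)),
      (∀ i, ∀ P : SP K0 A K a b, P ∈ (z i).support → P.val G = 0) → prodM z ∈ tor (RatEq (surf K0 K A a b) M) := by
  classical
  have hdom := rs_dom a b
  have hft := rs_ft (K0 := K0) a b
  have hG' : AdjoinRoot.mk (wp a b) G ≠ 0 := by
    obtain ⟨P, hP⟩ := hG
    intro h0
    apply hP
    rw [← toPt_mk, h0, map_zero]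
  obtain ⟨n, p, hprime, hdim, hcov⟩ := comps (AdjoinRoot.of (wp a b) (C T)) (AdjoinRoot.of (wp a b) X)
    (rs_int a b hT) hG'
  have hrel := fun i => comp_relS (p i) (hdim i)
  choose mm hmm using hrel
  obtain ⟨g, hg⟩ : ∃ g, g = ∑ i, mm i := ⟨_, rfl⟩
  refine ⟨g * k + 1, Nat.succ_pos _, ?_⟩
  intro K _ _ _ z hz
  have : CharZero K := charZero_of_injective_algebraMap (algebraMap K0 K).injective
  refine mainPD (D := surf K0 K A a b) (Nat.lt_succ_self (g * k)) (L := {P : SP K0 A K a b | P.val G = 0})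
    (L' := Set.univ) (Set.subset_univ _)
    (fun P _ => tor_sat two_pos (le_tor _ (sqS P))) (fun P _ => halt K P) ?_ z (fun i P hP => hz i P hP)
  intro P hPL hPinj
  obtain ⟨Q, hQ⟩ : ∃ Q : Fin (g + 1) → SP K0 A K a b, Q = P := ⟨P, rfl⟩
  have hQG : ∀ j, toPt (Q j) (AdjoinRoot.mk (wp a b) G) = 0 := fun j => by
    rw [toPt_mk, hQ]
    exact hPL j
  have hcov' := fun j => hcov K (toPt (Q j)) (hQG j)
  choose ic hic using hcov'
  obtain ⟨i, hi⟩ : ∃ i, mm i ≤ (Finset.univ.filter fun j => ic j = i).card := by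
    by_contra hcon
    push Not at hcon
    have h1 : (Finset.univ : Finset (Fin (g + 1))).card = ∑ i, (Finset.univ.filter fun j => ic j = i).card :=
      Finset.card_eq_sum_card_fiberwise (fun _ _ => Finset.mem_univ _)
    rw [Finset.card_univ, Fintype.card_fin] at h1
    have h2 : ∑ i, (Finset.univ.filter fun j => ic j = i).card ≤ ∑ i, mm i :=
      Finset.sum_le_sum fun i _ => (hcon i).le
    omega
  obtain ⟨J, hJ, hJc⟩ := Finset.exists_subset_card_eq hi
  have e : Fin (mm i) ≃ {x // x ∈ J} := (Fintype.equivFinOfCardEq (by rw [Fintype.card_coe, hJc])).symm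
  obtain ⟨c, R', hc, h1⟩ := hmm i K (fun j => Q (e j))
    (fun a b hab => e.injective (Subtype.ext (hPinj (by
      have h2 : Q (e a) = Q (e b) := hab
      rw [hQ] at h2
      exact h2))))
    (fun j r hr => by
      have h2 := (Finset.mem_filter.1 (hJ (e j).2)).2
      exact hic (e j) r (by rw [h2]; exact hr))
  refine ⟨J, c, R', by omega, fun _ => trivial, ?_⟩
  have h3 : ∑ x ∈ J, (Finsupp.single (P x) 1 : Cyc1 (surf K0 K A a b)) = ∑ j, Finsupp.single (Q (e j)) 1 := by
    rw [← Finset.sum_coe_sort J, ← Equiv.sum_comp e, hQ]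
    rfl
  rw [h3]
  exact h1

end H77.AF
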