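import Mathlib

/-! # AF.TD (MATHLIB only, about 90 lines): a domain of finite type over an algebraically closed field stays a domain after extension of the field

Proof.  Let `z w = 0` in `K ⊗ R`, `z ≠ 0`, `w ≠ 0`.  With a basis `k i` of `K` over `K0` (`Algebra.TensorProduct.basis` / `Basis.ofVectorSpace K0 K`, `K ⊗ R` is free over `R` with basis `k i ⊗ 1`) write `z = ∑ k i ⊗ z i`, `w = ∑ k j ⊗ w j`, `z i ≠ 0`,
`w j ≠ 0` for some `i`, `j`.  `z i * w j ≠ 0` in the domain `R`; `R` is a Jacobson ring (finite type over a field) and reduced, so there is a maximal ideal `m` of `R` with `z i * w j ∉ m`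
(`Ideal.jacobson_bot...`, `IsJacobsonRing`), and `R ⧸ m` is a finite extension of the algebraically closed `K0`, i.e. `K0` (`finite_of_finite_type_of_isJacobsonRing`, `IsAlgClosed.algebraMap_bijective_of_isIntegral`): there is a
`K0`-homomorphism `p : R → K0` with `p (z i) ≠ 0`, `p (w j) ≠ 0`.  The homomorphism `K ⊗ R → K`, `k ⊗ r ↦ k p(r)` maps `z` to `∑ k i p(z i) ≠ 0` and `w` to `∑ k j p (w j) ≠ 0` (the `k i` are linearly independent over `K0`), and `z w` to `0`: contradiction. -/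

namespace H77.AF

open TensorProduct

/-- a function which does not vanish at some point -/
theorem exists_pt {K0 R : Type} [Field K0] [IsAlgClosed K0] [CommRing R] [IsDomain R] [Algebra K0 R]
    [Algebra.FiniteType K0 R] {r : R} (hr : r ≠ 0) : ∃ p : R →ₐ[K0] K0, p r ≠ 0 := by
  have hJ : IsJacobsonRing R := by
    obtain ⟨ι, hι, f, hf⟩ := Algebra.FiniteType.iff_quotient_mvPolynomial'.mp
      (inferInstance : Algebra.FiniteType K0 R)
    exact isJacobsonRing_of_surjective ⟨f.toRingHom, hf⟩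
  have h1 : (⊥ : Ideal R).jacobson = ⊥ := hJ.out (Ideal.isPrime_bot.isRadical)
  have h2 : r ∉ (⊥ : Ideal R).jacobson := by
    rw [h1]
    exact hr
  unfold Ideal.jacobson at h2
  rw [Ideal.mem_sInf] at h2
  push Not at h2
  obtain ⟨m, ⟨-, hm⟩, hrm⟩ := h2
  let _ : Field (R ⧸ m) := Ideal.Quotient.field m
  have hfin : Module.Finite K0 (R ⧸ m) := finite_of_finite_type_of_isJacobsonRing K0 (R ⧸ m)
  have hbij := IsAlgClosed.algebraMap_bijective_of_isIntegral (k := K0) (K := R ⧸ m)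
  let e : K0 ≃ₐ[K0] (R ⧸ m) := AlgEquiv.ofBijective (Algebra.ofId K0 (R ⧸ m)) hbij
  refine ⟨(e.symm : (R ⧸ m) →ₐ[K0] K0).comp (Ideal.Quotient.mkₐ K0 m), ?_⟩
  intro h0
  have h3 : e.symm (Ideal.Quotient.mk m r) = 0 := h0
  rw [EmbeddingLike.map_eq_zero_iff, Ideal.Quotient.eq_zero_iff_mem] at h3
  exact hrm h3

private noncomputable def evp {K0 : Type} (K : Type) {R : Type} [Field K0] [Field K] [Algebra K0 K] [CommRing R]
    [Algebra K0 R] (p : R →ₐ[K0] K0) : K ⊗[K0] R →ₐ[K0] K :=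
  Algebra.TensorProduct.lift (AlgHom.id K0 K) ((Algebra.ofId K0 K).comp p) (fun _ _ => Commute.all _ _)

private theorem evp_ne {K0 K R : Type} [Field K0] [Field K] [Algebra K0 K] [CommRing R]
    [Algebra K0 R] (z : K ⊗[K0] R) (hz : z ≠ 0) : ∃ r : R, r ≠ 0 ∧ ∀ p : R →ₐ[K0] K0, p r ≠ 0 → evp K p z ≠ 0 := by
  classical
  let b := Module.Basis.ofVectorSpace K0 K
  obtain ⟨c, hc⟩ := TensorProduct.eq_repr_basis_left b z
  have hc0 : c ≠ 0 := by
    rintro rfl
    rw [Finsupp.sum_zero_index] at hc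
    exact hz hc.symm
  obtain ⟨i, hi⟩ := Finsupp.ne_iff.1 hc0
  refine ⟨c i, hi, fun p hp h0 => hp ?_⟩
  have h1 : evp K p z = c.sum (fun j n => p n • b j) := by
    rw [← hc, map_finsuppSum]
    refine Finsupp.sum_congr fun j _ => ?_
    unfold evp
    rw [Algebra.TensorProduct.lift_tmul, Algebra.smul_def, mul_comm]
    rfl
  rw [h1, Finsupp.sum] at h0
  have h2 := linearIndependent_iff'.1 b.linearIndependent c.support (fun j => p (c j)) h0 i
    (Finsupp.mem_support_iff.2 hi)
  exact h2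

theorem tens_dom (K0 K R : Type) [Field K0] [IsAlgClosed K0] [Field K] [Algebra K0 K] [CommRing R] [IsDomain R]
    [Algebra K0 R] [Algebra.FiniteType K0 R] : IsDomain (K ⊗[K0] R) := by
  have hnt : Nontrivial (K ⊗[K0] R) := by
    obtain ⟨p, -⟩ := exists_pt (K0 := K0) (R := R) one_ne_zero
    exact (evp K p).toRingHom.domain_nontrivial
  have hnz : NoZeroDivisors (K ⊗[K0] R) := by
    refine ⟨fun {z w} h => ?_⟩
    by_contra hcon
    push Not at hcon
    obtain ⟨r, hr, h1⟩ := evp_ne z hcon.1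
    obtain ⟨t, ht, h2⟩ := evp_ne w hcon.2
    obtain ⟨p, hp⟩ := exists_pt (K0 := K0) (mul_ne_zero hr ht)
    rw [map_mul] at hp
    have h3 := mul_ne_zero (h1 p (left_ne_zero_of_mul hp)) (h2 p (right_ne_zero_of_mul hp))
    rw [← map_mul, h, map_zero] at h3
    exact h3 rfl
  exact NoZeroDivisors.to_isDomain _

end H77.AF
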