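import Pool.Agent.H77.SN.Def
import Mathlib.RingTheory.FiniteType

/-! # AF.Comps (about 120 lines): the components of a curve `G = 0` on an affine surface

`R` a domain, integral over `K0[T, X]` (`hint`).  Let `G ≠ 0`.  The minimal primes over `(G)` are finitely many (`R` is noetherian: `Ideal.finite_minimalPrimes_of_isNoetherianRing`).  The kernel of a homomorphism `P : R → K` to a field with
`P G = 0` is a prime ideal containing `G`, so it contains a minimal prime (`Ideal.exists_minimalPrimes_le`).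
`dim`: let `p` be a prime containing `G ≠ 0`.  `G` is integral over the domain `K0[T, X]`, so there is a nonzero `N ∈ K0[X][X]` with `evA T X N ∈ (G) ≤ p` and `evA T X N ≠ 0` in `R` (constant coefficient of a monic equation of minimal degree; it is nonzero as `R` is a domain).  So in `R ⧸ p`: `N(T, X) = 0`,
`N ≠ 0`: one of `T`, `X` is algebraic over `K0` adjoined the other.  `R ⧸ p` is integral over `K0[T, X]`.  If both `T` and `X` are algebraic over `K0` in `R ⧸ p`, then every element of `R ⧸ p` is, so it is a constant (`K0` algebraically closed, `R ⧸ p` a domain).  Otherwise one of them, `U`, is transcendental and the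
other is algebraic over `K0[U]`, so every element is algebraic over `K0[U]` (`Alg1`, transitivity; cf. `H77.SN.AlgT`, `H77.SN.Alg`). -/

namespace H77.AF

open Polynomial H77.SN

private theorem comps_transc {K R : Type} [Field K] [IsAlgClosed K] [CommRing R] [IsDomain R] [Algebra K R]
    {Φ : R} (hΦ : ∀ c : K, Φ ≠ algebraMap K R c) : Transcendental K Φ := by
  rintro ⟨p, hp0, hp⟩
  have hs := (IsAlgClosed.splits p).eq_prod_roots
  rw [hs, map_mul, map_multiset_prod, aeval_C] at hp
  rcases mul_eq_zero.mp hp with h1 | h1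
  · have h2 : p.leadingCoeff = 0 :=
      (map_eq_zero_iff _ (algebraMap K R).injective).mp h1
    exact hp0 (leadingCoeff_eq_zero.mp h2)
  · rw [Multiset.prod_eq_zero_iff, Multiset.map_map, Multiset.mem_map] at h1
    obtain ⟨c, _, hc⟩ := h1
    simp only [Function.comp_apply, map_sub, aeval_X, aeval_C] at hc
    exact hΦ c (sub_eq_zero.mp hc)

/-- `V` algebraic over `K[U]`, every element integral over `K[U, V]`: every element is algebraic over `K[U]` -/
private theorem comps_alg {K S : Type} [Field K] [CommRing S] [IsDomain S] [Algebra K S] {U V : S}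
    (hU : Transcendental K U) {g : K[X][X]} (hg : g ≠ 0) (hg0 : evA U V g = 0)
    {s : Set S} (hs : s ⊆ {U, V})
    (hint : ∀ r : S, IsIntegral (Algebra.adjoin K s) r) : Alg1 K U := by
  let _ : Algebra K[X] S := (aeval U : K[X] →ₐ[K] S).toRingHom.toAlgebra
  have hinj : Function.Injective (algebraMap K[X] S) := transcendental_iff_injective.mp hU
  have hfs : FaithfulSMul K[X] S := (faithfulSMul_iff_algebraMap_injective _ _).mpr hinj
  have hV : IsAlgebraic K[X] V := ⟨g, hg, hg0⟩
  have hUa : IsAlgebraic K[X] U := by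
    have h1 : algebraMap K[X] S X = U := aeval_X U
    rw [← h1]
    exact isAlgebraic_algebraMap X
  have hle : ∀ a ∈ Algebra.adjoin K s, a ∈ Subalgebra.algebraicClosure K[X] S := by
    intro a ha
    refine Algebra.adjoin_induction (p := fun a _ => a ∈ Subalgebra.algebraicClosure K[X] S) ?_ ?_ ?_ ?_ ha
    · intro x hx
      rcases hs hx with rfl | h2
      · exact hUa
      · rw [Set.mem_singleton_iff.1 h2]
        exact hV
    · intro c
      have h1 : algebraMap K[X] S (C c) = algebraMap K S c := aeval_C U c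
      rw [← h1]
      exact isAlgebraic_algebraMap (C c)
    · intro x y _ _ hx hy
      exact add_mem hx hy
    · intro x y _ _ hx hy
      exact mul_mem hx hy
  intro r
  let φ : Algebra.adjoin K s →+* Subalgebra.algebraicClosure K[X] S :=
    { toFun := fun a => ⟨a.1, hle a.1 a.2⟩
      map_one' := rfl
      map_mul' := fun _ _ => rfl
      map_zero' := rfl
      map_add' := fun _ _ => rfl }
  have h1 : IsIntegral (Subalgebra.algebraicClosure K[X] S) ((RingHom.id S) r) :=
    (hint r).map_of_comp_eq φ (RingHom.id S) rfl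
  obtain ⟨G, hG, hG0⟩ := IsIntegral.trans_isAlgebraic K[X] h1
  exact ⟨G, hG, hG0⟩

private theorem comps_dim {K0 R : Type} [Field K0] [IsAlgClosed K0] [CommRing R] [IsDomain R] [Algebra K0 R]
    (T X : R) (hint : ∀ r : R, IsIntegral (Algebra.adjoin K0 ({T, X} : Set R)) r) {G : R}
    (hG : G ≠ 0) (p : Ideal R) [p.IsPrime] (hGp : G ∈ p) :
    (∀ r : R ⧸ p, ∃ c : K0, r = algebraMap K0 (R ⧸ p) c) ∨
        ∃ U : R ⧸ p, Transcendental K0 U ∧ Alg1 K0 U := by
  obtain ⟨N, hN, hN0⟩ : ∃ N : K0[X][X], N ≠ 0 ∧ evA (Ideal.Quotient.mkₐ K0 p T) (Ideal.Quotient.mkₐ K0 p X) N = 0 := by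
    have h1 := Ideal.comap_ne_bot_of_integral_mem hG hGp (hint G)
    obtain ⟨a, ha, ha0⟩ := Submodule.exists_mem_ne_zero_of_ne_bot h1
    have h2 : (a : R) ∈ (evA (K := K0) T X).range := by
      have h3 : Algebra.adjoin K0 ({T, X} : Set R) ≤ (evA (K := K0) T X).range := by
        rw [Algebra.adjoin_le_iff]
        rintro x (rfl | hx)
        · exact ⟨C Polynomial.X, by simp⟩
        · rw [Set.mem_singleton_iff.1 hx]
          exact ⟨Polynomial.X, by simp⟩
      exact h3 a.2
    obtain ⟨N, hN⟩ := h2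
    have hN' : evA T X N = (a : R) := hN
    refine ⟨N, ?_, ?_⟩
    · rintro rfl
      rw [map_zero] at hN'
      exact ha0 (Subtype.ext hN'.symm)
    · rw [← map_evA, hN']
      exact Ideal.Quotient.eq_zero_iff_mem.2 ha
  have hint' : ∀ r : R ⧸ p, IsIntegral (Algebra.adjoin K0
      ({Ideal.Quotient.mkₐ K0 p T, Ideal.Quotient.mkₐ K0 p X} : Set (R ⧸ p))) r := by
    intro r
    obtain ⟨r, rfl⟩ := Ideal.Quotient.mk_surjective r
    have hle : ∀ a ∈ Algebra.adjoin K0 ({T, X} : Set R), Ideal.Quotient.mkₐ K0 p a ∈ Algebra.adjoin K0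
        ({Ideal.Quotient.mkₐ K0 p T, Ideal.Quotient.mkₐ K0 p X} : Set (R ⧸ p)) := by
      intro a ha
      have h1 : Ideal.Quotient.mkₐ K0 p a ∈ (Algebra.adjoin K0 ({T, X} : Set R)).map (Ideal.Quotient.mkₐ K0 p) :=
        ⟨a, ha, rfl⟩
      rw [AlgHom.map_adjoin, Set.image_pair] at h1
      exact h1
    let φ : Algebra.adjoin K0 ({T, X} : Set R) →+* Algebra.adjoin K0
        ({Ideal.Quotient.mkₐ K0 p T, Ideal.Quotient.mkₐ K0 p X} : Set (R ⧸ p)) :=
      { toFun := fun a => ⟨Ideal.Quotient.mkₐ K0 p a.1, hle a.1 a.2⟩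
        map_one' := rfl
        map_mul' := fun _ _ => rfl
        map_zero' := rfl
        map_add' := fun _ _ => rfl }
    exact (hint r).map_of_comp_eq φ (Ideal.Quotient.mk p) rfl
  generalize Ideal.Quotient.mkₐ K0 p T = T' at *
  generalize Ideal.Quotient.mkₐ K0 p X = X' at *
  by_cases hT : ∃ c : K0, T' = algebraMap K0 (R ⧸ p) c
  · obtain ⟨c, rfl⟩ := hT
    by_cases hX : ∃ c : K0, X' = algebraMap K0 (R ⧸ p) c
    · left
      obtain ⟨d, rfl⟩ := hX
      intro r
      by_contra hcon
      push Not at hcon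
      have htr := comps_transc hcon
      have hA : Algebra.IsIntegral K0 (Algebra.adjoin K0
          ({algebraMap K0 (R ⧸ p) c, algebraMap K0 (R ⧸ p) d} : Set (R ⧸ p))) := by
        refine Algebra.IsIntegral.adjoin ?_
        rintro x (rfl | hx)
        · exact isIntegral_algebraMap
        · rw [Set.mem_singleton_iff.1 hx]
          exact isIntegral_algebraMap
      exact htr (isIntegral_trans r (hint' r)).isAlgebraic
    · right
      push Not at hX
      refine ⟨X', comps_transc hX, comps_alg (V := algebraMap K0 (R ⧸ p) c) (comps_transc hX)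
        (g := Polynomial.X - C (C c)) (X_sub_C_ne_zero _) ?_ ?_ hint'⟩
      · rw [map_sub, evA_X, evA_C, aeval_C, sub_self]
      · rw [Set.pair_comm]
  · right
    push Not at hT
    exact ⟨T', comps_transc hT, comps_alg (comps_transc hT) hN hN0 subset_rfl hint'⟩

theorem comps {K0 R : Type} [Field K0] [IsAlgClosed K0] [CommRing R] [IsDomain R] [Algebra K0 R]
    [Algebra.FiniteType K0 R] (T X : R) (hint : ∀ r : R, IsIntegral (Algebra.adjoin K0 ({T, X} : Set R)) r) {G : R}
    (hG : G ≠ 0) :
    ∃ (n : ℕ) (p : Fin n → Ideal R), (∀ i, (p i).IsPrime) ∧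
      (∀ i, (∀ r : R ⧸ p i, ∃ c : K0, r = algebraMap K0 (R ⧸ p i) c) ∨
        ∃ U : R ⧸ p i, Transcendental K0 U ∧ Alg1 K0 U) ∧
      ∀ (K : Type) [Field K] [Algebra K0 K] (P : R →ₐ[K0] K), P G = 0 → ∃ i, ∀ r ∈ p i, P r = 0 := by
  classical
  have hnoe : IsNoetherianRing R := Algebra.FiniteType.isNoetherianRing K0 R
  have hfin := Ideal.finite_minimalPrimes_of_isNoetherianRing R (Ideal.span {G})
  let s := hfin.toFinset
  have hs : ∀ q, q ∈ s ↔ q ∈ (Ideal.span {G}).minimalPrimes := fun q => hfin.mem_toFinset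
  refine ⟨s.card, fun i => (s.equivFin.symm i).1, ?_, ?_, ?_⟩
  · intro i
    exact ((hs _).1 (s.equivFin.symm i).2).1.1
  · intro i
    have h1 := ((hs _).1 (s.equivFin.symm i).2).1
    have hp : (s.equivFin.symm i).1.IsPrime := h1.1
    exact comps_dim T X hint hG _ (h1.2 (Ideal.mem_span_singleton_self G))
  · intro K _ _ P hP
    have hpr : (RingHom.ker P).IsPrime := RingHom.ker_isPrime P
    have hle : Ideal.span {G} ≤ RingHom.ker P := by
      rw [Ideal.span_singleton_le_iff_mem]
      exact hP
    obtain ⟨q, hq, hqle⟩ := Ideal.exists_minimalPrimes_le hle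
    refine ⟨s.equivFin ⟨q, (hs q).2 hq⟩, ?_⟩
    intro r hr
    simp only [Equiv.symm_apply_apply] at hr
    exact hqle hr

end H77.AF
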