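import Pool.Agent.H77.AF.Mult

/-! # AF.Ins : inserting relations in `k` variables into `m`-tuples (about 90 lines)

`ins` (as `H25.V1.Ins2.ins2`): the homomorphism `Finsupp.mapDomain (fill ι Q)` sends the generators of `RatEq D k` to generators of `RatEq D m`: `S.map (fill ι (fun l => D.cst (Q l)))`, `c.map (fill ι Q)`;
`fill_at`, `fill_off`, `fill_map`, `D.act_cst`, `D.sp_cst`; a dropped tuple (`off` at the coordinate `i`) is off at the coordinate `ι i`.
`insk`: a relation `∑ c_i single (P_i)` in `k` variables (modulo torsion), arbitrary zero-cycles `z l` in the other variables.  First `z l = single (Q l) 1` for `l` not in the image of `ι` (`IsPr`, `ins`), with a fixed `N`; then for arbitrary `z` by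
`multi_mem` or by `Finsupp.induction_linear` in one variable after another (prove: for all finite sets `s` of places and all `z` with `z l` of the form `single Q 1` for `l ∉ s`). -/

namespace H77.AF

open H68.BB

variable {K : Type} [Field K] {D : PD K} {k m : ℕ}

theorem ins {ι : Fin k → Fin m} (hι : Function.Injective ι) (Q : Fin m → D.X) {x : Cyc D k} (hx : x ∈ RatEq D k) :
    Finsupp.mapDomain (fill ι Q) x ∈ RatEq D m := by
  let f : Cyc D k →+ Cyc D m := Finsupp.mapDomain.addMonoidHom (fill ι Q)
  let q : Fin m → D.Y := fun l => D.cst (Q l)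
  have hcyc : ∀ c : Multiset (Fin k → D.X), f (cyc c) = cyc (c.map (fill ι Q)) := by
    intro c
    rw [cyc, cyc, map_multiset_sum, Multiset.map_map, Multiset.map_map]
    congr 1
    apply Multiset.map_congr rfl
    intro p _
    exact Finsupp.mapDomain_single
  have hfib : ∀ (π : Place K (Om K)) (S : Multiset (Fin k → D.Y)) (c : Multiset (Fin k → D.X)), Fibre π S c →
      Fibre π (S.map (fill ι q)) (c.map (fill ι Q)) := by
    rintro π S c ⟨S1, S2, rfl, h1, h2⟩
    refine ⟨S1.map (fill ι q), S2.map (fill ι q), by rw [Multiset.map_add], ?_, ?_⟩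
    · rw [Multiset.rel_map]
      refine h1.mono (fun x _ y _ hxy l => ?_)
      by_cases hl : ∃ j, ι j = l
      · obtain ⟨j, rfl⟩ := hl
        rw [fill_at hι, fill_at hι]
        exact hxy j
      · have hl' : ∀ j, ι j ≠ l := fun j hj => hl ⟨j, hj⟩
        rw [fill_off _ _ hl', fill_off _ _ hl']
        exact D.sp_cst π (Q l)
    · intro P hP
      obtain ⟨P', hP', rfl⟩ := Multiset.mem_map.1 hP
      obtain ⟨i, hi⟩ := h2 P' hP'
      exact ⟨ι i, by rw [fill_at hι]; exact hi⟩
  have hle : RatEq D k ≤ (RatEq D m).comap f := by
    rw [RatEq, AddSubgroup.closure_le]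
    rintro z ⟨S, π, π', c, c', hG, h1, h2, rfl⟩
    change f (cyc c - cyc c') ∈ RatEq D m
    rw [map_sub, hcyc, hcyc]
    apply AddSubgroup.subset_closure
    refine ⟨S.map (fill ι q), π, π', c.map (fill ι Q), c'.map (fill ι Q), ?_, hfib π S c h1, hfib π' S c' h2, rfl⟩
    intro σ
    have h3 := congrArg (Multiset.map (fill ι q)) (hG σ)
    rw [Multiset.map_map] at h3 ⊢
    refine Eq.trans ?_ h3
    apply Multiset.map_congr rfl
    intro P _
    change (fun l => D.act σ (fill ι q P l)) = fill ι q (fun j => D.act σ (P j))
    rw [fill_map]
    congr 1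
    funext l
    exact D.act_cst σ (Q l)
  exact hle hx

private theorem fill_upd {X : Type} {ι : Fin k → Fin m} {a : Fin m} (ha : ∀ j, ι j ≠ a) (q : Fin m → X) (p : Fin k → X) (x : X) :
    fill ι (Function.update q a x) p = Function.update (fill ι q p) a x := by
  classical
  funext l
  by_cases hl : l = a
  · subst hl
    rw [Function.update_self, fill_off _ _ ha, Function.update_self]
  · rw [Function.update_of_ne hl]
    unfold fill
    split_ifs with h
    · rfl
    · rw [Function.update_of_ne hl]

theorem insk {mul : MultilinearMap ℤ (fun _ : Fin m => Cyc1 D) (Cyc D m)} (hm : IsPr mul)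
    {ι : Fin k → Fin m} (hι : Function.Injective ι) {I : Type} (A : Finset I) (c : I → ℤ) (P : I → Fin k → D.X)
    (h : ∑ i ∈ A, c i • (Finsupp.single (P i) 1 : Cyc D k) ∈ tor (RatEq D k)) (z : Fin m → Cyc1 D) :
    ∑ i ∈ A, c i • mul (fill ι z (fun j => Finsupp.single (P i j) 1)) ∈ tor (RatEq D m) := by
  classical
  obtain ⟨N, hN, hNA⟩ := h
  refine ⟨N, hN, ?_⟩
  have key : ∀ s : Finset (Fin m), ∀ z : Fin m → Cyc1 D,
      (∀ l, (∀ j, ι j ≠ l) → l ∉ s → ∃ x : D.X, z l = Finsupp.single x 1) →
      N • ∑ i ∈ A, c i • mul (fill ι z (fun j => Finsupp.single (P i j) 1)) ∈ RatEq D m := by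
    intro s
    induction s using Finset.induction_on with
    | empty =>
      intro z hz
      rcases A.eq_empty_or_nonempty with hA | ⟨i0, hi0⟩
      · rw [hA, Finset.sum_empty, smul_zero]
        exact (RatEq D m).zero_mem
      · have hQ : ∀ l, ∃ x : D.X, (∀ j, ι j ≠ l) → z l = Finsupp.single x 1 := by
          intro l
          by_cases hl : ∃ j, ι j = l
          · obtain ⟨j, hj⟩ := hl
            exact ⟨P i0 j, fun h => absurd hj (h j)⟩
          · have hl' : ∀ j, ι j ≠ l := fun j hj => hl ⟨j, hj⟩
            obtain ⟨x, hx⟩ := hz l hl' (Finset.notMem_empty _)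
            exact ⟨x, fun _ => hx⟩
        choose Q hQ using hQ
        have h1 : ∀ i, mul (fill ι z (fun j => Finsupp.single (P i j) 1)) =
            Finsupp.mapDomain (fill ι Q) (Finsupp.single (P i) 1 : Cyc D k) := by
          intro i
          rw [Finsupp.mapDomain_single, ← hm]
          congr 1
          funext l
          by_cases hl : ∃ j, ι j = l
          · obtain ⟨j, rfl⟩ := hl
            rw [fill_at hι, fill_at hι]
          · have hl' : ∀ j, ι j ≠ l := fun j hj => hl ⟨j, hj⟩
            rw [fill_off _ _ hl', fill_off _ _ hl', hQ l hl']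
        have h2 := ins hι Q hNA
        have h3 : ∀ x : Cyc D k, Finsupp.mapDomain (fill ι Q) x = Finsupp.mapDomain.addMonoidHom (fill ι Q) x := fun _ => rfl
        rw [h3, map_nsmul, map_sum] at h2
        have h4 : ∑ i ∈ A, c i • mul (fill ι z (fun j => Finsupp.single (P i j) 1)) =
            ∑ i ∈ A, Finsupp.mapDomain.addMonoidHom (fill ι Q) (c i • (Finsupp.single (P i) 1 : Cyc D k)) := by
          apply Finset.sum_congr rfl
          intro i _
          rw [h1, map_zsmul]
          rfl
        rw [h4]
        exact h2
    | insert a s ha ih =>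
      intro z hz
      by_cases hr : ∃ j, ι j = a
      · apply ih
        intro l hl hls
        apply hz l hl
        rw [Finset.mem_insert, not_or]
        obtain ⟨j, hj⟩ := hr
        exact ⟨fun hh => hl j (hj.trans hh.symm), hls⟩
      · have ha' : ∀ j, ι j ≠ a := fun j hj => hr ⟨j, hj⟩
        have h1 : ∀ x : Cyc1 D, N • ∑ i ∈ A, c i • mul (fill ι (Function.update z a x) (fun j => Finsupp.single (P i j) 1)) ∈
            RatEq D m := by
          intro x
          induction x using Finsupp.induction_linear with
          | zero =>
            simp only [fill_upd ha', MultilinearMap.map_update_zero, smul_zero, Finset.sum_const_zero]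
            exact (RatEq D m).zero_mem
          | add x y hx hy =>
            simp only [fill_upd ha'] at hx hy ⊢
            simp only [MultilinearMap.map_update_add, smul_add, Finset.sum_add_distrib]
            exact (RatEq D m).add_mem hx hy
          | single x n =>
            have h2 : (Finsupp.single x n : Cyc1 D) = n • Finsupp.single x 1 := by
              rw [Finsupp.smul_single, smul_eq_mul, mul_one]
            have h3 := ih (Function.update z a (Finsupp.single x 1)) (by
              intro l hl hls
              by_cases hla : l = a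
              · subst hla
                exact ⟨x, by rw [Function.update_self]⟩
              · rw [Function.update_of_ne hla]
                exact hz l hl (by rw [Finset.mem_insert, not_or]; exact ⟨hla, hls⟩))
            have h4 : N • ∑ i ∈ A, c i • mul (fill ι (Function.update z a (Finsupp.single x n)) (fun j => Finsupp.single (P i j) 1)) =
                n • (N • ∑ i ∈ A, c i • mul (fill ι (Function.update z a (Finsupp.single x 1)) (fun j => Finsupp.single (P i j) 1))) := by
              have h6 : ∑ i ∈ A, c i • mul (fill ι (Function.update z a (Finsupp.single x n)) (fun j => Finsupp.single (P i j) 1)) =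
                  n • ∑ i ∈ A, c i • mul (fill ι (Function.update z a (Finsupp.single x 1)) (fun j => Finsupp.single (P i j) 1)) := by
                rw [Finset.smul_sum]
                apply Finset.sum_congr rfl
                intro i _
                rw [h2, fill_upd ha', fill_upd ha', MultilinearMap.map_update_smul, smul_comm]
              rw [h6, smul_comm]
            rw [h4]
            exact (RatEq D m).zsmul_mem h3 n
        have h5 := h1 (z a)
        rw [Function.update_eq_self] at h5
        exact h5
  exact key Finset.univ z (fun l _ hl => absurd (Finset.mem_univ l) hl)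

/-- one variable is a torsion class -/
theorem kill1 {mul : MultilinearMap ℤ (fun _ : Fin m => Cyc1 D) (Cyc D m)} (hm : IsPr mul) (z : Fin m → Cyc1 D)
    {i : Fin m} (hi : up (z i) ∈ tor (RatEq D 1)) : mul z ∈ tor (RatEq D m) := by
  classical
  have hup : (up (z i) : Cyc D 1) = ∑ x ∈ (z i).support, z i x • (Finsupp.single (fun _ => x) 1 : Cyc D 1) := by
    have h1 : z i = ∑ x ∈ (z i).support, z i x • (Finsupp.single x 1 : Cyc1 D) := by
      conv_lhs => rw [← Finsupp.sum_single (z i)]
      apply Finset.sum_congr rfl
      intro x _
      rw [Finsupp.smul_single, smul_eq_mul, mul_one]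
    conv_lhs => rw [h1]
    rw [map_sum]
    apply Finset.sum_congr rfl
    intro x _
    rw [map_zsmul]
    congr 1
    exact Finsupp.mapDomain_single
  rw [hup] at hi
  have h := insk hm (ι := fun _ : Fin 1 => i) (fun a b _ => Subsingleton.elim a b) (z i).support (fun x => z i x)
    (fun x _ => x) hi z
  have hf : ∀ y : Cyc1 D, fill (fun _ : Fin 1 => i) z (fun _ => y) = Function.update z i y := by
    intro y
    funext l
    by_cases hl : l = i
    · subst hl
      rw [Function.update_self]
      exact fill_at (ι := fun _ : Fin 1 => l) (fun a b _ => Subsingleton.elim a b) z (fun _ => y) 0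
    · rw [Function.update_of_ne hl]
      exact fill_off _ _ (fun _ h => hl h.symm)
  have h2 : mul z = ∑ x ∈ (z i).support, z i x • mul (fill (fun _ : Fin 1 => i) z (fun _ => Finsupp.single x 1)) := by
    have h1 : z i = ∑ x ∈ (z i).support, z i x • (Finsupp.single x 1 : Cyc1 D) := by
      conv_lhs => rw [← Finsupp.sum_single (z i)]
      apply Finset.sum_congr rfl
      intro x _
      rw [Finsupp.smul_single, smul_eq_mul, mul_one]
    conv_lhs => rw [← Function.update_eq_self i z, h1, MultilinearMap.map_update_sum]
    apply Finset.sum_congr rfl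
    intro x _
    rw [MultilinearMap.map_update_smul, hf]
  rw [h2]
  exact h

end H77.AF
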