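import Pool.Agent.H77.SN.Im
import Pool.Agent.H77.SN.Num

/-! # AF.FilK (about 70 lines; compare `H77.SN.Dat`, Case B): the filtration by the degree of polynomials in `U, V`

`F N` = the image of `PN K 1 0 N`; `finrank_im` with `η = 1`, `w = 1`, `h = 0`; `num_diff`, `num_low`, `PN_mul`. -/

namespace H77.AF

open Polynomial H77.SN

private theorem fk_one (K : Type) [Field K] : (1 : K[X][X]) ∈ PN K 1 0 0 := by
  intro i j hij
  have hj : j = 0 := by
    by_contra hj
    apply hij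
    rw [coeff_one, if_neg (by simpa using hj), coeff_zero]
  subst hj
  have hi : i = 0 := by
    by_contra hi
    apply hij
    rw [coeff_one_zero, coeff_one, if_neg (by simpa using hi)]
  subst hi
  simp

private theorem fk_mono (K : Type) [Field K] {m n : ℕ} (hmn : m ≤ n) :
    PN K 1 0 m ≤ PN K 1 0 n := fun _ hq i j hij => (hq i j hij).trans hmn

private theorem fk_ex (K : Type) [Field K] (q : K[X][X]) : ∃ N, q ∈ PN K 1 0 N := by
  refine ⟨q.support.sup (fun j => (q.coeff j).natDegree) + q.natDegree, ?_⟩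
  intro i j hij
  have hj : q.coeff j ≠ 0 := by
    intro h0
    apply hij
    rw [h0, coeff_zero]
  have h1 : j ≤ q.natDegree := le_natDegree_of_ne_zero hj
  have h2 : i ≤ (q.coeff j).natDegree := le_natDegree_of_ne_zero hij
  have h3 : (q.coeff j).natDegree ≤ q.support.sup (fun j => (q.coeff j).natDegree) :=
    Finset.le_sup (f := fun j => (q.coeff j).natDegree) (mem_support_iff.2 hj)
  omega

theorem filK {K R : Type} [Field K] [CommRing R] [IsDomain R] [Algebra K R] {U V : R} {g : K[X][X]} {e : ℕ}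
    (hg0 : g ≠ 0) (hg : g ∈ PN K 1 0 e) (hg' : ∀ e' < e, g ∉ PN K 1 0 e')
    (hker : ∀ q : K[X][X], evA U V q = 0 ↔ g ∣ q)
    (hfrac : ∀ r : R, ∃ a b : K[X][X], evA U V b ≠ 0 ∧ evA U V b * r = evA U V a) :
    ∃ F : ℕ → Submodule K R, Fil K F ∧
      (∀ k N, e ≤ N → Module.finrank K (F (N + k)) ≤ Module.finrank K (F N) + e * k) ∧
      ∀ k, e ≤ k → e * k ≤ Module.finrank K (F k) + e ^ 2 := by
  have hfr : ∀ N, Module.finrank K ((PN K 1 0 N).map (LL U V 1)) + DD 1 (0 + e) N = DD 1 0 N :=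
    fun N => finrank_im one_pos hg0 hg hg' (fun q => by rw [one_mul]; exact hker q) 0 N
  have hmem : ∀ {N : ℕ} {r : R}, r ∈ (PN K 1 0 N).map (LL U V 1) ↔
      ∃ a ∈ PN K 1 0 N, r = evA U V a := by
    intro N r
    constructor
    · rintro ⟨a, ha, rfl⟩
      exact ⟨a, ha, by rw [LL_apply, one_mul]⟩
    · rintro ⟨a, ha, rfl⟩
      exact ⟨a, ha, by rw [LL_apply, one_mul]⟩
  refine ⟨fun N => (PN K 1 0 N).map (LL U V 1), ⟨?_, ?_, ?_, ?_, ?_⟩, ?_, ?_⟩
  · exact hmem.2 ⟨1, fk_one K, by rw [map_one]⟩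
  · intro m n hmn
    exact Submodule.map_mono (fk_mono K hmn)
  · intro m n a b ha hb
    obtain ⟨a1, ha1, rfl⟩ := hmem.1 ha
    obtain ⟨b1, hb1, rfl⟩ := hmem.1 hb
    exact hmem.2 ⟨a1 * b1, PN_mul ha1 hb1, by rw [map_mul]⟩
  · intro N
    have := fin_PN K 1 0 N one_pos
    exact inferInstance
  · intro r
    obtain ⟨a, b, hb, hab⟩ := hfrac r
    obtain ⟨N1, h1⟩ := fk_ex K b
    obtain ⟨N2, h2⟩ := fk_ex K a
    exact ⟨N1, N2, evA U V b, hmem.2 ⟨b, h1, rfl⟩, hb, hmem.2 ⟨a, h2, hab⟩⟩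
  · intro k N hN
    have h1 := hfr N
    have h2 := hfr (N + k)
    have h4 := num_diff 1 0 e N k one_pos (by omega)
    rw [one_mul] at h4
    show Module.finrank K ((PN K 1 0 (N + k)).map (LL U V 1)) ≤
      Module.finrank K ((PN K 1 0 N).map (LL U V 1)) + e * k
    omega
  · intro k hk
    have h1 := hfr k
    have h4 := num_low 1 0 e k one_pos (by omega)
    rw [one_mul] at h4
    have h6 : e * (0 + e) = e ^ 2 := by ring
    show e * k ≤ Module.finrank K ((PN K 1 0 k).map (LL U V 1)) + e ^ 2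
    omega

end H77.AF
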