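import Pool.Agent.H77.SN.Def

/-! # AF.KerG (about 80 lines): the equation between two elements of a domain of transcendence degree one

`U` transcendental over `K0`, `V` algebraic over `K0[U]`, `R` a domain: the kernel of `K0[X][X] → R`, `q ↦ q(U, V)` is generated by an irreducible `g` which is not in `K0[X]`.

Proof.  The kernel is a prime ideal `P ≠ 0` of the UFD `K0[X][X]` with `P ∩ K0[X] = 0`.  Let `g` be an irreducible factor in `P` of a nonzero element of `P` (`WfDvdMonoid.exists_irreducible_factor` and primality, or `UniqueFactorizationMonoid.induction_on_prime`, or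
`Ideal.IsPrime.exists_mem_prime_of_ne_bot`).  If `q ∈ P` and `g ∤ q`: `g` is not constant in `X`, it is primitive (irreducible), so irreducible over the field `FractionRing K0[X]` (Gauss: `Polynomial.IsPrimitive.irreducible_iff_irreducible_map_fraction_map`), `g ∤ q` there
(`Polynomial.IsPrimitive.dvd_iff_fraction_map_dvd_fraction_map`), so `g`, `q` are coprime over the fraction field and `a g + b q = c` with `c ∈ K0[X]`, `c ≠ 0` after clearing denominators; `c ∈ P`: contradiction. -/

namespace H77.AF

open Polynomial H77.SN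

theorem ker_g {K0 R : Type} [Field K0] [CommRing R] [IsDomain R] [Algebra K0 R] {U V : R}
    (hU : Transcendental K0 U) (hV : ∃ G : K0[X][X], G ≠ 0 ∧ evA U V G = 0) :
    ∃ g : K0[X][X], Irreducible g ∧ (∀ c : K0[X], g ≠ C c) ∧ ∀ q : K0[X][X], evA U V q = 0 ↔ g ∣ q := by
  classical
  have inj : ∀ c : K0[X], aeval U c = 0 → c = 0 := by
    intro c hc
    by_contra h
    exact hU ⟨c, h, hc⟩
  have hP : (RingHom.ker (evA (K := K0) U V)).IsPrime := RingHom.ker_isPrime _
  have hPne : RingHom.ker (evA (K := K0) U V) ≠ ⊥ := by
    obtain ⟨G, hG, hG0⟩ := hV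
    intro h
    apply hG
    have : G ∈ RingHom.ker (evA (K := K0) U V) := hG0
    rw [h] at this
    simpa using this
  obtain ⟨g, hgP, hgp⟩ := hP.exists_mem_prime_of_ne_bot hPne
  have hg0 : evA (K := K0) U V g = 0 := hgP
  have hgC : ∀ c : K0[X], g ≠ C c := by
    intro c h
    have h1 : aeval U c = 0 := by
      rw [h, evA_C] at hg0
      exact hg0
    exact hgp.ne_zero (by rw [h, inj c h1, C_0])
  have hdeg : g.natDegree ≠ 0 := fun h => hgC _ (eq_C_of_natDegree_eq_zero h)
  have hprim : g.IsPrimitive := hgp.irreducible.isPrimitive hdeg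
  have hirr : Irreducible (g.map (algebraMap K0[X] (FractionRing K0[X]))) :=
    (hprim.irreducible_iff_irreducible_map_fraction_map (K := FractionRing K0[X])).1 hgp.irreducible
  refine ⟨g, hgp.irreducible, hgC, fun q => ⟨fun hq => ?_, ?_⟩⟩
  · rw [hprim.dvd_iff_fraction_map_dvd_fraction_map (FractionRing K0[X])]
    by_contra hnd
    obtain ⟨a, b, hab⟩ := (hirr.coprime_iff_not_dvd).2 hnd
    obtain ⟨c, hc0, hc⟩ := IsLocalization.integerNormalization_spec (nonZeroDivisors K0[X]) a
    obtain ⟨d, hd0, hd⟩ := IsLocalization.integerNormalization_spec (nonZeroDivisors K0[X]) b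
    have hinj : Function.Injective (algebraMap K0[X] (FractionRing K0[X])) :=
      IsFractionRing.injective _ _
    have key : C (c * d) = C d * IsLocalization.integerNormalization (nonZeroDivisors K0[X]) a * g
        + C c * IsLocalization.integerNormalization (nonZeroDivisors K0[X]) b * q := by
      apply map_injective _ hinj
      rw [Algebra.smul_def, Polynomial.algebraMap_apply] at hc hd
      rw [Polynomial.map_add, Polynomial.map_mul, Polynomial.map_mul, Polynomial.map_mul,
        Polynomial.map_mul, hc, hd, map_C, map_C, map_C, map_mul, C_mul]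
      linear_combination -(C (algebraMap K0[X] (FractionRing K0[X]) c) *
        C (algebraMap K0[X] (FractionRing K0[X]) d)) * hab
    have h1 := congrArg (evA (K := K0) U V) key
    rw [map_add, evA_C, map_mul _ _ g, map_mul _ _ q, hg0, hq, mul_zero, mul_zero, add_zero] at h1
    rw [mem_nonZeroDivisors_iff_ne_zero] at hc0 hd0
    exact mul_ne_zero hc0 hd0 (inj _ h1)
  · rintro ⟨r, rfl⟩
    rw [map_mul, hg0, zero_mul]

end H77.AF
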