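import Pool.Agent.H77.SN.Def

/-! # AF.KerK (about 120 lines): extension of the field

`K ⊇ K0`.  `kerK`: write `q ∈ K[X][X]` as `∑ k_i q_i`, `q_i ∈ K0[X][X]`, with `k_i ∈ K` linearly independent over `K0` (`Basis.ofVectorSpace K0 K`, coefficientwise: `q_i` has the coefficients `(basis.repr (coefficient of q)) i`); then
`evA (1 ⊗ U) (1 ⊗ V) q = ∑ k_i ⊗ evA U V q_i`, zero iff all `evA U V q_i = 0` (`K ⊗ R` is free over `R` with basis `k_i ⊗ 1`), iff `g ∣ q_i` for all `i`; this gives `g_K ∣ q`; the converse from `evA (1 ⊗ U) (1 ⊗ V) (g_K) = 1 ⊗ evA U V g = 0`.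
`fracK`: for a pure tensor `k ⊗ r` take `b(U, V)`, for a sum the product of the two denominators (`TensorProduct.induction_on`).  `algK`: make `K ⊗ R` a `K[X]`-algebra by `1 ⊗ U`; pure tensors are algebraic (`G` for `r` over `K0` mapped to `K`, `G_K ≠ 0`), sums of
algebraic elements are algebraic (domain).  `trK`: `p ∈ K[X]`, `aeval (1 ⊗ U) p = 0`: coefficientwise as in `kerK`. -/

namespace H77.AF

open Polynomial TensorProduct H77.SN

variable {K0 K R : Type} [Field K0] [Field K] [Algebra K0 K] [CommRing R] [Algebra K0 R] {U V : R}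

/-- the polynomial over `K` -/
noncomputable def gK (K : Type) [Field K] [Algebra K0 K] (g : K0[X][X]) : K[X][X] :=
  g.map (mapRingHom (algebraMap K0 K))

private theorem gK_mul (a b : K0[X][X]) : gK K (a * b) = gK K a * gK K b := by
  unfold gK; rw [Polynomial.map_mul]

private theorem gK_add (a b : K0[X][X]) : gK K (a + b) = gK K a + gK K b := by
  unfold gK; rw [Polynomial.map_add]

private theorem gK_inj {a b : K0[X][X]} (h : gK K a = gK K b) : a = b := by
  unfold gK at h
  exact Polynomial.map_injective _ (Polynomial.map_injective _ (algebraMap K0 K).injective) h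

/-- one variable: evaluation after extension of the field -/
private theorem aeval_K (p : K0[X]) :
    aeval ((1 : K) ⊗ₜ[K0] U) (p.map (algebraMap K0 K)) = (1 : K) ⊗ₜ[K0] (aeval U p) := by
  rw [aeval_map_algebraMap]
  have h1 := Polynomial.aeval_algHom_apply (Algebra.TensorProduct.includeRight : R →ₐ[K0] K ⊗[K0] R) U p
  simpa using h1

private theorem evA_gK (q : K0[X][X]) :
    evA ((1 : K) ⊗ₜ[K0] U) ((1 : K) ⊗ₜ[K0] V) (gK K q) = (1 : K) ⊗ₜ[K0] (evA U V q) := by
  induction q using Polynomial.induction_on' with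
  | add p q hp hq => rw [gK_add, map_add, map_add, hp, hq, TensorProduct.tmul_add]
  | monomial n a =>
    have h1 : gK K (monomial n a) = C (a.map (algebraMap K0 K)) * X ^ n := by
      unfold gK
      rw [map_monomial, ← C_mul_X_pow_eq_monomial]
      rfl
    rw [h1, ← C_mul_X_pow_eq_monomial, map_mul, map_mul, map_pow, map_pow, evA_C, evA_X, evA_C, evA_X, aeval_K]
    rw [Algebra.TensorProduct.tmul_pow, one_pow, Algebra.TensorProduct.tmul_mul_tmul, one_mul]

private theorem evA_CC_gK (k : K) (q : K0[X][X]) :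
    evA ((1 : K) ⊗ₜ[K0] U) ((1 : K) ⊗ₜ[K0] V) (C (C k) * gK K q) = k ⊗ₜ[K0] (evA U V q) := by
  rw [map_mul, evA_gK, evA_C, aeval_C, Algebra.TensorProduct.algebraMap_apply,
    Algebra.TensorProduct.tmul_mul_tmul, one_mul, mul_one]
  rfl

private theorem rep1 {ι : Type*} (b : Module.Basis ι K0 K) (p : K[X]) :
    ∃ f : ι →₀ K0[X], p = f.sum fun i p0 => C (b i) * p0.map (algebraMap K0 K) := by
  classical
  induction p using Polynomial.induction_on' with
  | add p q hp hq =>
    obtain ⟨f, hf⟩ := hp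
    obtain ⟨f', hf'⟩ := hq
    refine ⟨f + f', ?_⟩
    rw [Finsupp.sum_add_index' (by intro i; simp) (by intro i x y; rw [Polynomial.map_add, mul_add]), ← hf, ← hf']
  | monomial n a =>
    refine ⟨(b.repr a).mapRange (fun c => monomial n c) (by simp), ?_⟩
    rw [Finsupp.sum_mapRange_index (by intro i; simp)]
    conv_lhs => rw [← b.linearCombination_repr a]
    rw [Finsupp.linearCombination_apply, Finsupp.sum, Finsupp.sum, map_sum]
    refine Finset.sum_congr rfl fun i _ => ?_
    rw [map_monomial, C_mul_monomial, Algebra.smul_def, mul_comm]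

private theorem rep2 {ι : Type*} (b : Module.Basis ι K0 K) (p : K[X][X]) :
    ∃ f : ι →₀ K0[X][X], p = f.sum fun i p0 => C (C (b i)) * gK K p0 := by
  classical
  induction p using Polynomial.induction_on' with
  | add p q hp hq =>
    obtain ⟨f, hf⟩ := hp
    obtain ⟨f', hf'⟩ := hq
    refine ⟨f + f', ?_⟩
    rw [Finsupp.sum_add_index' (by intro i; simp [gK]) (by intro i x y; rw [gK_add, mul_add]), ← hf, ← hf']
  | monomial n a =>
    obtain ⟨f, hf⟩ := rep1 b a
    refine ⟨f.mapRange (fun c => monomial n c) (by simp), ?_⟩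
    rw [Finsupp.sum_mapRange_index (by intro i; simp [gK])]
    conv_lhs => rw [hf]
    rw [Finsupp.sum, Finsupp.sum, map_sum]
    refine Finset.sum_congr rfl fun i _ => ?_
    unfold gK
    rw [map_monomial, C_mul_monomial]
    rfl

private theorem evA_sum {ι : Type*} (b : Module.Basis ι K0 K) (f : ι →₀ K0[X][X]) :
    evA ((1 : K) ⊗ₜ[K0] U) ((1 : K) ⊗ₜ[K0] V) (f.sum fun i p0 => C (C (b i)) * gK K p0) =
      f.sum fun i p0 => b i ⊗ₜ[K0] (evA U V p0) := by
  rw [Finsupp.sum, Finsupp.sum, map_sum]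
  exact Finset.sum_congr rfl fun i _ => evA_CC_gK _ _

private theorem one_tmul_ne {r : R} (h : r ≠ 0) : (1 : K) ⊗ₜ[K0] r ≠ 0 := by
  intro h1
  apply h
  have h2 := Algebra.TensorProduct.includeRight_injective (R := K0) (A := K) (B := R) (algebraMap K0 K).injective
  apply h2
  rw [map_zero]
  exact h1

theorem kerK {g : K0[X][X]} (hker : ∀ q : K0[X][X], evA U V q = 0 ↔ g ∣ q) (q : K[X][X]) :
    evA ((1 : K) ⊗ₜ[K0] U) ((1 : K) ⊗ₜ[K0] V) q = 0 ↔ gK K g ∣ q := by
  classical
  constructor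
  · intro h
    obtain ⟨f, hf⟩ := rep2 (Module.Basis.ofVectorSpace K0 K) q
    rw [hf, evA_sum] at h
    have h1 : (f.mapRange (fun c => evA U V c) (map_zero _)).sum
        (fun i n => (Module.Basis.ofVectorSpace K0 K) i ⊗ₜ[K0] n) = 0 := by
      rw [Finsupp.sum_mapRange_index (by intro i; simp)]
      exact h
    have h2 := TensorProduct.sum_tmul_basis_left_eq_zero _ _ h1
    rw [hf]
    refine Finset.dvd_sum fun i _ => ?_
    have h3 : evA U V (f i) = 0 := by
      have := DFunLike.congr_fun h2 i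
      simpa using this
    obtain ⟨c, hc⟩ := (hker _).1 h3
    change gK K g ∣ C (C _) * gK K (f i)
    rw [hc, gK_mul]
    exact Dvd.intro_left (C (C _) * gK K c) (by ring)
  · rintro ⟨c, rfl⟩
    rw [map_mul, evA_gK, (hker g).2 dvd_rfl, TensorProduct.tmul_zero, zero_mul]

theorem fracK [IsDomain (K ⊗[K0] R)] (hfrac : ∀ r : R, ∃ a b : K0[X][X], evA U V b ≠ 0 ∧ evA U V b * r = evA U V a)
    (r : K ⊗[K0] R) : ∃ a b : K[X][X], evA ((1 : K) ⊗ₜ[K0] U) ((1 : K) ⊗ₜ[K0] V) b ≠ 0 ∧
      evA ((1 : K) ⊗ₜ[K0] U) ((1 : K) ⊗ₜ[K0] V) b * r = evA ((1 : K) ⊗ₜ[K0] U) ((1 : K) ⊗ₜ[K0] V) a := by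
  induction r using TensorProduct.induction_on with
  | zero => exact ⟨0, 1, by rw [map_one]; exact one_ne_zero, by rw [map_zero, mul_zero]⟩
  | tmul k r =>
    obtain ⟨a, b, hb, hab⟩ := hfrac r
    refine ⟨C (C k) * gK K a, gK K b, ?_, ?_⟩
    · rw [evA_gK]
      exact one_tmul_ne hb
    · rw [evA_gK, evA_CC_gK, Algebra.TensorProduct.tmul_mul_tmul, one_mul, hab]
  | add x y hx hy =>
    obtain ⟨a, b, hb, hab⟩ := hx
    obtain ⟨a', b', hb', hab'⟩ := hy
    refine ⟨a * b' + a' * b, b * b', ?_, ?_⟩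
    · rw [map_mul]
      exact mul_ne_zero hb hb'
    · rw [map_mul, map_add, map_mul, map_mul, ← hab, ← hab']
      ring

theorem algK [IsDomain (K ⊗[K0] R)] (hA : Alg1 K0 U) : Alg1 K ((1 : K) ⊗ₜ[K0] U) := by
  let _ : Algebra K[X] (K ⊗[K0] R) := ((aeval ((1 : K) ⊗ₜ[K0] U) : K[X] →ₐ[K] K ⊗[K0] R) : K[X] →+* K ⊗[K0] R).toAlgebra
  have key : ∀ r : K ⊗[K0] R, IsAlgebraic K[X] r ↔ ∃ G : K[X][X], G ≠ 0 ∧ evA ((1 : K) ⊗ₜ[K0] U) r G = 0 :=
    fun r => Iff.rfl
  intro r
  rw [← key]
  induction r using TensorProduct.induction_on with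
  | zero => exact isAlgebraic_zero
  | tmul k r =>
    obtain ⟨G, hG0, hG⟩ := hA r
    have h1 : IsAlgebraic K[X] ((1 : K) ⊗ₜ[K0] r) := by
      rw [key]
      refine ⟨gK K G, ?_, ?_⟩
      · intro h
        apply hG0
        apply gK_inj (K := K)
        rw [h]
        simp [gK]
      · rw [evA_gK, hG, TensorProduct.tmul_zero]
    have h2 : IsAlgebraic K[X] (k ⊗ₜ[K0] (1 : R)) := by
      have h3 : k ⊗ₜ[K0] (1 : R) = algebraMap K[X] (K ⊗[K0] R) (C k) := by
        change _ = aeval ((1 : K) ⊗ₜ[K0] U) (C k)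
        rw [aeval_C, Algebra.TensorProduct.algebraMap_apply]
        rfl
      rw [h3]
      exact isAlgebraic_algebraMap _
    have h4 : k ⊗ₜ[K0] r = (k ⊗ₜ[K0] (1 : R)) * ((1 : K) ⊗ₜ[K0] r) := by
      rw [Algebra.TensorProduct.tmul_mul_tmul, one_mul, mul_one]
    rw [h4]
    exact h2.mul h1
  | add x y hx hy => exact hx.add hy

theorem trK (hU : Transcendental K0 U) : Transcendental K ((1 : K) ⊗ₜ[K0] U) := by
  classical
  rw [transcendental_iff]
  intro p hp
  obtain ⟨f, hf⟩ := rep1 (Module.Basis.ofVectorSpace K0 K) p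
  have h0 : (f.mapRange (fun c => aeval U c) (map_zero _)).sum
      (fun i n => (Module.Basis.ofVectorSpace K0 K) i ⊗ₜ[K0] n) = 0 := by
    rw [Finsupp.sum_mapRange_index (by intro i; simp), ← hp, hf, Finsupp.sum, Finsupp.sum, map_sum]
    refine Finset.sum_congr rfl fun i _ => ?_
    rw [map_mul, aeval_K, aeval_C, Algebra.TensorProduct.algebraMap_apply,
      Algebra.TensorProduct.tmul_mul_tmul, one_mul, mul_one]
    rfl
  have h2 := TensorProduct.sum_tmul_basis_left_eq_zero _ _ h0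
  have h4 : f = 0 := by
    ext1 i
    have h3 : aeval U (f i) = 0 := by
      have := DFunLike.congr_fun h2 i
      simpa using this
    exact (transcendental_iff.1 hU) _ h3
  rw [hf, h4, Finsupp.sum_zero_index]

/-- the weighted degree does not change -/
theorem gK_mem {g : K0[X][X]} {w h N : ℕ} : gK K g ∈ PN K w h N ↔ g ∈ PN K0 w h N := by
  have h1 : ∀ i j, ((gK K g).coeff j).coeff i = algebraMap K0 K ((g.coeff j).coeff i) := by
    intro i j
    unfold gK
    rw [coeff_map, coe_mapRingHom, coeff_map]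
  rw [mem_PN, mem_PN]
  constructor
  · intro h i j hij
    apply h i j
    rw [h1]
    intro h2
    exact hij ((map_eq_zero _).1 h2)
  · intro h i j hij
    apply h i j
    intro h2
    apply hij
    rw [h1, h2, map_zero]

end H77.AF
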