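import Pool.Agent.H77.SN.Def
import Mathlib.RingTheory.FiniteType
import Mathlib.FieldTheory.PrimitiveElement
import Mathlib.FieldTheory.Perfect
import Mathlib.GroupTheory.CosetCover
import Mathlib.RingTheory.Localization.FractionRing

/-! # AF.Prim (about 120 lines): a second generator of the function field (primitive element)

`R` a domain of finite type over `K0` (characteristic zero), `U` transcendental, every element of `R` algebraic over `K0[U]`.  There is `V ∈ R` such that every `r ∈ R` is a quotient of two polynomials in `U, V`.

Proof.  `L` = the field of fractions of `R`, `F` = the field `K0(U)` (`IntermediateField.adjoin K0 {U} : IntermediateField K0 L`).  `L` is finite over `F` (generated as a field by the finitely many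
generators `r_1, ..., r_n` of `R`, algebraic over `F` by `hA`) and separable (characteristic zero).  There is a primitive element `V ∈ R` of `L` over `F`:
there are only finitely many intermediate fields of `L / F` (`Field.finite_intermediateField_of_exists_primitive_element`, `Field.exists_primitive_element`), and
if `R` were contained in the union of the proper ones: the `K0`-vector space `R` would be a finite union of proper subspaces over the infinite field `K0` (`Subspace.exists_eq_top_of_iUnion_eq_univ`), so `R`, hence `L`, would be contained in one of them.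
With `F(V) = L`: every `r ∈ R` is a quotient of two elements of `K0[U, V]` (`IntermediateField.mem_adjoin_iff_div`). -/

namespace H77.AF

open Polynomial H77.SN

section
variable {K0 R : Type} [Field K0] [CommRing R] [IsDomain R] [Algebra K0 R]

/-- an intermediate field which contains `R` is everything -/
private theorem top_of {F : Type} [Field F] [Algebra F (FractionRing R)] {E : IntermediateField F (FractionRing R)}
    (h : ∀ r : R, algebraMap R (FractionRing R) r ∈ E) : E = ⊤ := by
  rw [eq_top_iff]
  intro x _
  obtain ⟨a, b, _, rfl⟩ := IsFractionRing.div_surjective (A := R) x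
  exact E.div_mem (h a) (h b)

/-- elements of `R` are integral over `K0(U)` -/
private theorem integral_of {U : R} (hU : Transcendental K0 U) (hA : Alg1 K0 U) (r : R) :
    IsIntegral (IntermediateField.adjoin K0 {algebraMap R (FractionRing R) U}) (algebraMap R (FractionRing R) r) := by
  obtain ⟨G, hG, h0⟩ := hA r
  set L := FractionRing R
  set U' : L := algebraMap R L U with hU'
  let F := IntermediateField.adjoin K0 {U'}
  have hm : U' ∈ F := IntermediateField.subset_adjoin K0 {U'} (Set.mem_singleton U')
  let φ : K0[X] →ₐ[K0] F := aeval (⟨U', hm⟩ : F)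
  have hφ : ∀ p : K0[X], (algebraMap F L) (φ p) = algebraMap R L (aeval U p) := by
    intro p
    rw [← aeval_algebraMap_apply, ← aeval_algebraMap_apply]
    rfl
  have hinj : Function.Injective (φ : K0[X] →+* F) := by
    rw [injective_iff_map_eq_zero]
    intro p hp
    have h1 := hφ p
    have h2 : φ p = 0 := hp
    rw [h2, map_zero] at h1
    exact (transcendental_iff.1 hU) p ((map_eq_zero_iff _ (IsFractionRing.injective R L)).1 h1.symm)
  rw [← isAlgebraic_iff_isIntegral]
  refine ⟨G.map (φ : K0[X] →+* F), (Polynomial.map_ne_zero_iff hinj).2 hG, ?_⟩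
  rw [aeval_def, eval₂_map]
  have h3 : (algebraMap F L).comp (φ : K0[X] →+* F) =
      (algebraMap R L).comp ((aeval U : K0[X] →ₐ[K0] R) : K0[X] →+* R) := RingHom.ext hφ
  have h4 := congrArg (algebraMap R L) h0
  rw [evA_apply, hom_eval₂, map_zero] at h4
  exact (congrArg (fun f => eval₂ f (algebraMap R L r) G) h3).trans h4

private theorem exists_prim [CharZero K0] [Algebra.FiniteType K0 R] {U : R} (hU : Transcendental K0 U) (hA : Alg1 K0 U) :
    ∃ V : R, IntermediateField.adjoin K0 {algebraMap R (FractionRing R) U, algebraMap R (FractionRing R) V} = ⊤ := by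
  classical
  let L := FractionRing R
  let U' : L := algebraMap R L U
  let F := IntermediateField.adjoin K0 {U'}
  haveI : CharZero F := charZero_of_injective_algebraMap (algebraMap K0 F).injective
  haveI hfd : FiniteDimensional F L := by
    obtain ⟨s, hs⟩ := (Algebra.FiniteType.out : (⊤ : Subalgebra K0 R).FG)
    let S : Set L := (algebraMap R L) '' (s : Set R)
    haveI : Finite S := (s.finite_toSet.image (algebraMap R L)).to_subtype
    haveI h1 : FiniteDimensional F (IntermediateField.adjoin F S) := by
      refine IntermediateField.finiteDimensional_adjoin ?_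
      rintro _ ⟨r, _, rfl⟩
      exact integral_of hU hA r
    have h2 : IntermediateField.adjoin F S = ⊤ := by
      refine top_of fun r => ?_
      let Q : Subalgebra K0 R := ((IntermediateField.adjoin F S).toSubalgebra.restrictScalars K0).comap
        (IsScalarTower.toAlgHom K0 R L)
      have h3 : Algebra.adjoin K0 (s : Set R) ≤ Q := by
        refine Algebra.adjoin_le fun x hx => ?_
        exact IntermediateField.subset_adjoin F S ⟨x, hx, rfl⟩
      rw [hs] at h3
      exact h3 (Algebra.mem_top (x := r))
    rw [h2] at h1
    exact IntermediateField.topEquiv.toLinearEquiv.finiteDimensional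
  have hfin : Finite (IntermediateField F L) :=
    Field.finite_intermediateField_of_exists_primitive_element F L (Field.exists_primitive_element F L)
  obtain ⟨V, hV⟩ : ∃ V : R, IntermediateField.adjoin F {algebraMap R L V} = ⊤ := by
    by_contra hne
    push Not at hne
    let W : {E : IntermediateField F L // E ≠ ⊤} → Subspace K0 R := fun E =>
      (Subalgebra.toSubmodule (E.1.toSubalgebra.restrictScalars K0)).comap (IsScalarTower.toAlgHom K0 R L).toLinearMap
    have hc : ⋃ i, (W i : Set R) = Set.univ := by
      rw [Set.eq_univ_iff_forall]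
      intro r
      rw [Set.mem_iUnion]
      exact ⟨⟨_, hne r⟩, IntermediateField.subset_adjoin F _ (Set.mem_singleton _)⟩
    obtain ⟨⟨E, hE⟩, hi⟩ := Subspace.exists_eq_top_of_iUnion_eq_univ hc
    apply hE
    refine top_of fun r => ?_
    have h2 : r ∈ W ⟨E, hE⟩ := by
      rw [hi]
      exact Submodule.mem_top
    exact h2
  refine ⟨V, ?_⟩
  have h5 := IntermediateField.adjoin_adjoin_left K0 {U'} {algebraMap R L V}
  rw [hV] at h5
  rw [show ({algebraMap R L U, algebraMap R L V} : Set L) = {U'} ∪ {algebraMap R L V} from rfl, ← h5]
  rfl

end

theorem prim {K0 R : Type} [Field K0] [CharZero K0] [CommRing R] [IsDomain R] [Algebra K0 R] [Algebra.FiniteType K0 R]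
    {U : R} (hU : Transcendental K0 U) (hA : Alg1 K0 U) :
    ∃ V : R, ∀ r : R, ∃ a b : K0[X][X], evA U V b ≠ 0 ∧ evA U V b * r = evA U V a := by
  obtain ⟨V, hV⟩ := exists_prim hU hA
  refine ⟨V, fun r => ?_⟩
  let L := FractionRing R
  have hinj : Function.Injective (algebraMap R L) := IsFractionRing.injective R L
  have hev : ∀ q : K0[X][X], algebraMap R L (evA U V q) = evA (algebraMap R L U) (algebraMap R L V) q :=
    fun q => map_evA (IsScalarTower.toAlgHom K0 R L) U V q
  have hr : algebraMap R L r ∈ IntermediateField.adjoin K0 {algebraMap R L U, algebraMap R L V} := by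
    rw [hV]
    exact IntermediateField.mem_top
  have hle : Algebra.adjoin K0 {algebraMap R L U, algebraMap R L V} ≤
      (evA (K := K0) (algebraMap R L U) (algebraMap R L V)).range := by
    refine Algebra.adjoin_le ?_
    rintro x (rfl | hx)
    · exact ⟨C X, by rw [AlgHom.toRingHom_eq_coe, RingHom.coe_coe, evA_C, aeval_X]⟩
    · rw [Set.mem_singleton_iff] at hx
      rw [hx]
      exact ⟨X, by rw [AlgHom.toRingHom_eq_coe, RingHom.coe_coe, evA_X]⟩
  obtain ⟨x, hx, y, hy, e⟩ := IntermediateField.mem_adjoin_iff_div.1 hr
  obtain ⟨a, rfl⟩ := hle hx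
  obtain ⟨b, rfl⟩ := hle hy
  have ea : (evA (K := K0) (algebraMap R L U) (algebraMap R L V)) a = algebraMap R L (evA U V a) := (hev a).symm
  have eb : (evA (K := K0) (algebraMap R L U) (algebraMap R L V)) b = algebraMap R L (evA U V b) := (hev b).symm
  by_cases h0 : evA U V b = 0
  · refine ⟨0, 1, ?_, ?_⟩
    · rw [map_one]
      exact one_ne_zero
    · rw [map_one, one_mul, map_zero]
      apply hinj
      rw [map_zero, e]
      show evA (algebraMap R L U) (algebraMap R L V) a / evA (algebraMap R L U) (algebraMap R L V) b = 0
      rw [eb, h0, map_zero, div_zero]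
  · refine ⟨a, b, h0, hinj ?_⟩
    have h1 : algebraMap R L (evA U V b) ≠ 0 := (map_ne_zero_iff _ hinj).2 h0
    rw [map_mul, e]
    show algebraMap R L (evA U V b) * (evA (algebraMap R L U) (algebraMap R L V) a /
      evA (algebraMap R L U) (algebraMap R L V) b) = algebraMap R L (evA U V a)
    rw [ea, eb, ← mul_div_assoc, mul_div_cancel_left₀ _ h1]

end H77.AF
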