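import Pool.Agent.H77.AF.Spz
import Pool.Agent.H77.AF.TD
import Pool.Agent.H77.AF.Prim
import Pool.Agent.H77.AF.KerG
import Pool.Agent.H77.AF.KerK
import Pool.Agent.H77.AF.FilK
import Pool.Agent.H77.SN.Crv

/-! # AF.RelA : many points of an affine curve are a fibre up to boundedly many points, uniformly in the field -/

namespace H77.AF

open Polynomial H77.SN H68.BB TensorProduct

private theorem exists_PN {K : Type} [Field K] (g : K[X][X]) : ∃ n, g ∈ PN K 1 0 n := by
  refine ⟨g.natDegree + g.support.sup (fun j => (g.coeff j).natDegree), ?_⟩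
  intro i j hij
  have h1 : j ∈ g.support := by
    rw [mem_support_iff]
    intro h0
    rw [h0, coeff_zero] at hij
    exact hij rfl
  have h2 : i ≤ (g.coeff j).natDegree := le_natDegree_of_ne_zero hij
  have h3 : (g.coeff j).natDegree ≤ g.support.sup (fun j => (g.coeff j).natDegree) :=
    Finset.le_sup (f := fun j => (g.coeff j).natDegree) h1
  have h4 : j ≤ g.natDegree := le_natDegree_of_mem_supp j h1
  omega

/-- a Galois stable multiset of points which all leave the variety at `π1` -/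
private theorem rel_of {K : Type} [Field K] {D : PD K} {S : Multiset D.Y} (hstab : ∀ σ, S.map (D.act σ) = S)
    {π0 π1 : Place K (Om K)} {m c : ℕ} (P : Fin m → D.X) (Q : Fin c → D.X)
    (h0 : Fibre (k := 1) π0 (S.map fun y _ => y)
      ((Finset.univ.val.map fun i _ => P i) + (Finset.univ.val.map fun l _ => Q l)))
    (h1 : ∀ y ∈ S, D.off π1 y) :
    up ((∑ i, Finsupp.single (P i) 1) + ∑ l, Finsupp.single (Q l) 1) ∈ RatEq D 1 := by
  apply AddSubgroup.subset_closure
  refine ⟨S.map fun y _ => y, π0, π1, _, 0, ?_, h0, ?_, ?_⟩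
  · intro σ
    rw [Multiset.map_map]
    conv_rhs => rw [← hstab σ, Multiset.map_map]
    rfl
  · refine ⟨0, _, (zero_add _).symm, Multiset.Rel.zero, ?_⟩
    intro y hy
    obtain ⟨y', hy', rfl⟩ := Multiset.mem_map.1 hy
    exact ⟨0, h1 y' hy'⟩
  · unfold cyc
    rw [Multiset.map_zero, Multiset.sum_zero, sub_zero, Multiset.map_add, Multiset.sum_add, Multiset.map_map,
      Multiset.map_map, map_add, map_sum, map_sum]
    have hup : ∀ x : D.X, up (Finsupp.single x 1) = Finsupp.single (fun _ => x) 1 :=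
      fun x => Finsupp.mapDomain_single
    simp only [hup]
    rfl

theorem relA (K0 R : Type) [Field K0] [IsAlgClosed K0] [CharZero K0] [CommRing R] [IsDomain R] [Algebra K0 R]
    [Algebra.FiniteType K0 R] {U : R} (hU : Transcendental K0 U) (hA : Alg1 K0 U) :
    ∃ C : ℕ, ∀ A : ℕ, ∃ m, A ≤ m ∧ ∀ (K : Type) [Field K] [IsAlgClosed K] [Algebra K0 K] (P : Fin m → R →ₐ[K0] K),
      Function.Injective P → ∃ (c : ℕ) (Q : Fin c → R →ₐ[K0] K), c ≤ C ∧
        up (D := pts K0 K R) ((∑ i, Finsupp.single (P i) 1) + ∑ l, Finsupp.single (Q l) 1) ∈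
          tor (RatEq (pts K0 K R) 1) := by
  classical
  obtain ⟨V, hV⟩ := prim hU hA
  obtain ⟨g, hgi, hgc, hker⟩ := ker_g hU (hA V)
  obtain ⟨n, hgn⟩ := exists_PN g
  obtain ⟨e, -, hge, hgmin⟩ := exists_deg hgn
  have he1 : 1 ≤ e := deg_pos one_pos hge hgc
  refine ⟨e ^ 2 + 1, fun A => ?_⟩
  obtain ⟨k, hk⟩ : ∃ k, k = A + 1 + (e ^ 2 + 1) + e := ⟨_, rfl⟩
  have hek : k ≤ e * k := Nat.le_mul_of_pos_left k he1
  obtain ⟨m, hm⟩ : ∃ m, m = e * k - (e ^ 2 + 1) := ⟨_, rfl⟩
  refine ⟨m, by omega, ?_⟩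
  intro K _ _ _ P hP
  have hdom : IsDomain (K ⊗[K0] R) := tens_dom K0 K R
  have hg0 : g ≠ 0 := hgi.ne_zero
  have hg0' : gK K g ≠ 0 := by
    unfold gK
    rw [Ne, Polynomial.map_eq_zero_iff]
    · exact hg0
    · exact map_injective _ (algebraMap K0 K).injective
  obtain ⟨F, hF, hdiff, hlow⟩ := filK (U := (1 : K) ⊗ₜ[K0] U) (V := (1 : K) ⊗ₜ[K0] V) hg0' (gK_mem.2 hge)
    (fun e' he' h => hgmin e' he' (gK_mem.1 h)) (kerK hker) (fracK hV)
  let p : Fin m → K ⊗[K0] R →ₐ[K] K := fun i =>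
    Algebra.TensorProduct.lift (AlgHom.id K K) (P i) (fun _ _ => Commute.all _ _)
  have hp : ∀ i r, p i (1 ⊗ₜ r) = P i r := by
    intro i r
    change Algebra.TensorProduct.lift _ _ _ _ = _
    rw [Algebra.TensorProduct.lift_tmul, map_one, one_mul]
  have hfr : m < Module.finrank K (F k) := by
    have := hlow k (by omega)
    omega
  have := hF.fin k
  obtain ⟨Φ, hΦF, hΦ0, hΦp⟩ := exists_phi (F k) hfr p
  have hΦc : ∀ c : K, Φ ≠ algebraMap K (K ⊗[K0] R) c := by
    intro c hc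
    have h1 := hΦp ⟨0, by omega⟩
    rw [hc, AlgHom.commutes] at h1
    have h2 : c = 0 := h1
    rw [h2, map_zero] at hc
    exact hΦ0 hc
  have hAΦ : Alg1 K Φ := alg1 (trK hU) (algK hA) hΦc
  obtain ⟨hSf, hSc⟩ := fin_S hF hΦF hΦ0 hAΦ ⟨e, fun N hN => hdiff k N hN⟩ (lam_tr K)
  let res : (K ⊗[K0] R →ₐ[K] Om K) → (R →ₐ[K0] Om K) := fun y =>
    (y.restrictScalars K0).comp Algebra.TensorProduct.includeRight
  have hres : ∀ y r, res y r = y (1 ⊗ₜ r) := fun _ _ => rfl
  let S : Finset (R →ₐ[K0] Om K) := hSf.toFinset.image res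
  have hScard : S.card ≤ m + (e ^ 2 + 1) := by
    refine Finset.card_image_le.trans ?_
    rw [← Set.ncard_eq_toFinset_card _ hSf]
    omega
  obtain ⟨π0, h0⟩ := place_exists K (0 : K)
  obtain ⟨π1, h1⟩ := place_exists K (1 : K)
  have hπ0 : Rd π0.V π0.φ (tt K) 0 := h0
  have hπ1 : Rd π1.V π1.φ (tt K) 1 := h1
  have hlift : ∀ i, ∃ y ∈ S, ∀ r, Rd π0.V π0.φ (y r) (P i r) := by
    intro i
    obtain ⟨z, hz, hzr⟩ := lift π0 (lam_rd π0 hπ0) (lam_tr K) hΦ0 hAΦ (p i) (hΦp i)
    refine ⟨res z, Finset.mem_image.2 ⟨z, hSf.mem_toFinset.2 hz, rfl⟩, fun r => ?_⟩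
    rw [hres, ← hp i r]
    exact hzr _
  obtain ⟨c, Q, hc, hfib⟩ := fib_of π0 hScard hP hlift
  refine ⟨c, Q, hc, le_tor _ ?_⟩
  -- all points leave the curve at `π1`
  have hoff : ∀ y ∈ S, ∃ r, y r ∉ π1.V := by
    intro y hy
    obtain ⟨z, hz, rfl⟩ := Finset.mem_image.1 hy
    by_contra hcon
    push Not at hcon
    have h2 : ∀ w : K ⊗[K0] R, z w ∈ π1.V := by
      intro w
      induction w using TensorProduct.induction_on with
      | zero => rw [map_zero]; exact π1.V.zero_mem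
      | add a b ha hb => rw [map_add]; exact π1.V.add_mem _ _ ha hb
      | tmul a r =>
        have h3 : (a ⊗ₜ[K0] r : K ⊗[K0] R) = a • (1 ⊗ₜ r) := by
          rw [TensorProduct.smul_tmul', smul_eq_mul, mul_one]
        rw [h3, map_smul, Algebra.smul_def]
        exact π1.V.mul_mem _ _ (π1.const a).choose (hcon r)
    have h3 : z Φ = lam K := hSf.mem_toFinset.1 hz
    exact lam_nm π1 hπ1 (h3 ▸ h2 Φ)
  have hstab : ∀ σ : Om K ≃ₐ[RatFunc K] Om K, S.val.map ((pts K0 K R).act σ) = S.val := by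
    intro σ
    obtain ⟨a, ha⟩ : ∃ a : (R →ₐ[K0] Om K) → (R →ₐ[K0] Om K), a = (pts K0 K R).act σ := ⟨_, rfl⟩
    have har : ∀ y r, a y r = σ (y r) := by
      intro y r
      rw [ha]
      rfl
    rw [← ha]
    have hinj : Function.Injective a := by
      intro y y' hyy
      apply AlgHom.ext
      intro r
      have h2 : a y r = a y' r := congrArg (fun f : R →ₐ[K0] Om K => f r) hyy
      rw [har, har] at h2
      exact σ.injective h2
    have h2 : S.map ⟨_, hinj⟩ = S := by
      apply Finset.eq_of_subset_of_card_le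
      · intro y hy
        obtain ⟨y', hy', rfl⟩ := Finset.mem_map.1 hy
        obtain ⟨z, hz, rfl⟩ := Finset.mem_image.1 hy'
        refine Finset.mem_image.2 ⟨((σ.restrictScalars K : Om K ≃ₐ[K] Om K) : Om K →ₐ[K] Om K).comp z, ?_, ?_⟩
        · rw [Set.Finite.mem_toFinset] at hz ⊢
          change σ (z Φ) = lam K
          have hz' : z Φ = lam K := hz
          rw [hz', lam_fix]
        · apply AlgHom.ext
          intro r
          change _ = a (res z) r
          rw [har]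
          rfl
      · rw [Finset.card_map]
    exact congrArg Finset.val h2
  exact rel_of (D := pts K0 K R) (S := S.val) hstab P Q hfib hoff

end H77.AF
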