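import Pool.Agent.H77.AF.MainPD
import Pool.Agent.H77.AF.RelA
import Pool.Agent.H77.AF.Comps

/-! # AF.FinA : zero-cycles supported on a curve of an affine surface

`S = Spec R` over `K0`.  `hsq`: `(P, P)` is torsion (on an elliptic surface, zero section and fibres at infinity removed, `(P, Q) + (Q, P)` is zero for two points of one fibre).
`halt`: the antisymmetrised products of `k + 1` points are torsion, for all `K ⊇ K0`, with `k` independent of `K`. -/

namespace H77.AF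

open H77.SN H68.BB

private theorem map_up {K : Type} [Field K] {D D' : PD K} (f : D'.X → D.X) {m c : ℕ} (P : Fin m → D'.X)
    (Q : Fin c → D'.X) :
    Finsupp.mapDomain (fun (P : Fin 1 → D'.X) i => f (P i))
      (up ((∑ i, Finsupp.single (P i) 1) + ∑ l, Finsupp.single (Q l) 1)) =
    up ((∑ i, Finsupp.single (f (P i)) 1) + ∑ l, Finsupp.single (f (Q l)) 1) := by
  have hup : ∀ (E : PD K) (x : E.X), up (Finsupp.single x 1) = Finsupp.single (fun _ => x) 1 :=
    fun _ x => Finsupp.mapDomain_single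
  have h1 : ∀ z : Cyc D' 1, Finsupp.mapDomain (fun (P : Fin 1 → D'.X) i => f (P i)) z =
      Finsupp.mapDomain.addMonoidHom (fun (P : Fin 1 → D'.X) i => f (P i)) z := fun _ => rfl
  rw [h1]
  simp only [map_add, map_sum, hup]
  congr 1
  · exact Finset.sum_congr rfl fun i _ => Finsupp.mapDomain_single
  · exact Finset.sum_congr rfl fun i _ => Finsupp.mapDomain_single

/-- one component of the curve -/
private theorem comp_rel {K0 R : Type} [Field K0] [IsAlgClosed K0] [CharZero K0] [CommRing R] [Algebra K0 R]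
    [Algebra.FiniteType K0 R] (p : Ideal R) [p.IsPrime]
    (hp : (∀ r : R ⧸ p, ∃ c : K0, r = algebraMap K0 (R ⧸ p) c) ∨ ∃ U : R ⧸ p, Transcendental K0 U ∧ Alg1 K0 U) :
    ∃ m : ℕ, ∀ (K : Type) [Field K] [IsAlgClosed K] [Algebra K0 K] (P : Fin m → R →ₐ[K0] K), Function.Injective P →
      (∀ i, ∀ r ∈ p, P i r = 0) → ∃ (c : ℕ) (Q : Fin c → R →ₐ[K0] K), c < m ∧
        up (D := pts K0 K R) ((∑ i, Finsupp.single (P i) 1) + ∑ l, Finsupp.single (Q l) 1) ∈
          tor (RatEq (pts K0 K R) 1) := by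
  rcases hp with hp | ⟨U, hU, hA⟩
  · refine ⟨2, fun K _ _ _ P hP hPp => ?_⟩
    exfalso
    have h1 : P 0 = P 1 := by
      apply AlgHom.ext
      intro r
      obtain ⟨c, hc⟩ := hp (Ideal.Quotient.mk p r)
      have h2 : r - algebraMap K0 R c ∈ p := by
        rw [← Ideal.Quotient.eq]
        exact hc
      have h3 : ∀ i, P i r = algebraMap K0 K c := by
        intro i
        have h4 := hPp i _ h2
        rw [map_sub, AlgHom.commutes, sub_eq_zero] at h4
        exact h4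
      rw [h3, h3]
    exact absurd (hP h1) (by decide)
  · have : Algebra.FiniteType K0 (R ⧸ p) :=
      Algebra.FiniteType.of_surjective (Ideal.Quotient.mkₐ K0 p) (Ideal.Quotient.mkₐ_surjective K0 p)
    obtain ⟨C, hC⟩ := relA K0 (R ⧸ p) hU hA
    obtain ⟨m, hm, h⟩ := hC (C + 1)
    refine ⟨m, fun K _ _ _ P hP hPp => ?_⟩
    let P' : Fin m → R ⧸ p →ₐ[K0] K := fun i => Ideal.Quotient.liftₐ p (P i) (hPp i)
    have hP' : ∀ i, (P' i).comp (Ideal.Quotient.mkₐ K0 p) = P i := fun i => by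
      apply AlgHom.ext
      intro r
      rfl
    obtain ⟨c, Q, hc, h1⟩ := h K P' (fun i j hij => hP (by rw [← hP' i, ← hP' j, hij]))
    refine ⟨c, fun l => (Q l).comp (Ideal.Quotient.mkₐ K0 p), by omega, ?_⟩
    have h2 := push (Ideal.Quotient.mkₐ K0 p) (Ideal.Quotient.mkₐ_surjective K0 p) h1
    have h3 := map_up (D := pts K0 K R) (D' := pts K0 K (R ⧸ p))
      (fun y : R ⧸ p →ₐ[K0] K => y.comp (Ideal.Quotient.mkₐ K0 p)) P' Q
    have h4 : up (D := pts K0 K R) ((∑ i, Finsupp.single ((P' i).comp (Ideal.Quotient.mkₐ K0 p)) 1) +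
        ∑ l, Finsupp.single ((Q l).comp (Ideal.Quotient.mkₐ K0 p)) 1) ∈ tor (RatEq (pts K0 K R) 1) :=
      Eq.mp (congrArg (fun w => w ∈ tor (RatEq (pts K0 K R) 1)) h3) h2
    simp only [hP'] at h4
    exact h4

theorem finA {K0 R : Type} [Field K0] [IsAlgClosed K0] [CharZero K0] [CommRing R] [IsDomain R] [Algebra K0 R]
    [Algebra.FiniteType K0 R] (T X : R) (hint : ∀ r : R, IsIntegral (Algebra.adjoin K0 ({T, X} : Set R)) r)
    (hsq : ∀ (K : Type) [Field K] [IsAlgClosed K] [Algebra K0 K] (P : R →ₐ[K0] K),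
      (Finsupp.single ![P, P] 1 : Cyc (pts K0 K R) 2) ∈ tor (RatEq (pts K0 K R) 2)) {k : ℕ}
    (halt : ∀ (K : Type) [Field K] [IsAlgClosed K] [Algebra K0 K] (P : Fin (k + 1) → R →ₐ[K0] K),
      ∑ σ : Equiv.Perm (Fin (k + 1)), (Equiv.Perm.sign σ : ℤ) •
        (Finsupp.single (fun i => P (σ i)) 1 : Cyc (pts K0 K R) (k + 1)) ∈ tor (RatEq (pts K0 K R) (k + 1)))
    {G : R} (hG : G ≠ 0) :
    ∃ M : ℕ, 0 < M ∧ ∀ (K : Type) [Field K] [IsAlgClosed K] [Algebra K0 K] (z : Fin M → Cyc1 (pts K0 K R)),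
      (∀ i, ∀ P : R →ₐ[K0] K, P ∈ (z i).support → P G = 0) → prodM z ∈ tor (RatEq (pts K0 K R) M) := by
  classical
  obtain ⟨n, p, hprime, hdim, hcov⟩ := comps T X hint hG
  have hrel := fun i => comp_rel (p i) (hdim i)
  choose mm hmm using hrel
  obtain ⟨g, hg⟩ : ∃ g, g = ∑ i, mm i := ⟨_, rfl⟩
  refine ⟨g * k + 1, Nat.succ_pos _, ?_⟩
  intro K _ _ _ z hz
  refine mainPD (D := pts K0 K R) (Nat.lt_succ_self (g * k)) (L := {P : R →ₐ[K0] K | P G = 0}) (L' := Set.univ)
    (Set.subset_univ _) (fun P _ => hsq K P) (fun P _ => halt K P) ?_ z (fun i P hP => hz i P hP)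
  intro P hPL hPinj
  obtain ⟨Q, hQ⟩ : ∃ Q : Fin (g + 1) → R →ₐ[K0] K, Q = P := ⟨P, rfl⟩
  have hQG : ∀ j, Q j G = 0 := fun j => by
    rw [hQ]
    exact hPL j
  have hcov' := fun j => hcov K (Q j) (hQG j)
  choose ic hic using hcov'
  obtain ⟨i, hi⟩ : ∃ i, mm i ≤ (Finset.univ.filter fun j => ic j = i).card := by
    by_contra hcon
    push Not at hcon
    have h1 : (Finset.univ : Finset (Fin (g + 1))).card = ∑ i, (Finset.univ.filter fun j => ic j = i).card :=
      Finset.card_eq_sum_card_fiberwise (fun _ _ => Finset.mem_univ _)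
    rw [Finset.card_univ, Fintype.card_fin] at h1
    have h2 : ∑ i, (Finset.univ.filter fun j => ic j = i).card ≤ ∑ i, mm i :=
      Finset.sum_le_sum fun i _ => (hcon i).le
    omega
  obtain ⟨J, hJ, hJc⟩ := Finset.exists_subset_card_eq hi
  have e : Fin (mm i) ≃ {x // x ∈ J} := (Fintype.equivFinOfCardEq (by rw [Fintype.card_coe, hJc])).symm
  obtain ⟨c, R', hc, h1⟩ := hmm i K (fun j => Q (e j))
    (fun a b hab => e.injective (Subtype.ext (hPinj (by
      have h2 : Q (e a) = Q (e b) := hab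
      rw [hQ] at h2
      exact h2))))
    (fun j r hr => by
      have h2 := (Finset.mem_filter.1 (hJ (e j).2)).2
      exact hic (e j) r (by rw [h2]; exact hr))
  refine ⟨J, c, R', by omega, fun _ => trivial, ?_⟩
  have h3 : ∑ x ∈ J, (Finsupp.single (P x) 1 : Cyc1 (pts K0 K R)) = ∑ j, Finsupp.single (Q (e j)) 1 := by
    rw [← Finset.sum_coe_sort J, ← Equiv.sum_comp e, hQ]
    rfl
  rw [h3]
  exact h1

end H77.AF
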