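import Pool.Agent.H77.AF.MainPD

/-! # AF.MainL : `mainPD` for letters in the group of zero-cycles

`L`, `L'` are sets of zero-cycles (for example all `P - ι P` for an involution `ι`). -/

namespace H77.AF

open H68.BB

variable {K : Type} [Field K] {D : PD K}

private theorem fill_update {X : Type} {k m : ℕ} {ι : Fin k → Fin m} (hι : Function.Injective ι) (z : Fin m → X)
    (w : Fin k → X) (j : Fin k) (x : X) :
    fill ι z (Function.update w j x) = Function.update (fill ι z w) (ι j) x := by
  funext l
  by_cases hl : ∃ j', ι j' = l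
  · obtain ⟨j', rfl⟩ := hl
    rw [fill_at hι]
    by_cases h : j' = j
    · rw [h, Function.update_self, Function.update_self]
    · rw [Function.update_of_ne h, Function.update_of_ne (fun h1 => h (hι h1)), fill_at hι]
  · have h1 : ∀ j', ι j' ≠ l := fun j' hj' => hl ⟨j', hj'⟩
    rw [fill_off _ _ h1, Function.update_of_ne (fun h2 => h1 j h2.symm), fill_off _ _ h1]

/-- `w ↦ mul (fill ι z w)` as a multilinear map -/
private noncomputable def fmul {k m : ℕ} (mul : MultilinearMap ℤ (fun _ : Fin m => Cyc1 D) (Cyc D m))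
    {ι : Fin k → Fin m} (hι : Function.Injective ι) (z : Fin m → Cyc1 D) :
    MultilinearMap ℤ (fun _ : Fin k => Cyc1 D) (Cyc D m) where
  toFun w := mul (fill ι z w)
  map_update_add' := by
    intro hd w j x y
    have : hd = instDecidableEqFin k := Subsingleton.elim _ _
    subst this
    rw [fill_update hι, fill_update hι, fill_update hι, MultilinearMap.map_update_add]
  map_update_smul' := by
    intro hd w j c x
    have : hd = instDecidableEqFin k := Subsingleton.elim _ _
    subst this
    rw [fill_update hι, fill_update hι, MultilinearMap.map_update_smul]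

/-- insertion of a relation between exterior products of zero-cycles -/
theorem inskG {k m : ℕ} {mul : MultilinearMap ℤ (fun _ : Fin m => Cyc1 D) (Cyc D m)} (hm : IsPr mul)
    {ι : Fin k → Fin m} (hι : Function.Injective ι) {I : Type} (A : Finset I) (c : I → ℤ) (u : I → Fin k → Cyc1 D)
    (h : ∑ i ∈ A, c i • prodM (u i) ∈ tor (RatEq D k)) (z : Fin m → Cyc1 D) :
    ∑ i ∈ A, c i • mul (fill ι z (u i)) ∈ tor (RatEq D m) := by
  classical
  obtain ⟨mulk, hmulk, hprk⟩ := exists_mul D k
  let Θ : Cyc D k →+ Cyc D m := Finsupp.liftAddHom fun P => (zmultiplesHom (Cyc D m))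
    (mul (fill ι z (fun j => (Finsupp.single (P j) 1 : Cyc1 D))))
  have hΘ1 : ∀ P : Fin k → D.X, Θ (Finsupp.single P 1) = mul (fill ι z (fun j => (Finsupp.single (P j) 1 : Cyc1 D))) := by
    intro P
    change (Finsupp.liftAddHom _) (Finsupp.single P 1) = _
    rw [Finsupp.liftAddHom_apply_single]
    simp
  have hΘ : ∀ w, Θ (mulk w) = fmul mul hι z w := by
    have h1 : (Θ.toIntLinearMap.compMultilinearMap mulk) = fmul mul hι z := by
      refine Module.Basis.ext_multilinear (fun _ => (Finsupp.basisSingleOne : Module.Basis D.X ℤ (Cyc1 D))) ?_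
      intro v
      have h2 : (fun i : Fin k => (Finsupp.basisSingleOne : Module.Basis D.X ℤ (Cyc1 D)) (v i)) =
          fun i => (Finsupp.single (v i) 1 : Cyc1 D) := by
        funext i
        rw [Finsupp.coe_basisSingleOne]
      rw [h2]
      change Θ (mulk fun i => (Finsupp.single (v i) 1 : Cyc1 D)) = mul (fill ι z fun i => Finsupp.single (v i) 1)
      rw [hprk, hΘ1]
    intro w
    exact congrArg (fun f : MultilinearMap ℤ (fun _ : Fin k => Cyc1 D) (Cyc D m) => f w) h1
  have hmem : ∀ x : Cyc D k, x ∈ tor (RatEq D k) → Θ x ∈ tor (RatEq D m) := by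
    intro x hx
    have hxs : x = ∑ P ∈ x.support, x P • (Finsupp.single P 1 : Cyc D k) := by
      conv_lhs => rw [← Finsupp.sum_single x]
      unfold Finsupp.sum
      refine Finset.sum_congr rfl fun P _ => ?_
      rw [Finsupp.smul_single, smul_eq_mul, mul_one]
    have h1 := insk hm hι x.support (fun P => x P) (fun P => P) (hxs ▸ hx) z
    rw [hxs, map_sum]
    have h2 : ∀ P ∈ x.support, Θ (x P • (Finsupp.single P 1 : Cyc D k)) =
        x P • mul (fill ι z (fun j => (Finsupp.single (P j) 1 : Cyc1 D))) := by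
      intro P _
      rw [map_zsmul, hΘ1]
    rw [Finset.sum_congr rfl h2]
    exact h1
  have h3 := hmem _ h
  rw [map_sum] at h3
  have h4 : ∀ i ∈ A, Θ (c i • prodM (u i)) = c i • mul (fill ι z (u i)) := by
    intro i _
    rw [map_zsmul, ← hmulk, hΘ]
    rfl
  rwa [Finset.sum_congr rfl h4] at h3

theorem mainL {m g k : ℕ} (hm : g * k < m) {L L' : Set (Cyc1 D)} (hL : L ⊆ L')
    (hsq : ∀ u ∈ L', prodM ![u, u] ∈ tor (RatEq D 2))
    (halt : ∀ u : Fin (k + 1) → Cyc1 D, (∀ i, u i ∈ L) →
      ∑ σ : Equiv.Perm (Fin (k + 1)), (Equiv.Perm.sign σ : ℤ) • prodM (fun i => u (σ i)) ∈ tor (RatEq D (k + 1)))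
    (hrel : ∀ u : Fin (g + 1) → Cyc1 D, (∀ i, u i ∈ L) → Function.Injective u →
      ∃ (J : Finset (Fin (g + 1))) (c : ℕ) (w : Fin c → Cyc1 D), c < J.card ∧ (∀ l, w l ∈ L') ∧
        up ((∑ i ∈ J, u i) + ∑ l, w l) ∈ tor (RatEq D 1))
    (z : Fin m → Cyc1 D) (hz : ∀ i, z i ∈ AddSubgroup.closure L) : prodM z ∈ tor (RatEq D m) := by
  classical
  obtain ⟨mul, hmul, hpr⟩ := exists_mul D m
  rw [← hmul]
  refine multi_mem (tor (RatEq D m)) mul (fun _ => L) ?_ z hz
  intro P hPL
  rw [← QuotientAddGroup.eq_zero_iff]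
  set H := tor (RatEq D m) with hH
  let M : MultilinearMap ℤ (fun _ : Fin m => Cyc1 D) (Cyc D m ⧸ H) :=
    (QuotientAddGroup.mk' H).toIntLinearMap.compMultilinearMap mul
  have hM : ∀ w, M w = QuotientAddGroup.mk (mul w) := fun _ => rfl
  have hM0 : ∀ w, mul w ∈ H → M w = 0 := fun w hw => (QuotientAddGroup.eq_zero_iff _).2 hw
  -- squares
  let Sq : Cyc1 D → Prop := fun u => u ∈ L'
  have hSq : ∀ u, Sq u → ∀ (w : Fin m → Cyc1 D) (i j : Fin m), i ≠ j → w i = u → w j = u → M w = 0 := by
    intro u hu w i j hij hi hj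
    have hι : Function.Injective ![i, j] := by
      intro a b hab
      fin_cases a <;> fin_cases b <;> simp_all
    have h1 := inskG hpr hι ({()} : Finset Unit) (fun _ => 1) (fun _ => ![u, u]) (by
      rw [Finset.sum_singleton, one_smul]; exact hsq u hu) w
    rw [Finset.sum_singleton, one_smul] at h1
    have h2 : fill ![i, j] w ![u, u] = w := by
      funext l
      by_cases h : ∃ a, ![i, j] a = l
      · obtain ⟨a, rfl⟩ := h
        rw [fill_at hι]
        fin_cases a
        · exact hi.symm
        · exact hj.symm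
      · rw [fill_off _ _ fun a ha => h ⟨a, ha⟩]
    rw [h2] at h1
    exact hM0 w h1
  have hLSq : ∀ p ∈ L, Sq p := fun p hp => hL hp
  have key := algM hm (fun n x hn hx => quot_tf (RatEq D m) n x hn hx)
    (fun ρ : Equiv.Perm (Fin m) => M (fun l => P (ρ l))) ?_ ?_
  · exact key
  · -- the antisymmetrised sums
    intro ρ J hJ
    have e : Fin (k + 1) ≃ {x // x ∈ J} := (Fintype.equivFinOfCardEq (by rw [Fintype.card_coe, hJ])).symm
    rw [sum_PJ J e]
    have hι : Function.Injective fun i => ((e i : {x // x ∈ J}) : Fin m) := Subtype.val_injective.comp e.injective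
    have h1 := inskG hpr hι (Finset.univ : Finset (Equiv.Perm (Fin (k + 1)))) (fun σ => (Equiv.Perm.sign σ : ℤ))
      (fun σ i => P (ρ (e (σ i)))) (halt (fun i => P (ρ (e i))) fun i => hPL _) (fun l => P (ρ l))
    have h2 := (QuotientAddGroup.eq_zero_iff _).2 h1
    rw [QuotientAddGroup.mk_sum] at h2
    rw [← h2]
    refine Finset.sum_congr rfl fun σ _ => ?_
    rw [QuotientAddGroup.mk_zsmul, Equiv.Perm.sign_ofSubtype, Equiv.Perm.sign_permCongr, ← hM]
    congr 2
    funext l
    by_cases h : l ∈ J
    · have h3 : ((e (e.symm ⟨l, h⟩) : {x // x ∈ J}) : Fin m) = l := by rw [Equiv.apply_symm_apply]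
      have h4 := fill_at hι (fun l => P (ρ l)) (fun j => P (ρ (e (σ j)))) (e.symm ⟨l, h⟩)
      simp only [h3] at h4
      rw [h4]
      change P (ρ (Equiv.Perm.ofSubtype (e.permCongr σ) l)) = _
      rw [Equiv.Perm.ofSubtype_apply_of_mem _ h]
      rfl
    · rw [fill_off]
      · change P (ρ (Equiv.Perm.ofSubtype (e.permCongr σ) l)) = _
        rw [Equiv.Perm.ofSubtype_apply_of_not_mem _ h]
      · intro j hj
        apply h
        rw [← hj]
        exact (e j).2
  · -- the symmetrised sums
    intro ρ I hI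
    have e : Fin (g + 1) ≃ {x // x ∈ I} := (Fintype.equivFinOfCardEq (by rw [Fintype.card_coe, hI])).symm
    by_cases hinj : Function.Injective fun i : Fin (g + 1) => P (ρ (e i))
    · obtain ⟨J', c, R, hc, hR, hrel'⟩ := hrel (fun i => P (ρ (e i))) (fun i => hPL _) hinj
      let ι : Fin (g + 1) ↪ Fin m := e.toEmbedding.trans (Function.Embedding.subtype _)
      refine sym_left (fun n x hn hx => quot_tf (RatEq D m) n x hn hx)
        (fun σ : Equiv.Perm (Fin m) => M (fun l => P ((ρ * σ) l))) (J := J'.map ι) ?_ ?_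
      · intro x hx
        obtain ⟨i, _, rfl⟩ := Finset.mem_map.1 hx
        exact (e i).2
      · intro σ'
        have h1 := absq (M.domDomCongr σ') ((tor (RatEq D 1)).comap up) (fun w ⟨i, hi⟩ => by
            rw [MultilinearMap.domDomCongr_apply]
            refine hM0 _ (kill1 hpr _ (i := σ'.symm i) ?_)
            change up (w (σ' (σ'.symm i))) ∈ _
            rw [Equiv.apply_symm_apply]
            exact hi) Sq (fun u hu w i j hij hi hj => by
            rw [MultilinearMap.domDomCongr_apply]
            refine hSq u hu _ (σ'.symm i) (σ'.symm j) (fun h => hij (σ'.symm.injective h)) ?_ ?_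
            · change w (σ' (σ'.symm i)) = u
              rw [Equiv.apply_symm_apply]; exact hi
            · change w (σ' (σ'.symm j)) = u
              rw [Equiv.apply_symm_apply]; exact hj)
          (fun l => P (ρ l)) (J'.map ι) (fun l _ => hLSq _ (hPL _))
          (by rw [Finset.card_map]; exact hc) R hR
          (by
            rw [Finset.sum_map]
            exact hrel')
        exact h1
    · -- two equal points
      have h1 : ∃ i j : Fin (g + 1), i ≠ j ∧ P (ρ (e i)) = P (ρ (e j)) := by
        by_contra hcon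
        push Not at hcon
        exact hinj fun i j hij => by
          by_contra hne
          exact hcon i j hne hij
      obtain ⟨i, j, hij, hPij⟩ := h1
      refine Finset.sum_eq_zero fun σ _ => ?_
      refine hSq (P (ρ (e i))) (hLSq _ (hPL _)) _ (σ.symm (e i)) (σ.symm (e j)) ?_ ?_ ?_
      · intro h
        exact hij (e.injective (Subtype.ext (σ.symm.injective h)))
      · change P (ρ (σ (σ.symm (e i)))) = _
        rw [Equiv.apply_symm_apply]
      · change P (ρ (σ (σ.symm (e j)))) = _
        rw [Equiv.apply_symm_apply, hPij]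

end H77.AF
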