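import Pool.Agent.H25.SW.Def

/-! # AF.AbsQ : a relation with few letters kills the symmetrised product (pure algebra, about 150 lines)

`M` multilinear with values in a group `G`; `T` a set of arguments which kill `M`.  `Sq z`: `M` vanishes if `z` is at two places.
Let `J` be a set of places, `x l` (`l ∈ J`) and `y l` (`l < g`) with `Sq`, `g < |J|`, `∑_{l ∈ J} x l + ∑ y l ∈ T`.  Then the symmetrised value `∑_{σ ∈ PJ J} M (x ∘ σ)` is `0`.

Proof.  (1) Put `X = ∑_{i ∈ J} x i` at all the places of `J` (keep `x l` for `l ∉ J`): `MultilinearMap.map_sum_finset` with the index set `J` at the places of `J` and `{l}` at the places `l ∉ J`: the value is the sum over the maps `φ` with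
`φ i ∈ J` for `i ∈ J`, `φ l = l` for `l ∉ J` of `M (x ∘ φ)`; if `φ` is not injective, two places (both in `J`) carry the same `x i`: `0`; the injective ones are the permutations in `PJ J`.  So the value is the symmetrised value.
(2) `X = t - Y` with `t ∈ T`, `Y = ∑ y l`: the value of `M` with `X` at the places of `J` equals the value with `- Y` at the places of `J` (replace one place after another, `map_update_sub`; the difference has `t` at one place).  Expand `Y`: by the
pigeonhole principle (`g < |J|`) every term has the same `y l` at two places: `0`.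
Compare `H25.V1.Abs.absm`, the same with a symmetric `M`. -/

namespace H77.AF

open H25.SW (PJ)

private theorem repl {m : ℕ} {A G : Type} [AddCommGroup A] [AddCommGroup G]
    (M : MultilinearMap ℤ (fun _ : Fin m => A) G) (T : AddSubgroup A)
    (hT : ∀ z : Fin m → A, (∃ i, z i ∈ T) → M z = 0)
    {z z' : Fin m → A} (h : ∀ i, z i - z' i ∈ T) : M z = M z' := by
  have key : ∀ s : Finset (Fin m), M (fun i => if i ∈ s then z i else z' i) = M z' := by
    intro s
    induction s using Finset.induction_on with
    | empty => simp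
    | insert a s ha ih =>
      have h1 : (fun i => if i ∈ insert a s then z i else z' i) =
          Function.update (fun i => if i ∈ s then z i else z' i) a ((z a - z' a) + z' a) := by
        funext i
        by_cases hi : i = a
        · subst hi
          simp
        · simp [Finset.mem_insert, hi]
      have h2 : Function.update (fun i => if i ∈ s then z i else z' i) a (z' a) =
          fun i => if i ∈ s then z i else z' i := by
        funext i
        by_cases hi : i = a
        · subst hi
          simp [ha]
        · simp [Function.update_of_ne hi]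
      rw [h1, MultilinearMap.map_update_add, h2, ih, hT _ ⟨a, by simpa using h a⟩, zero_add]
  have h3 := key Finset.univ
  simpa using h3

private theorem perm_mem {m : ℕ} {J : Finset (Fin m)} {σ : Equiv.Perm (Fin m)} (h : σ ∈ PJ J)
    {l : Fin m} (hl : l ∈ J) : σ l ∈ J := by
  by_contra hn
  have h1 : σ (σ l) = σ l := (Finset.mem_filter.1 h).2 _ hn
  rw [σ.injective h1] at hn
  exact hn hl

/-- step (1): the symmetrised value is the value with the sum at all the places of `J` -/
private theorem step1 {m : ℕ} {A G : Type} [AddCommGroup A] [AddCommGroup G]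
    (M : MultilinearMap ℤ (fun _ : Fin m => A) G) (Sq : A → Prop)
    (hSq : ∀ u, Sq u → ∀ (z : Fin m → A) (i j : Fin m), i ≠ j → z i = u → z j = u → M z = 0)
    (x : Fin m → A) (J : Finset (Fin m)) (hxJ : ∀ l ∈ J, Sq (x l)) :
    M (fun l => if l ∈ J then ∑ i ∈ J, x i else x l) = ∑ σ ∈ PJ J, M (fun l => x (σ l)) := by
  classical
  obtain ⟨B, hB⟩ : ∃ B : Fin m → Finset (Fin m), B = fun l => if l ∈ J then J else {l} := ⟨_, rfl⟩
  have h1 : (fun l => if l ∈ J then ∑ i ∈ J, x i else x l) = fun l => ∑ j ∈ B l, x j := by
    funext l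
    rw [hB]
    by_cases hl : l ∈ J
    · simp [hl]
    · simp [hl]
  have h2 := M.map_sum_finset (fun _ j => x j) B
  rw [h1, h2]
  have hsub : (PJ J).image (fun σ : Equiv.Perm (Fin m) => (σ : Fin m → Fin m)) ⊆
      Fintype.piFinset B := by
    intro φ hφ
    obtain ⟨σ, hσ, rfl⟩ := Finset.mem_image.1 hφ
    rw [Fintype.mem_piFinset]
    intro l
    rw [hB]
    by_cases hl : l ∈ J
    · simp only [hl, if_true]
      exact perm_mem hσ hl
    · simp only [hl, if_false, Finset.mem_singleton]
      exact (Finset.mem_filter.1 hσ).2 l hl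
  rw [← Finset.sum_subset hsub]
  · rw [Finset.sum_image]
    intro σ _ τ _ h
    exact DFunLike.coe_injective h
  · intro φ hφ hn
    have hφ' : ∀ l, φ l ∈ B l := Fintype.mem_piFinset.1 hφ
    have hJ : ∀ l ∈ J, φ l ∈ J := by
      intro l hl
      have := hφ' l
      rw [hB] at this
      simpa only [hl, if_true] using this
    have hJ' : ∀ l, l ∉ J → φ l = l := by
      intro l hl
      have := hφ' l
      rw [hB] at this
      simpa only [hl, if_false, Finset.mem_singleton] using this
    by_cases hinj : Function.Injective φ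
    · exfalso
      apply hn
      rw [Finset.mem_image]
      refine ⟨Equiv.ofBijective φ (Finite.injective_iff_bijective.1 hinj), ?_, rfl⟩
      exact Finset.mem_filter.2 ⟨Finset.mem_univ _, hJ'⟩
    · unfold Function.Injective at hinj
      push Not at hinj
      obtain ⟨a, b, hab, hne⟩ := hinj
      have haJ : a ∈ J := by
        by_contra ha
        have h3 := hJ' a ha
        by_cases hb : b ∈ J
        · have h4 := hJ b hb
          rw [← hab, h3] at h4
          exact ha h4
        · rw [hJ' b hb, h3] at hab
          exact hne hab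
      exact hSq (x (φ a)) (hxJ _ (hJ a haJ)) _ a b hne rfl (by rw [hab])

/-- pigeonhole -/
private theorem step2 {m : ℕ} {A G : Type} [AddCommGroup A] [AddCommGroup G]
    (M : MultilinearMap ℤ (fun _ : Fin m => A) G) (Sq : A → Prop)
    (hSq : ∀ u, Sq u → ∀ (z : Fin m → A) (i j : Fin m), i ≠ j → z i = u → z j = u → M z = 0)
    (x : Fin m → A) (J : Finset (Fin m)) {g : ℕ} (hg : g < J.card)
    (y : Fin g → A) (hy : ∀ l, Sq (y l)) :
    M (fun l => if l ∈ J then ∑ i, y i else x l) = 0 := by
  classical
  obtain ⟨B, hB⟩ : ∃ B : Fin m → Finset (Fin g ⊕ Fin m),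
      B = fun l => if l ∈ J then Finset.univ.map Function.Embedding.inl else {Sum.inr l} := ⟨_, rfl⟩
  have h1 : (fun l => if l ∈ J then ∑ i, y i else x l) = fun l => ∑ j ∈ B l, Sum.elim y x j := by
    funext l
    rw [hB]
    by_cases hl : l ∈ J
    · simp [hl]
    · simp [hl]
  have h2 := M.map_sum_finset (fun _ j => Sum.elim y x j) B
  rw [h1, h2]
  refine Finset.sum_eq_zero fun φ hφ => ?_
  have hφ' : ∀ l, φ l ∈ B l := Fintype.mem_piFinset.1 hφ
  have hpig : ∃ a ∈ J, ∃ b ∈ J, a ≠ b ∧ φ a = φ b := by
    have hcard : (Finset.univ.map (Function.Embedding.inl : Fin g ↪ Fin g ⊕ Fin m)).card < J.card := by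
      rwa [Finset.card_map, Finset.card_univ, Fintype.card_fin]
    obtain ⟨a, ha, b, hb, hne, he⟩ := Finset.exists_ne_map_eq_of_card_lt_of_maps_to hcard
      (f := φ) (fun l hl => by
        have hl' : l ∈ J := hl
        have := hφ' l
        rw [hB] at this
        simp only [hl', if_true] at this
        exact this)
    exact ⟨a, ha, b, hb, hne, he⟩
  obtain ⟨a, ha, b, hb, hne, he⟩ := hpig
  obtain ⟨c, hc⟩ : ∃ c : Fin g, φ a = Sum.inl c := by
    have := hφ' a
    rw [hB] at this
    simp only [ha, if_true, Finset.mem_map, Finset.mem_univ, true_and] at this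
    obtain ⟨c, hc⟩ := this
    exact ⟨c, hc.symm⟩
  exact hSq (y c) (hy c) _ a b hne (by rw [hc]; rfl) (by rw [← he, hc]; rfl)

theorem absq {m : ℕ} {A G : Type} [AddCommGroup A] [AddCommGroup G] (M : MultilinearMap ℤ (fun _ : Fin m => A) G)
    (T : AddSubgroup A) (hT : ∀ z : Fin m → A, (∃ i, z i ∈ T) → M z = 0) (Sq : A → Prop)
    (hSq : ∀ u, Sq u → ∀ (z : Fin m → A) (i j : Fin m), i ≠ j → z i = u → z j = u → M z = 0)
    (x : Fin m → A) (J : Finset (Fin m)) (hxJ : ∀ l ∈ J, Sq (x l)) {g : ℕ} (hg : g < J.card)
    (y : Fin g → A) (hy : ∀ l, Sq (y l)) (h : (∑ i ∈ J, x i) + ∑ l, y l ∈ T) :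
    ∑ σ ∈ PJ J, M (fun l => x (σ l)) = 0 := by
  rw [← step1 M Sq hSq x J hxJ]
  have h1 : M (fun l => if l ∈ J then ∑ i ∈ J, x i else x l) =
      M (fun l => (if l ∈ J then (-1 : ℤ) else 1) • (if l ∈ J then ∑ i, y i else x l)) := by
    refine repl M T hT fun l => ?_
    by_cases hl : l ∈ J
    · simp only [hl, if_true]
      rw [neg_smul, one_smul, sub_neg_eq_add]
      exact h
    · simp only [hl, if_false]
      rw [one_smul, sub_self]
      exact T.zero_mem
  rw [h1, MultilinearMap.map_smul_univ, step2 M Sq hSq x J hg y hy, smul_zero]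

end H77.AF
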