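import Pool.Agent.H25.SW.Main

/-! # AF.AlgM : from symmetrised and antisymmetrised values to the value (about 80 lines; from `H25.SW.sw_mod`)

`algM`: apply `sw_mod` to the group `Perm (Fin m) → G` with the action `act σ F = fun ρ => F (ρ * σ)` and to `M` itself.  At `ρ`: `∑_{σ ∈ PJ J} sgn σ • M (ρ * (σ * τ))`; with `ρ' = ρ * τ`, `σ' = τ⁻¹ * σ * τ ∈ PJ (J.image τ⁻¹)`
it is `∑_{σ' ∈ PJ J'} sgn σ' • M (ρ' * σ')`, zero by hypothesis.
`sym_up`: if the symmetrised sums over `J` vanish (for all translates), then those over `I ⊇ J`: split `PJ I` into left cosets `τ (PJ J)`: sum over `σ ∈ PJ I` of `(1/|PJ J|) ∑_{τ ∈ PJ J} F (σ τ)`; multiply by `|PJ J|`: `|PJ J| • ∑_{σ ∈ PJ I} F (ρ σ) =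
∑_{τ ∈ PJ J} ∑_{σ ∈ PJ I} F (ρ σ τ) = ∑_{σ ∈ PJ I} ∑_{τ ∈ PJ J} F ((ρ σ) τ) = 0` (`σ ↦ σ τ` is a bijection of `PJ I`) and `G` is torsion-free. -/

namespace H77.AF

open H25.SW (PJ)

private theorem ap_inv {m : ℕ} (τ : Equiv.Perm (Fin m)) (a : Fin m) : τ (τ⁻¹ a) = a :=
  τ.apply_symm_apply a

private theorem inv_ap {m : ℕ} (τ : Equiv.Perm (Fin m)) (a : Fin m) : τ⁻¹ (τ a) = a :=
  τ.symm_apply_apply a

theorem mem_PJ {m : ℕ} {J : Finset (Fin m)} {σ : Equiv.Perm (Fin m)} :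
    σ ∈ PJ J ↔ ∀ i, i ∉ J → σ i = i := by
  unfold PJ
  rw [Finset.mem_filter]
  exact ⟨fun h => h.2, fun h => ⟨Finset.mem_univ _, h⟩⟩

/-- conjugation moves the subset -/
theorem conj_PJ {m : ℕ} (J : Finset (Fin m)) (τ σ : Equiv.Perm (Fin m)) :
    σ ∈ PJ J ↔ τ⁻¹ * σ * τ ∈ PJ (J.map (τ⁻¹ : Equiv.Perm (Fin m)).toEmbedding) := by
  have hJ : ∀ i, i ∈ J.map (τ⁻¹ : Equiv.Perm (Fin m)).toEmbedding ↔ τ i ∈ J := by
    intro i
    rw [Finset.mem_map]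
    constructor
    · rintro ⟨a, ha, rfl⟩
      show τ (τ⁻¹ a) ∈ J
      rw [ap_inv]
      exact ha
    · intro h
      exact ⟨τ i, h, inv_ap τ i⟩
  rw [mem_PJ, mem_PJ]
  constructor
  · intro h i hi
    rw [hJ] at hi
    show τ⁻¹ (σ (τ i)) = i
    rw [h _ hi, inv_ap]
  · intro h i hi
    have h1 := h (τ⁻¹ i) (by rw [hJ, ap_inv]; exact hi)
    have h2 : τ⁻¹ (σ (τ (τ⁻¹ i))) = τ⁻¹ i := h1
    rw [ap_inv] at h2
    exact τ⁻¹.injective h2

theorem sum_conj {m : ℕ} {G : Type} [AddCommGroup G] (J : Finset (Fin m)) (τ : Equiv.Perm (Fin m))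
    (f : Equiv.Perm (Fin m) → G) (f' : Equiv.Perm (Fin m) → G)
    (h : ∀ σ, f σ = f' (τ⁻¹ * σ * τ)) :
    ∑ σ ∈ PJ J, f σ = ∑ σ ∈ PJ (J.map (τ⁻¹ : Equiv.Perm (Fin m)).toEmbedding), f' σ := by
  refine Finset.sum_bij (fun σ _ => τ⁻¹ * σ * τ) ?_ ?_ ?_ ?_
  · intro σ hσ
    exact (conj_PJ J τ σ).1 hσ
  · intro a _ b _ hab
    exact mul_left_cancel (mul_right_cancel hab)
  · intro b hb
    refine ⟨τ * b * τ⁻¹, ?_, ?_⟩
    · rw [conj_PJ J τ]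
      have e : τ⁻¹ * (τ * b * τ⁻¹) * τ = b := by group
      rw [e]
      exact hb
    · group
  · intro σ _
    exact h σ

theorem algM {m g k : ℕ} (h : g * k < m) {G : Type} [AddCommGroup G] (hG : ∀ (n : ℕ) (x : G), 0 < n → n • x = 0 → x = 0)
    (M : Equiv.Perm (Fin m) → G)
    (ha : ∀ (ρ : Equiv.Perm (Fin m)) (J : Finset (Fin m)), J.card = k + 1 →
      ∑ σ ∈ PJ J, (Equiv.Perm.sign σ : ℤ) • M (ρ * σ) = 0)
    (hs : ∀ (ρ : Equiv.Perm (Fin m)) (I : Finset (Fin m)), I.card = g + 1 → ∑ σ ∈ PJ I, M (ρ * σ) = 0) : M 1 = 0 := by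
  let act : Equiv.Perm (Fin m) → (Equiv.Perm (Fin m) → G) →+ (Equiv.Perm (Fin m) → G) := fun σ =>
    { toFun := fun F ρ => F (ρ * σ)
      map_zero' := rfl
      map_add' := fun _ _ => rfl }
  have hact : ∀ σ (F : Equiv.Perm (Fin m) → G) ρ, act σ F ρ = F (ρ * σ) := fun _ _ _ => rfl
  have key : M = 0 := by
    refine H25.SW.sw_mod h (A := Equiv.Perm (Fin m) → G) ?_ act ?_ ?_ M ?_ ?_
    · intro n x hn hx
      funext ρ
      exact hG n (x ρ) hn (congrFun hx ρ)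
    · intro x
      funext ρ
      rw [hact, mul_one]
    · intro σ τ x
      funext ρ
      rw [hact, hact, hact, mul_assoc]
    · intro J τ hJ
      funext ρ
      rw [Finset.sum_apply, Pi.zero_apply]
      rw [← ha (ρ * τ) (J.map (τ⁻¹ : Equiv.Perm (Fin m)).toEmbedding) (by rw [Finset.card_map, hJ])]
      refine sum_conj J τ _ _ fun σ => ?_
      have e : ρ * τ * (τ⁻¹ * σ * τ) = ρ * (σ * τ) := by group
      have e2 : Equiv.Perm.sign (τ⁻¹ * σ * τ) = Equiv.Perm.sign σ := by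
        rw [map_mul, map_mul, mul_comm (Equiv.Perm.sign τ⁻¹), mul_assoc, ← map_mul,
          inv_mul_cancel, map_one, mul_one]
      rw [Pi.smul_apply, hact, e, e2]
    · intro I τ hI
      funext ρ
      rw [Finset.sum_apply, Pi.zero_apply]
      rw [← hs (ρ * τ) (I.map (τ⁻¹ : Equiv.Perm (Fin m)).toEmbedding) (by rw [Finset.card_map, hI])]
      refine sum_conj I τ _ _ fun σ => ?_
      have e : ρ * τ * (τ⁻¹ * σ * τ) = ρ * (σ * τ) := by group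
      rw [hact, e]
  rw [key, Pi.zero_apply]

theorem sym_up {m : ℕ} {G : Type} [AddCommGroup G] (hG : ∀ (n : ℕ) (x : G), 0 < n → n • x = 0 → x = 0)
    (M : Equiv.Perm (Fin m) → G) {I J : Finset (Fin m)} (hJI : J ⊆ I)
    (h : ∀ ρ : Equiv.Perm (Fin m), ∑ σ ∈ PJ J, M (ρ * σ) = 0) (ρ : Equiv.Perm (Fin m)) :
    ∑ σ ∈ PJ I, M (ρ * σ) = 0 := by
  have h1 : ∀ τ ∈ PJ J, ∑ σ ∈ PJ I, M (ρ * (σ * τ)) = ∑ σ ∈ PJ I, M (ρ * σ) := by
    intro τ hτ
    have hτI : ∀ i, i ∉ I → τ i = i := fun i hi => mem_PJ.1 hτ i fun hj => hi (hJI hj)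
    have hτI' : ∀ i, i ∉ I → τ⁻¹ i = i := by
      intro i hi
      rw [Equiv.Perm.inv_eq_iff_eq]
      exact (hτI i hi).symm
    refine Finset.sum_bij (fun σ _ => σ * τ) ?_ ?_ ?_ ?_
    · intro σ hσ
      rw [mem_PJ] at hσ ⊢
      intro i hi
      show σ (τ i) = i
      rw [hτI i hi, hσ i hi]
    · intro a _ b _ hab
      exact mul_right_cancel hab
    · intro b hb
      refine ⟨b * τ⁻¹, ?_, inv_mul_cancel_right b τ⟩
      rw [mem_PJ] at hb ⊢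
      intro i hi
      show b (τ⁻¹ i) = i
      rw [hτI' i hi, hb i hi]
    · intro σ _
      rfl
  have h2 : (PJ J).card • ∑ σ ∈ PJ I, M (ρ * σ) = 0 := by
    rw [← Finset.sum_const, ← Finset.sum_congr rfl h1, Finset.sum_comm]
    refine Finset.sum_eq_zero fun σ _ => ?_
    rw [← h (ρ * σ)]
    refine Finset.sum_congr rfl fun τ _ => ?_
    rw [mul_assoc]
  refine hG (PJ J).card _ (Finset.card_pos.2 ⟨1, ?_⟩) h2
  rw [mem_PJ]
  intro i _
  rfl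

end H77.AF
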