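import Pool.Agent.H77.AF.Ins
import Pool.Agent.H77.AF.AbsQ
import Pool.Agent.H77.AF.AlgM

/-! # AF.MainPD : products of many points of a curve are torsion

`L`: the points of a curve, `L'`: points whose square is torsion (`(P, P)` in `tor (RatEq D 2)`), `L ⊆ L'`.  Hypotheses: the antisymmetrised products of `k + 1` points of `L` are torsion; among any `g + 1` different points of `L` there are some, `J`, with
`∑_J P + ∑_{l < c} R l` torsion in one variable, `c < |J|`, `R l ∈ L'`.  Then all products of `m > g k` zero-cycles supported on `L` are torsion. -/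

namespace H77.AF

open H68.BB
open H25.SW (PJ)

variable {K : Type} [Field K] {D : PD K}

theorem mem_PJm {m : ℕ} {J : Finset (Fin m)} {σ : Equiv.Perm (Fin m)} : σ ∈ PJ J ↔ ∀ i, i ∉ J → σ i = i := by
  unfold PJ
  simp

private theorem PJ_mul {m : ℕ} {J : Finset (Fin m)} {σ τ : Equiv.Perm (Fin m)} (h : σ ∈ PJ J) (h' : τ ∈ PJ J) :
    σ * τ ∈ PJ J := by
  rw [mem_PJm] at h h' ⊢
  intro i hi
  rw [Equiv.Perm.mul_apply, h' i hi, h i hi]

private theorem PJ_inv {m : ℕ} {J : Finset (Fin m)} {σ : Equiv.Perm (Fin m)} (h : σ ∈ PJ J) : σ⁻¹ ∈ PJ J := by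
  rw [mem_PJm] at h ⊢
  intro i hi
  rw [Equiv.Perm.inv_eq_iff_eq]
  exact (h i hi).symm

private theorem PJ_mono {m : ℕ} {I J : Finset (Fin m)} (hJI : J ⊆ I) {σ : Equiv.Perm (Fin m)} (h : σ ∈ PJ J) :
    σ ∈ PJ I := by
  rw [mem_PJm] at h ⊢
  exact fun i hi => h i fun h' => hi (hJI h')

theorem sym_left {m : ℕ} {G : Type} [AddCommGroup G] (hG : ∀ (n : ℕ) (x : G), 0 < n → n • x = 0 → x = 0)
    (F : Equiv.Perm (Fin m) → G) {I J : Finset (Fin m)} (hJI : J ⊆ I)
    (h : ∀ σ : Equiv.Perm (Fin m), ∑ τ ∈ PJ J, F (τ * σ) = 0) : ∑ σ ∈ PJ I, F σ = 0 := by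
  refine hG (PJ J).card _ (Finset.card_pos.2 ⟨1, mem_PJm.2 fun _ _ => rfl⟩) ?_
  rw [← Finset.sum_const]
  have h1 : ∀ τ ∈ PJ J, ∑ σ ∈ PJ I, F σ = ∑ σ ∈ PJ I, F (τ * σ) := by
    intro τ hτ
    refine Finset.sum_nbij' (fun σ => τ⁻¹ * σ) (fun σ => τ * σ) ?_ ?_ ?_ ?_ ?_
    · exact fun σ hσ => PJ_mul (PJ_mono hJI (PJ_inv hτ)) hσ
    · exact fun σ hσ => PJ_mul (PJ_mono hJI hτ) hσ
    · intro σ _; simp
    · intro σ _; simp
    · intro σ _; simp
  rw [Finset.sum_congr rfl h1, Finset.sum_comm]
  exact Finset.sum_eq_zero fun σ _ => h σ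

/-- the permutations supported on `J` are the permutations of an enumeration of `J` -/
theorem sum_PJ {m n : ℕ} {G : Type} [AddCommMonoid G] (J : Finset (Fin m)) (e : Fin n ≃ {x // x ∈ J})
    (F : Equiv.Perm (Fin m) → G) :
    ∑ σ ∈ PJ J, F σ = ∑ τ : Equiv.Perm (Fin n), F (Equiv.Perm.ofSubtype (e.permCongr τ)) := by
  symm
  refine Finset.sum_bij (fun τ _ => Equiv.Perm.ofSubtype (e.permCongr τ)) ?_ ?_ ?_ (fun _ _ => rfl)
  · intro τ _
    rw [mem_PJm]
    intro i hi
    exact Equiv.Perm.ofSubtype_apply_of_not_mem _ hi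
  · intro τ _ τ' _ h
    exact e.permCongr.injective (Equiv.Perm.ofSubtype_injective h)
  · intro σ hσ
    rw [mem_PJm] at hσ
    have h1 : ∀ x, σ x ∈ J ↔ x ∈ J := by
      intro x
      constructor
      · intro h
        by_contra hx
        rw [hσ x hx] at h
        exact hx h
      · intro h
        by_contra hx
        have h2 := hσ (σ x) hx
        rw [σ.injective h2] at hx
        exact hx h
    refine ⟨e.permCongr.symm (σ.subtypePerm h1), Finset.mem_univ _, ?_⟩
    rw [Equiv.apply_symm_apply]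
    exact Equiv.Perm.ofSubtype_subtypePerm _ fun x hx => by
      by_contra h
      exact hx (hσ x h)

theorem mainPD {m g k : ℕ} (hm : g * k < m) {L L' : Set D.X} (hL : L ⊆ L')
    (hsq : ∀ P ∈ L', (Finsupp.single ![P, P] 1 : Cyc D 2) ∈ tor (RatEq D 2))
    (halt : ∀ P : Fin (k + 1) → D.X, (∀ i, P i ∈ L) →
      ∑ σ : Equiv.Perm (Fin (k + 1)), (Equiv.Perm.sign σ : ℤ) • (Finsupp.single (fun i => P (σ i)) 1 : Cyc D (k + 1)) ∈
        tor (RatEq D (k + 1)))
    (hrel : ∀ P : Fin (g + 1) → D.X, (∀ i, P i ∈ L) → Function.Injective P →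
      ∃ (J : Finset (Fin (g + 1))) (c : ℕ) (R : Fin c → D.X), c < J.card ∧ (∀ l, R l ∈ L') ∧
        up ((∑ i ∈ J, Finsupp.single (P i) 1) + ∑ l, Finsupp.single (R l) 1) ∈ tor (RatEq D 1))
    (z : Fin m → Cyc1 D) (hz : ∀ i, ∀ P ∈ (z i).support, P ∈ L) : prodM z ∈ tor (RatEq D m) := by
  classical
  obtain ⟨mul, hmul, hpr⟩ := exists_mul D m
  rw [← hmul]
  refine multi_mem (tor (RatEq D m)) mul (fun _ => {w : Cyc1 D | ∃ P ∈ L, w = Finsupp.single P 1}) ?_ z
    (fun i => supp_closure (hz i))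
  intro y hy
  choose P hPL hP using hy
  obtain rfl : y = fun i => Finsupp.single (P i) 1 := funext hP
  rw [← QuotientAddGroup.eq_zero_iff]
  set H := tor (RatEq D m) with hH
  let M : MultilinearMap ℤ (fun _ : Fin m => Cyc1 D) (Cyc D m ⧸ H) :=
    (QuotientAddGroup.mk' H).toIntLinearMap.compMultilinearMap mul
  have hM : ∀ w, M w = QuotientAddGroup.mk (mul w) := fun _ => rfl
  have hM0 : ∀ w, mul w ∈ H → M w = 0 := fun w hw => (QuotientAddGroup.eq_zero_iff _).2 hw
  -- squares
  let Sq : Cyc1 D → Prop := fun u => ∃ p ∈ L', u = Finsupp.single p 1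
  have hSq : ∀ u, Sq u → ∀ (w : Fin m → Cyc1 D) (i j : Fin m), i ≠ j → w i = u → w j = u → M w = 0 := by
    rintro u ⟨p, hp, rfl⟩ w i j hij hi hj
    have hι : Function.Injective ![i, j] := by
      intro a b hab
      fin_cases a <;> fin_cases b <;> simp_all
    have h1 := insk hpr hι ({()} : Finset Unit) (fun _ => 1) (fun _ => ![p, p]) (by
      rw [Finset.sum_singleton, one_smul]; exact hsq p hp) w
    rw [Finset.sum_singleton, one_smul] at h1
    have h2 : fill ![i, j] w (fun l => (Finsupp.single (![p, p] l) 1 : Cyc1 D)) = w := by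
      funext l
      by_cases h : ∃ a, ![i, j] a = l
      · obtain ⟨a, rfl⟩ := h
        rw [fill_at hι]
        fin_cases a
        · exact hi.symm
        · exact hj.symm
      · rw [fill_off _ _ fun a ha => h ⟨a, ha⟩]
    rw [h2] at h1
    exact hM0 w h1
  have hLSq : ∀ p ∈ L, Sq (Finsupp.single p 1) := fun p hp => ⟨p, hL hp, rfl⟩
  have key := algM hm (fun n x hn hx => quot_tf (RatEq D m) n x hn hx)
    (fun ρ : Equiv.Perm (Fin m) => M (fun l => Finsupp.single (P (ρ l)) 1)) ?_ ?_
  · exact key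
  · -- the antisymmetrised sums
    intro ρ J hJ
    have e : Fin (k + 1) ≃ {x // x ∈ J} := (Fintype.equivFinOfCardEq (by rw [Fintype.card_coe, hJ])).symm
    rw [sum_PJ J e]
    have hι : Function.Injective fun i => ((e i : {x // x ∈ J}) : Fin m) := Subtype.val_injective.comp e.injective
    have h1 := insk hpr hι (Finset.univ : Finset (Equiv.Perm (Fin (k + 1)))) (fun σ => (Equiv.Perm.sign σ : ℤ))
      (fun σ i => P (ρ (e (σ i)))) (halt (fun i => P (ρ (e i))) fun i => hPL _)
      (fun l => Finsupp.single (P (ρ l)) 1)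
    have h2 := (QuotientAddGroup.eq_zero_iff _).2 h1
    rw [QuotientAddGroup.mk_sum] at h2
    rw [← h2]
    refine Finset.sum_congr rfl fun σ _ => ?_
    rw [QuotientAddGroup.mk_zsmul, Equiv.Perm.sign_ofSubtype, Equiv.Perm.sign_permCongr, ← hM]
    congr 2
    funext l
    by_cases h : l ∈ J
    · have h3 : ((e (e.symm ⟨l, h⟩) : {x // x ∈ J}) : Fin m) = l := by rw [Equiv.apply_symm_apply]
      have h4 := fill_at hι (fun l => (Finsupp.single (P (ρ l)) 1 : Cyc1 D))
        (fun j => Finsupp.single (P (ρ (e (σ j)))) 1) (e.symm ⟨l, h⟩)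
      simp only [h3] at h4
      rw [h4]
      congr 2
      change ρ (Equiv.Perm.ofSubtype (e.permCongr σ) l) = _
      rw [Equiv.Perm.ofSubtype_apply_of_mem _ h]
      rfl
    · rw [fill_off]
      · congr 2
        change ρ (Equiv.Perm.ofSubtype (e.permCongr σ) l) = _
        rw [Equiv.Perm.ofSubtype_apply_of_not_mem _ h]
      · intro j hj
        apply h
        rw [← hj]
        exact (e j).2
  · -- the symmetrised sums
    intro ρ I hI
    have e : Fin (g + 1) ≃ {x // x ∈ I} := (Fintype.equivFinOfCardEq (by rw [Fintype.card_coe, hI])).symm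
    by_cases hinj : Function.Injective fun i : Fin (g + 1) => P (ρ (e i))
    · obtain ⟨J', c, R, hc, hR, hrel'⟩ := hrel (fun i => P (ρ (e i))) (fun i => hPL _) hinj
      let ι : Fin (g + 1) ↪ Fin m := e.toEmbedding.trans (Function.Embedding.subtype _)
      refine sym_left (fun n x hn hx => quot_tf (RatEq D m) n x hn hx)
        (fun σ : Equiv.Perm (Fin m) => M (fun l => Finsupp.single (P ((ρ * σ) l)) 1)) (J := J'.map ι) ?_ ?_
      · intro x hx
        obtain ⟨i, _, rfl⟩ := Finset.mem_map.1 hx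
        exact (e i).2
      · intro σ'
        have h1 := absq (M.domDomCongr σ') ((tor (RatEq D 1)).comap up) (fun w ⟨i, hi⟩ => by
            rw [MultilinearMap.domDomCongr_apply]
            refine hM0 _ (kill1 hpr _ (i := σ'.symm i) ?_)
            change up (w (σ' (σ'.symm i))) ∈ _
            rw [Equiv.apply_symm_apply]
            exact hi) Sq (fun u hu w i j hij hi hj => by
            rw [MultilinearMap.domDomCongr_apply]
            refine hSq u hu _ (σ'.symm i) (σ'.symm j) (fun h => hij (σ'.symm.injective h)) ?_ ?_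
            · change w (σ' (σ'.symm i)) = u
              rw [Equiv.apply_symm_apply]; exact hi
            · change w (σ' (σ'.symm j)) = u
              rw [Equiv.apply_symm_apply]; exact hj)
          (fun l => Finsupp.single (P (ρ l)) 1) (J'.map ι) (fun l _ => hLSq _ (hPL _))
          (by rw [Finset.card_map]; exact hc) (fun l => Finsupp.single (R l) 1) (fun l => ⟨R l, hR l, rfl⟩)
          (by
            rw [Finset.sum_map]
            exact hrel')
        exact h1
    · -- two equal points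
      have h1 : ∃ i j : Fin (g + 1), i ≠ j ∧ P (ρ (e i)) = P (ρ (e j)) := by
        by_contra hcon
        push Not at hcon
        exact hinj fun i j hij => by
          by_contra hne
          exact hcon i j hne hij
      obtain ⟨i, j, hij, hPij⟩ := h1
      refine Finset.sum_eq_zero fun σ _ => ?_
      refine hSq (Finsupp.single (P (ρ (e i))) 1) (hLSq _ (hPL _)) _ (σ.symm (e i)) (σ.symm (e j)) ?_ ?_ ?_
      · intro h
        exact hij (e.injective (Subtype.ext (σ.symm.injective h)))
      · change (Finsupp.single (P (ρ (σ (σ.symm (e i))))) 1 : Cyc1 D) = _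
        rw [Equiv.apply_symm_apply]
      · change (Finsupp.single (P (ρ (σ (σ.symm (e j))))) 1 : Cyc1 D) = _
        rw [Equiv.apply_symm_apply, hPij]

end H77.AF
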