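import Pool.Agent.H68.BB.Plc
import Pool.Agent.H68.BB.Red

/-! # AF.PD : point data, rational equivalence on the powers of a variety (definitions and trivial facts, no sorry)

`PD K`: a set `X` (the points over `K` of a variety `S`), a set `Y` (its points over `Ω = Om K`, the algebraic closure of `K(t)`) with the action of the automorphisms of `Ω` over `K(t)`, the relation
`sp π y x` (`y` specialises to `x` at the place `π`) and the predicate `off π y` (`y` leaves the variety at `π`: for affine varieties, some coordinate is not integral); `cst x` is the constant point.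
`RatEq D k`: zero-cycles of `S^k` rationally equivalent to zero; tuples which leave `S^k` are dropped. -/

namespace H77.AF

open H68.BB

/-- point data -/
structure PD (K : Type) [Field K] where
  X : Type
  Y : Type
  act : (Om K ≃ₐ[RatFunc K] Om K) → Y → Y
  sp : Place K (Om K) → Y → X → Prop
  off : Place K (Om K) → Y → Prop
  cst : X → Y
  act_cst : ∀ σ x, act σ (cst x) = cst x
  sp_cst : ∀ π x, sp π (cst x) x

variable {K : Type} [Field K]

/-- zero-cycles on the `k`-fold product: the free abelian group on `k`-tuples of points -/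
abbrev Cyc (D : PD K) (k : ℕ) : Type := (Fin k → D.X) →₀ ℤ

/-- zero-cycles in one variable -/
abbrev Cyc1 (D : PD K) : Type := D.X →₀ ℤ

/-- the zero-cycle given by a multiset of tuples of points -/
noncomputable def cyc {D : PD K} {k : ℕ} (S : Multiset (Fin k → D.X)) : Cyc D k :=
  (S.map (fun P => (Finsupp.single P 1 : Cyc D k))).sum

/-- a finite multiset of `k`-tuples of points over `Ω` which is stable under all automorphisms of `Ω` over `K(t)`: the generic
fibre of an effective 1-cycle of `ℙ¹ × S^k` all of whose components dominate `ℙ¹` -/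
def GalStable {D : PD K} {k : ℕ} (S : Multiset (Fin k → D.Y)) : Prop :=
  ∀ σ : Om K ≃ₐ[RatFunc K] Om K, S.map (fun P i => D.act σ (P i)) = S

/-- specialisation of a `k`-tuple of points -/
def SpT {D : PD K} {k : ℕ} (π : Place K (Om K)) (P : Fin k → D.Y) (p : Fin k → D.X) : Prop := ∀ i, D.sp π (P i) (p i)

/-- the multiset `S` specialises to the multiset `c` at the place `π`; tuples with a coordinate which leaves the variety are dropped -/
def Fibre {D : PD K} {k : ℕ} (π : Place K (Om K)) (S : Multiset (Fin k → D.Y)) (c : Multiset (Fin k → D.X)) : Prop :=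
  ∃ S1 S2 : Multiset (Fin k → D.Y), S = S1 + S2 ∧ Multiset.Rel (SpT π) S1 c ∧ ∀ P ∈ S2, ∃ i, D.off π (P i)

/-- zero-cycles of `S^k` rationally equivalent to zero: the subgroup generated by the differences of two fibres over `ℙ¹` of
effective 1-cycles of `ℙ¹ × S^k` which are dominant over `ℙ¹` -/
noncomputable def RatEq (D : PD K) (k : ℕ) : AddSubgroup (Cyc D k) :=
  AddSubgroup.closure {z | ∃ (S : Multiset (Fin k → D.Y)) (π π' : Place K (Om K)) (c c' : Multiset (Fin k → D.X)),
    GalStable S ∧ Fibre π S c ∧ Fibre π' S c' ∧ z = cyc c - cyc c'}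

/-- the elements with a positive multiple in `H` -/
def tor {A : Type} [AddCommGroup A] (H : AddSubgroup A) : AddSubgroup A where
  carrier := {z | ∃ N : ℕ, 0 < N ∧ N • z ∈ H}
  zero_mem' := ⟨1, one_pos, by rw [smul_zero]; exact H.zero_mem⟩
  add_mem' := by
    rintro x y ⟨N, hN, hx⟩ ⟨M, hM, hy⟩
    refine ⟨N * M, Nat.mul_pos hN hM, ?_⟩
    rw [smul_add]
    refine H.add_mem ?_ ?_
    · rw [mul_comm, mul_smul]; exact H.nsmul_mem hx M
    · rw [mul_smul]; exact H.nsmul_mem hy N
  neg_mem' := by
    rintro x ⟨N, hN, hx⟩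
    refine ⟨N, hN, ?_⟩
    rw [smul_neg]
    exact H.neg_mem hx

theorem mem_tor {A : Type} [AddCommGroup A] {H : AddSubgroup A} {z : A} : z ∈ tor H ↔ ∃ N : ℕ, 0 < N ∧ N • z ∈ H :=
  Iff.rfl

theorem le_tor {A : Type} [AddCommGroup A] (H : AddSubgroup A) : H ≤ tor H :=
  fun x hx => ⟨1, one_pos, by rw [one_smul]; exact hx⟩

/-- `tor` is saturated -/
theorem tor_sat {A : Type} [AddCommGroup A] {H : AddSubgroup A} {N : ℕ} (hN : 0 < N) {z : A} (h : N • z ∈ tor H) :
    z ∈ tor H := by
  obtain ⟨M, hM, h1⟩ := h
  exact ⟨M * N, Nat.mul_pos hM hN, by rw [mul_smul]; exact h1⟩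

/-- the quotient by `tor H` is torsion-free -/
theorem quot_tf {A : Type} [AddCommGroup A] (H : AddSubgroup A) (n : ℕ) (x : A ⧸ tor H) (hn : 0 < n) (h : n • x = 0) :
    x = 0 := by
  obtain ⟨z, rfl⟩ := QuotientAddGroup.mk_surjective x
  rw [← QuotientAddGroup.mk_nsmul, QuotientAddGroup.eq_zero_iff] at h
  exact (QuotientAddGroup.eq_zero_iff _).2 (tor_sat hn h)

open Classical in
/-- the exterior product `z 0 × z 1 × ... × z (m - 1)`: the coefficient at the tuple `f` is the product of the
coefficients of `z i` at `f i` -/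
noncomputable def prodM {D : PD K} {m : ℕ} (z : Fin m → Cyc1 D) : Cyc D m :=
  ∑ f ∈ Fintype.piFinset (fun i => (z i).support), Finsupp.single f (∏ i, z i (f i))

/-- a zero-cycle in one variable as a zero-cycle on the one-fold product -/
noncomputable def up {D : PD K} : Cyc1 D →+ Cyc D 1 := Finsupp.mapDomain.addMonoidHom (fun x _ => x)

/-- the exterior product as a multilinear map is a variable of the other modules: `IsPr mul` says that `mul` is the exterior
product -/
def IsPr {D : PD K} {m : ℕ} (mul : MultilinearMap ℤ (fun _ : Fin m => Cyc1 D) (Cyc D m)) : Prop :=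
  ∀ P : Fin m → D.X, mul (fun i => Finsupp.single (P i) 1) = Finsupp.single P 1

open Classical in
/-- the tuple with the entries `p j` at the places `ι j` and `q l` at the other places -/
noncomputable def fill {X : Type} {k m : ℕ} (ι : Fin k → Fin m) (q : Fin m → X) (p : Fin k → X) : Fin m → X :=
  fun l => if h : ∃ j, ι j = l then p h.choose else q l

theorem fill_at {X : Type} {k m : ℕ} {ι : Fin k → Fin m} (hι : Function.Injective ι) (q : Fin m → X) (p : Fin k → X)
    (j : Fin k) : fill ι q p (ι j) = p j := by
  have h : ∃ j', ι j' = ι j := ⟨j, rfl⟩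
  unfold fill
  rw [dif_pos h, hι h.choose_spec]

theorem fill_off {X : Type} {k m : ℕ} {ι : Fin k → Fin m} (q : Fin m → X) (p : Fin k → X) {l : Fin m}
    (hl : ∀ j, ι j ≠ l) : fill ι q p l = q l := by
  unfold fill
  rw [dif_neg (fun h => hl h.choose h.choose_spec)]

theorem fill_map {X X' : Type} {k m : ℕ} (ι : Fin k → Fin m) (q : Fin m → X) (p : Fin k → X) (f : X → X') :
    (fun l => f (fill ι q p l)) = fill ι (fun l => f (q l)) (fun j => f (p j)) := by
  funext l
  unfold fill
  split_ifs <;> rfl

end H77.AF
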