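import Pool.Agent.H77.AF.Pts

/-! # AF.Spz : integral points specialise; closed subvarieties (about 100 lines)

`spz`: the values of `y` are in `V`; compose with `φ : V → K` (`RingHom.codRestrict`, `π.φ`; on constants: `π.const (algebraMap K0 K c)`, `IsScalarTower.algebraMap_apply K0 K (Om K)`).
`fib_of`: the members of a finite multiset of points over `Ω` which are not off specialise.
`push`: for `ρ : R → R'` SURJECTIVE the homomorphism `Finsupp.mapDomain (fun P i => (P i).comp ρ)` maps `RatEq (pts K0 K R') k` into `RatEq (pts K0 K R) k`: the generators go to generators (`S.map (fun y i => (y i).comp ρ)`); `off` is preserved because `ρ` is surjective. -/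

namespace H77.AF

open H68.BB

variable {K0 K R R' : Type} [Field K0] [Field K] [Algebra K0 K] [CommRing R] [Algebra K0 R] [CommRing R'] [Algebra K0 R']

theorem spz {π : Place K (Om K)} {y : R →ₐ[K0] Om K} (h : ∀ r, y r ∈ π.V) :
    ∃ x : R →ₐ[K0] K, ∀ r, Rd π.V π.φ (y r) (x r) := by
  let g : R →+* π.V := (y : R →+* Om K).codRestrict π.V.toSubring h
  have hg : ∀ r, Rd π.V π.φ (y r) ((π.φ.comp g) r) := fun r => ⟨h r, rfl⟩
  refine ⟨{ π.φ.comp g with
    commutes' := fun c => ?_ }, hg⟩
  have h1 := hg (algebraMap K0 R c)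
  rw [AlgHom.commutes, IsScalarTower.algebraMap_apply K0 K (Om K)] at h1
  exact h1.unique (π.const (algebraMap K0 K c))

/-- the specialisation of a point is unique -/
theorem spz_unique {π : Place K (Om K)} {y : R →ₐ[K0] Om K} {x x' : R →ₐ[K0] K} (h : ∀ r, Rd π.V π.φ (y r) (x r))
    (h' : ∀ r, Rd π.V π.φ (y r) (x' r)) : x = x' := by
  ext r
  exact (h r).unique (h' r)

private theorem enum {α : Type} (U : Finset α) : ∃ f : Fin U.card → α, U.val = Finset.univ.val.map f := by
  classical
  refine ⟨fun l => (U.equivFin.symm l : α), ?_⟩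
  rw [← Finset.image_val_of_injOn
    (fun a _ b _ hab => U.equivFin.symm.injective (Subtype.ext hab))]
  congr 1
  ext a
  rw [Finset.mem_image]
  constructor
  · intro ha
    refine ⟨U.equivFin ⟨a, ha⟩, Finset.mem_univ _, ?_⟩
    rw [Equiv.symm_apply_apply]
  · rintro ⟨l, _, rfl⟩
    exact (U.equivFin.symm l).2

/-- the fibre at `π` of a finite set of points over `Ω` which contains lifts of the different points `P i` -/
theorem fib_of (π : Place K (Om K)) {S : Finset (R →ₐ[K0] Om K)} {m C : ℕ} (hS : S.card ≤ m + C)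
    {P : Fin m → R →ₐ[K0] K} (hP : Function.Injective P) (hlift : ∀ i, ∃ y ∈ S, ∀ r, Rd π.V π.φ (y r) (P i r)) :
    ∃ (c : ℕ) (Q : Fin c → R →ₐ[K0] K), c ≤ C ∧
      Fibre (D := pts K0 K R) (k := 1) π (S.val.map fun y _ => y)
        ((Finset.univ.val.map fun i _ => P i) + (Finset.univ.val.map fun l _ => Q l)) := by
  classical
  choose y hyS hy using hlift
  have hyi : Function.Injective y := by
    intro i j hij
    apply hP
    refine spz_unique (hy i) ?_
    rw [hij]
    exact hy j
  have hTS : Finset.univ.image y ⊆ S := by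
    intro z hz
    obtain ⟨i, _, rfl⟩ := Finset.mem_image.1 hz
    exact hyS i
  have hTv : (Finset.univ.image y).val = Finset.univ.val.map y :=
    Finset.image_val_of_injOn hyi.injOn
  have hTc : (Finset.univ.image y).card = m := by
    rw [Finset.card_image_of_injective _ hyi, Finset.card_univ, Fintype.card_fin]
  have hdc : (S \ Finset.univ.image y).card ≤ C := by
    rw [Finset.card_sdiff_of_subset hTS, hTc]
    omega
  have hSv : S.val = Finset.univ.val.map y + (S \ Finset.univ.image y).val := by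
    rw [← hTv, Finset.sdiff_val, add_tsub_cancel_of_le (Finset.val_le_iff.2 hTS)]
  obtain ⟨f, hf⟩ := enum ((S \ Finset.univ.image y).filter fun z => ∀ r, z r ∈ π.V)
  have hfm : ∀ l, ∃ x : R →ₐ[K0] K, ∀ r, Rd π.V π.φ (f l r) (x r) := by
    intro l
    apply spz
    have h1 : f l ∈ ((S \ Finset.univ.image y).filter fun z => ∀ r, z r ∈ π.V).val := by
      rw [hf]
      exact Multiset.mem_map.2 ⟨l, Finset.mem_univ_val _, rfl⟩
    exact (Finset.mem_filter.1 (Finset.mem_def.2 h1)).2
  choose Q hQ using hfm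
  refine ⟨_, Q, (Finset.card_filter_le _ _).trans hdc, ?_⟩
  have e1 : (S.val.map fun (z : R →ₐ[K0] Om K) (_ : Fin 1) => z) =
      ((Finset.univ.val.map fun i (_ : Fin 1) => y i) + Finset.univ.val.map fun l (_ : Fin 1) => f l) +
      (((S \ Finset.univ.image y).filter fun z => ¬ ∀ r, z r ∈ π.V).val).map
        (fun (z : R →ₐ[K0] Om K) (_ : Fin 1) => z) := by
    have e2 : (Finset.univ.val.map fun l (_ : Fin 1) => f l) =
        (((S \ Finset.univ.image y).filter fun z => ∀ r, z r ∈ π.V).val).map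
        (fun (z : R →ₐ[K0] Om K) (_ : Fin 1) => z) := by
      rw [hf, Multiset.map_map]
      rfl
    have e3 : (Finset.univ.val.map fun i (_ : Fin 1) => y i) =
        (Finset.univ.val.map y).map (fun (z : R →ₐ[K0] Om K) (_ : Fin 1) => z) := by
      rw [Multiset.map_map]
      rfl
    rw [e2, e3, add_assoc, ← Multiset.map_add, ← Multiset.map_add, Finset.filter_val,
      Finset.filter_val, Multiset.filter_add_not, ← hSv]
  have e4 : Multiset.Rel (fun (a : Fin 1 → R →ₐ[K0] Om K) (b : Fin 1 → R →ₐ[K0] K) =>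
      ∀ i r, Rd π.V π.φ (a i r) (b i r))
      ((Finset.univ.val.map fun i (_ : Fin 1) => y i) + Finset.univ.val.map fun l (_ : Fin 1) => f l)
      ((Finset.univ.val.map fun i (_ : Fin 1) => P i) +
        Finset.univ.val.map fun l (_ : Fin 1) => Q l) := by
    refine Multiset.Rel.add ?_ ?_
    · rw [Multiset.rel_map]
      exact Multiset.rel_refl_of_refl_on fun i _ _ => hy i
    · rw [Multiset.rel_map]
      exact Multiset.rel_refl_of_refl_on fun l _ _ => hQ l
  refine ⟨_, _, e1, e4, ?_⟩
  intro p hp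
  obtain ⟨z, hz, rfl⟩ := Multiset.mem_map.1 hp
  refine ⟨0, ?_⟩
  have h1 := (Finset.mem_filter.1 (Finset.mem_def.2 hz)).2
  exact not_forall.1 h1

private theorem push0 {D' D : PD K} (gX : D'.X → D.X) (gY : D'.Y → D.Y)
    (hact : ∀ σ y, D.act σ (gY y) = gY (D'.act σ y))
    (hsp : ∀ π y x, D'.sp π y x → D.sp π (gY y) (gX x))
    (hoff : ∀ π y, D'.off π y → D.off π (gY y)) {k : ℕ} {x : Cyc D' k}
    (hx : x ∈ tor (RatEq D' k)) :
    (Finsupp.mapDomain (fun (P : Fin k → D'.X) i => gX (P i)) x : Cyc D k) ∈ tor (RatEq D k) := by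
  obtain ⟨N, hN, h⟩ := hx
  let F : Cyc D' k →+ Cyc D k :=
    Finsupp.mapDomain.addMonoidHom (fun (P : Fin k → D'.X) i => gX (P i))
  have hF : ∀ c : Multiset (Fin k → D'.X), F (cyc c) = cyc (c.map fun P i => gX (P i)) := by
    intro c
    unfold cyc
    rw [map_multiset_sum, Multiset.map_map, Multiset.map_map]
    congr 1
    refine Multiset.map_congr rfl fun P _ => ?_
    exact Finsupp.mapDomain_single
  have hfib : ∀ (π : Place K (Om K)) (S : Multiset (Fin k → D'.Y))
      (c : Multiset (Fin k → D'.X)), Fibre π S c →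
      Fibre π (S.map fun P i => gY (P i)) (c.map fun P i => gX (P i)) := by
    rintro π S c ⟨S1, S2, rfl, hr, ho⟩
    refine ⟨S1.map fun P i => gY (P i), S2.map fun P i => gY (P i),
      Multiset.map_add _ _ _, ?_, ?_⟩
    · rw [Multiset.rel_map]
      exact hr.mono fun a _ b _ hab i => hsp π _ _ (hab i)
    · intro p hp
      obtain ⟨q, hq, rfl⟩ := Multiset.mem_map.1 hp
      obtain ⟨i, hi⟩ := ho q hq
      exact ⟨i, hoff π _ hi⟩
  have hle : RatEq D' k ≤ (RatEq D k).comap F := by
    refine (AddSubgroup.closure_le _).2 ?_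
    rintro z ⟨S, π, π', c, c', hG, h1, h2, rfl⟩
    rw [SetLike.mem_coe, AddSubgroup.mem_comap, map_sub, hF, hF]
    refine AddSubgroup.subset_closure ⟨S.map fun P i => gY (P i), π, π',
      c.map fun P i => gX (P i), c'.map fun P i => gX (P i), ?_, hfib π S c h1,
      hfib π' S c' h2, rfl⟩
    intro σ
    have h3 := congrArg (Multiset.map fun (P : Fin k → D'.Y) i => gY (P i)) (hG σ)
    rw [Multiset.map_map] at h3 ⊢
    refine Eq.trans ?_ h3
    refine Multiset.map_congr rfl fun P _ => ?_
    funext i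
    exact hact σ (P i)
  refine ⟨N, hN, ?_⟩
  have h4 : F (N • x) ∈ RatEq D k := hle h
  rw [map_nsmul] at h4
  exact h4

theorem push (ρ : R →ₐ[K0] R') (hρ : Function.Surjective ρ) {k : ℕ} {x : Cyc (pts K0 K R') k}
    (hx : x ∈ tor (RatEq (pts K0 K R') k)) :
    (Finsupp.mapDomain (fun (P : Fin k → R' →ₐ[K0] K) i => (P i).comp ρ) x : Cyc (pts K0 K R) k) ∈
      tor (RatEq (pts K0 K R) k) := by
  refine push0 (D' := pts K0 K R') (D := pts K0 K R)
    (fun z : R' →ₐ[K0] K => (z.comp ρ : R →ₐ[K0] K))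
    (fun z : R' →ₐ[K0] Om K => (z.comp ρ : R →ₐ[K0] Om K)) (fun σ y => rfl) ?_ ?_ hx
  · intro π y x h r
    exact h (ρ r)
  · rintro π y ⟨r, hr⟩
    obtain ⟨r', rfl⟩ := hρ r
    exact ⟨r', hr⟩

end H77.AF
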