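import Pool.Agent.H77.AF.PD

/-! # AF.Surf : the affine elliptic surface `S : y^2 = x^3 - 3 a x - 2 b` over `Spec A` (definitions only, no sorry)

`A` a `K0`-algebra (functions on an affine curve), `a, b ∈ A`, `K` a field containing `K0`.  The points of `S` over `F`: a point `φ : A → F` of the base and `x, y ∈ F` with `y^2 = x^3 - 3 φ(a) x - 2 φ(b)`.  `S` is the elliptic
surface without the zero section and without the fibres over the points at infinity of the base. -/

namespace H77.AF

open H68.BB

/-- the points of `S` over `F` -/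
@[ext] structure SP (K0 A F : Type) [Field K0] [CommRing A] [Algebra K0 A] [Field F] [Algebra K0 F] (a b : A) where
  φ : A →ₐ[K0] F
  x : F
  y : F
  eq : y ^ 2 = x ^ 3 - 3 * φ a * x - 2 * φ b

/-- the point data of `S` -/
noncomputable def surf (K0 K A : Type) [Field K0] [Field K] [Algebra K0 K] [CommRing A] [Algebra K0 A] (a b : A) :
    PD K where
  X := SP K0 A K a b
  Y := SP K0 A (Om K) a b
  act σ P :=
    { φ := { (σ : Om K →+* Om K).comp (P.φ : A →+* Om K) with
        commutes' := fun c => by
          change σ (P.φ (algebraMap K0 A c)) = _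
          rw [AlgHom.commutes, IsScalarTower.algebraMap_apply K0 (RatFunc K) (Om K), AlgEquiv.commutes] }
      x := σ P.x
      y := σ P.y
      eq := by
        change (σ P.y) ^ 2 = (σ P.x) ^ 3 - 3 * σ (P.φ a) * σ P.x - 2 * σ (P.φ b)
        rw [← map_pow, P.eq]
        simp only [map_sub, map_mul, map_pow, map_ofNat] }
  sp π P p := (∀ r, Rd π.V π.φ (P.φ r) (p.φ r)) ∧ Rd π.V π.φ P.x p.x ∧ Rd π.V π.φ P.y p.y
  off π P := (∃ r, P.φ r ∉ π.V) ∨ P.x ∉ π.V ∨ P.y ∉ π.V
  cst p :=
    { φ := (IsScalarTower.toAlgHom K0 K (Om K)).comp p.φ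
      x := algebraMap K (Om K) p.x
      y := algebraMap K (Om K) p.y
      eq := by
        change (algebraMap K (Om K) p.y) ^ 2 = (algebraMap K (Om K) p.x) ^ 3 -
          3 * algebraMap K (Om K) (p.φ a) * algebraMap K (Om K) p.x - 2 * algebraMap K (Om K) (p.φ b)
        rw [← map_pow, p.eq]
        simp only [map_sub, map_mul, map_pow, map_ofNat] }
  act_cst := fun σ p => by
    have h : ∀ c : K, σ (algebraMap K (Om K) c) = algebraMap K (Om K) c := fun c => by
      rw [IsScalarTower.algebraMap_apply K (RatFunc K) (Om K), AlgEquiv.commutes]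
    refine SP.ext ?_ (h _) (h _)
    ext r
    exact h (p.φ r)
  sp_cst := fun π p => ⟨fun r => π.const (p.φ r), π.const p.x, π.const p.y⟩

end H77.AF
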